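import Pool.Agent.H992.PL.Defs

/-! # Fast decay of the influence: the bootstrap -/

set_option autoImplicit false

noncomputable section

namespace Pool.Agent.H992.PL

open MeasureTheory MvPolynomial Pool.Agent.H5R2.ON Pool.Agent.H717R2.ON3 Pool.Agent.H983R2.ONJ

/-- decay of the influence with the exponent `δ` -/
def Dec (N : ℕ) (A q δ : ℝ) : Prop :=
  ∃ M : ℝ, 0 ≤ M ∧ ∀ r : ℝ, 0 ≤ r → MBM N A q r (M * (1 + r) ^ (-δ))

theorem MBM.mono {N : ℕ} {A q R m m' : ℝ} (h : MBM N A q R m) (hm : m ≤ m') : MBM N A q R m' :=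
  fun L _ hL c hc p η i => (h L hL c hc p η i).trans hm

theorem MBM_one (N : ℕ) (hN : 3 ≤ N) (A q R : ℝ) : MBM N A q R 1 := by
  intro L _ _ c _ p η i
  have hN0 : N ≠ 0 := by omega
  have hHc : Continuous (pS c : Conf N L → ℝ) := continuous_pS c
  have hFc : Continuous (fun S : Conf N L => cc i (S p)) :=
    (Aux993.st_cc_cont _).comp (continuous_apply _)
  have h1 := gH_mono hN0 hHc (ball p R) η (F := fun S => cc i (S p)) (G := fun _ => 1)
    hFc.measurable measurable_const 1 (fun S => Aux993.st_cc_abs_le _ _) (fun _ => by simp)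
    (fun S => (abs_le.1 (Aux993.st_cc_abs_le _ _)).2)
  have h2 := gH_mono hN0 hHc (ball p R) η (F := fun _ => -1) (G := fun S => cc i (S p))
    measurable_const hFc.measurable 1 (fun _ => by simp) (fun S => Aux993.st_cc_abs_le _ _)
    (fun S => (abs_le.1 (Aux993.st_cc_abs_le _ _)).1)
  rw [gH_const hN0 hHc] at h1 h2
  exact abs_le.2 ⟨h2, h1⟩

theorem dec_zero (N : ℕ) (hN : 3 ≤ N) (A q : ℝ) : Dec N A q 0 := by
  refine ⟨1, by norm_num, fun r _ => ?_⟩
  rw [neg_zero, Real.rpow_zero, mul_one]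
  exact MBM_one N hN A q r

theorem dec_mono {N : ℕ} {A q δ δ' : ℝ} (h : Dec N A q δ) (hδ : δ' ≤ δ) : Dec N A q δ' := by
  obtain ⟨M, hM, h⟩ := h
  refine ⟨M, hM, fun r hr => (h r hr).mono ?_⟩
  apply mul_le_mul_of_nonneg_left _ hM
  exact Real.rpow_le_rpow_of_exponent_le (by linarith) (by linarith)

theorem Mom.cut {L : ℕ} [NeZero L] {A q : ℝ} {c : Tor L × Tor L → ℝ} (hc : Mom A q c) (ρ : ℝ) :
    Mom A q (PL.cut ρ c) := by
  have h0 : ∀ e, 0 ≤ PL.cut ρ c e := by
    intro e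
    unfold PL.cut
    split_ifs
    · exact hc.nonneg e
    · exact le_refl 0
  have h1 : ∀ e, PL.cut ρ c e ≤ c e := by
    intro e
    unfold PL.cut
    split_ifs
    · exact le_refl _
    · exact hc.nonneg e
  refine ⟨h0, fun x => ?_⟩
  refine le_trans (Finset.sum_le_sum fun y _ => ?_) (hc.mom x)
  apply mul_le_mul_of_nonneg_right (add_le_add (h1 _) (h1 _))
  apply Real.rpow_nonneg
  have := tnorm_nonneg (y - x)
  linarith

theorem dec_step (hF : S_Fin) (hRm : S_Remove) (N : ℕ) (hN : 3 ≤ N) (A q : ℝ) (hA : 0 ≤ A)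
    (hq : 2 < q) (δ : ℝ) (hδ0 : 0 ≤ δ) (hδ : δ < 2) (h : Dec N A q δ) :
    Dec N A q (δ + (q - 2) / 2) := by
  obtain ⟨M, hM, hMB⟩ := h
  set δ' : ℝ := δ + (q - 2) / 2 with hδ'
  have hδ'0 : 0 ≤ δ' := by rw [hδ']; linarith
  set θ : ℝ := (q + 2) / (2 * q) with hθ
  have hq0 : 0 < q := by linarith
  have hθ0 : 0 < θ := by rw [hθ]; positivity
  have hθ1 : θ < 1 := by
    rw [hθ, div_lt_one (by positivity)]
    linarith
  have hθq : θ * q = (q + 2) / 2 := by
    rw [hθ]; field_simp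
  set ε : ℝ := 1 / 2 * (10 : ℝ) ^ (-δ') with hε
  have hε0 : 0 < ε := by positivity
  obtain ⟨R₀, hR₀, hfin⟩ := hF N hN A q ε θ hA hq.le hε0 hθ0 hθ1
  obtain ⟨C, hC, hrem⟩ := hRm N (by omega) A q δ M hA hq0.le hδ0 hδ hM hMB
  set M' : ℝ := max ((1 + R₀) ^ δ') (2 * (C * 2 ^ (θ * q))) with hM'
  have hM'1 : (1 + R₀) ^ δ' ≤ M' := le_max_left _ _
  have hM'2 : 2 * (C * 2 ^ (θ * q)) ≤ M' := le_max_right _ _
  have hM'0 : 0 ≤ M' := le_trans (by positivity) hM'2
  have hP : ∀ (k : ℕ) (r : ℝ), 0 ≤ r → r ≤ R₀ * 10 ^ k → MBM N A q r (M' * (1 + r) ^ (-δ')) := by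
    have hbase : ∀ r : ℝ, 0 ≤ r → r ≤ R₀ → MBM N A q r (M' * (1 + r) ^ (-δ')) := by
      intro r hr hr2
      refine (MBM_one N hN A q r).mono ?_
      have h1 : (1 + r) ^ δ' ≤ (1 + R₀) ^ δ' :=
        Real.rpow_le_rpow (by linarith) (by linarith) hδ'0
      have h2 : 0 < (1 + r) ^ δ' := Real.rpow_pos_of_pos (by linarith) _
      rw [Real.rpow_neg (by linarith), ← div_eq_mul_inv, le_div_iff₀ h2, one_mul]
      linarith
    intro k
    induction k with
    | zero =>
      intro r hr hr2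
      rw [pow_zero, mul_one] at hr2
      exact hbase r hr hr2
    | succ k ih =>
      intro r hr hr2
      by_cases hrR : r ≤ R₀
      · exact hbase r hr hrR
      push Not at hrR
      have hr1 : 1 ≤ r := by linarith
      have hr0 : 0 < r := by linarith
      have h1 : MBM N A q (r / 10) (M' * (1 + r / 10) ^ (-δ')) := by
        refine ih (r / 10) (by linarith) ?_
        rw [pow_succ] at hr2
        linarith
      have hm0 : 0 ≤ M' * (1 + r / 10) ^ (-δ') := by positivity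
      intro L _ hL c hc p η i
      have h2 := hfin r hrR.le _ hm0 h1 L hL (cut (r ^ θ) c) (hc.cut _) (by
        intro e he
        unfold cut
        rw [if_neg (not_le.2 he)]) p η i
      have h3 := hrem r (r ^ θ) hr1 (by positivity) L hL c hc p η i
      have h4 : gH (pS c) (ball p r) η (fun S => cc i (S p)) =
          gH (pS (cut (r ^ θ) c)) (ball p r) η (fun S => cc i (S p)) +
          (gH (pS c) (ball p r) η (fun S => cc i (S p)) -
            gH (pS (cut (r ^ θ) c)) (ball p r) η (fun S => cc i (S p))) := by ring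
      rw [h4]
      refine (abs_add_le _ _).trans ((add_le_add h2 h3).trans ?_)
      have hX : 0 < (1 + r) ^ (-δ') := Real.rpow_pos_of_pos (by linarith) _
      have h5 : ε * (M' * (1 + r / 10) ^ (-δ')) ≤ 1 / 2 * (M' * (1 + r) ^ (-δ')) := by
        have h6 : (1 + r / 10) ^ (-δ') ≤ 10 ^ δ' * (1 + r) ^ (-δ') := by
          have h7 : ((1 + r) / 10) ^ (-δ') = 10 ^ δ' * (1 + r) ^ (-δ') := by
            rw [Real.div_rpow (by linarith) (by norm_num), Real.rpow_neg (by norm_num : (0:ℝ) ≤ 10),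
              div_inv_eq_mul, mul_comm]
          rw [← h7]
          exact Real.rpow_le_rpow_of_nonpos (by positivity) (by linarith) (by linarith)
        have h8 : (10 : ℝ) ^ (-δ') * 10 ^ δ' = 1 := by
          rw [← Real.rpow_add (by norm_num), neg_add_cancel, Real.rpow_zero]
        calc ε * (M' * (1 + r / 10) ^ (-δ'))
            ≤ ε * (M' * (10 ^ δ' * (1 + r) ^ (-δ'))) := by gcongr
          _ = 1 / 2 * ((10 : ℝ) ^ (-δ') * 10 ^ δ') * (M' * (1 + r) ^ (-δ')) := by
              rw [hε]; ring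
          _ = 1 / 2 * (M' * (1 + r) ^ (-δ')) := by rw [h8, mul_one]
      have h9 : C * (1 + r) ^ (2 - δ) * (1 + r ^ θ) ^ (-q) ≤
          C * 2 ^ (θ * q) * (1 + r) ^ (-δ') := by
        have h10 : (1 + r ^ θ) ^ (-q) ≤ 2 ^ (θ * q) * (1 + r) ^ (-(θ * q)) := by
          have h11 : (1 + r ^ θ) ^ (-q) ≤ (r ^ θ) ^ (-q) :=
            Real.rpow_le_rpow_of_nonpos (by positivity) (by linarith) (by linarith)
          have h12 : (r ^ θ) ^ (-q) = r ^ (-(θ * q)) := by
            rw [← Real.rpow_mul hr0.le]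
            congr 1
            ring
          have h13 : r ^ (-(θ * q)) ≤ ((1 + r) / 2) ^ (-(θ * q)) :=
            Real.rpow_le_rpow_of_nonpos (by positivity) (by linarith)
              (by rw [neg_nonpos]; positivity)
          have h14 : ((1 + r) / 2) ^ (-(θ * q)) = 2 ^ (θ * q) * (1 + r) ^ (-(θ * q)) := by
            rw [Real.div_rpow (by linarith) (by norm_num), Real.rpow_neg (by norm_num : (0:ℝ) ≤ 2),
              div_inv_eq_mul, mul_comm]
          linarith
        have h15 : (1 + r) ^ (2 - δ) * (1 + r) ^ (-(θ * q)) = (1 + r) ^ (-δ') := by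
          rw [← Real.rpow_add (by linarith)]
          congr 1
          rw [hθq, hδ']
          ring
        calc C * (1 + r) ^ (2 - δ) * (1 + r ^ θ) ^ (-q)
            ≤ C * (1 + r) ^ (2 - δ) * (2 ^ (θ * q) * (1 + r) ^ (-(θ * q))) := by gcongr
          _ = C * 2 ^ (θ * q) * ((1 + r) ^ (2 - δ) * (1 + r) ^ (-(θ * q))) := by ring
          _ = _ := by rw [h15]
      calc _ ≤ 1 / 2 * (M' * (1 + r) ^ (-δ')) + C * 2 ^ (θ * q) * (1 + r) ^ (-δ') :=
            add_le_add h5 h9
        _ ≤ M' * (1 + r) ^ (-δ') := by nlinarith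
  refine ⟨M', hM'0, fun r hr => ?_⟩
  obtain ⟨k, hk⟩ : ∃ k : ℕ, r < R₀ * 10 ^ k := by
    obtain ⟨k, hk⟩ := pow_unbounded_of_one_lt (r / R₀) (by norm_num : (1 : ℝ) < 10)
    refine ⟨k, ?_⟩
    rw [div_lt_iff₀ (by linarith)] at hk
    linarith
  exact hP k r hr hk.le

theorem decay (hF : S_Fin) (hRm : S_Remove) : S_Decay := by
  intro N hN A q hA hq
  set δ₁ : ℝ := (q - 2) / 2 with hδ₁
  have h0 : 0 < δ₁ := by rw [hδ₁]; linarith
  have hn : ∀ n : ℕ, (n : ℝ) * δ₁ < 2 → Dec N A q (n * δ₁) := by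
    intro n
    induction n with
    | zero =>
      intro _
      rw [Nat.cast_zero, zero_mul]
      exact dec_zero N hN A q
    | succ n ih =>
      intro h
      push_cast at h ⊢
      have h1 : (n : ℝ) * δ₁ < 2 := by linarith
      have h2 := dec_step hF hRm N hN A q hA hq _ (by positivity) h1 (ih h1)
      have h3 : (n : ℝ) * δ₁ + (q - 2) / 2 = (n + 1) * δ₁ := by rw [← hδ₁]; ring
      rwa [h3] at h2
  -- the last `n` with `n δ₁ < 2`
  obtain ⟨n, hn1, hn2⟩ : ∃ n : ℕ, (n : ℝ) * δ₁ < 2 ∧ 2 ≤ ((n : ℝ) + 1) * δ₁ := by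
    by_contra hcon
    push Not at hcon
    have hall : ∀ n : ℕ, (n : ℝ) * δ₁ < 2 := by
      intro n
      induction n with
      | zero => norm_num
      | succ n ih =>
        push_cast
        exact hcon n ih
    obtain ⟨n, hn'⟩ := exists_nat_gt (2 / δ₁)
    have := hall n
    rw [div_lt_iff₀ h0] at hn'
    linarith
  have h1 := dec_step hF hRm N hN A q hA hq _ (by positivity) hn1 (hn n hn1)
  have h2 : Dec N A q (max 0 (2 - δ₁ / 2)) := by
    refine dec_mono h1 ?_
    rw [← hδ₁]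
    apply max_le
    · positivity
    · nlinarith
  have h3 := dec_step hF hRm N hN A q hA hq _ (le_max_left _ _)
    (max_lt (by norm_num) (by linarith)) h2
  obtain ⟨M, hM, h4⟩ := h3
  refine ⟨M, max 0 (2 - δ₁ / 2) + (q - 2) / 2, hM, ?_, fun R hR => (h4 R (by linarith)).mono ?_⟩
  · have := le_max_right 0 (2 - δ₁ / 2)
    linarith
  · apply mul_le_mul_of_nonneg_left _ hM
    apply Real.rpow_le_rpow_of_nonpos (by linarith) (by linarith)
    have := le_max_left 0 (2 - δ₁ / 2)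
    linarith

end Pool.Agent.H992.PL
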