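import Pool.Agent.H992.PL.Defs2
import Pool.Agent.H992.PL.Decay

/-! # Decay of the influence with every exponent `δ < 2`, couplings of finite second moment -/

set_option autoImplicit false

noncomputable section

namespace Pool.Agent.H992.PL

open MeasureTheory MvPolynomial Filter Pool.Agent.H5R2.ON Pool.Agent.H717R2.ON3
  Pool.Agent.H983R2.ONJ

theorem gH_le_one {L : ℕ} [NeZero L] (N : ℕ) (hN : N ≠ 0) (c : Tor L × Tor L → ℝ)
    (Λ : Finset (Tor L)) (η : Conf N L) (i : Fin N) (p : Tor L) :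
    |gH (pS c) Λ η (fun S => cc i (S p))| ≤ 1 := by
  have hHc : Continuous (pS c : Conf N L → ℝ) := continuous_pS c
  have hFc : Continuous (fun S : Conf N L => cc i (S p)) :=
    (Aux993.st_cc_cont _).comp (continuous_apply _)
  have h1 := gH_mono hN hHc Λ η (F := fun S => cc i (S p)) (G := fun _ => 1)
    hFc.measurable measurable_const 1 (fun S => Aux993.st_cc_abs_le _ _) (fun _ => by simp)
    (fun S => (abs_le.1 (Aux993.st_cc_abs_le _ _)).2)
  have h2 := gH_mono hN hHc Λ η (F := fun _ => -1) (G := fun S => cc i (S p))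
    measurable_const hFc.measurable 1 (fun _ => by simp) (fun S => Aux993.st_cc_abs_le _ _)
    (fun S => (abs_le.1 (Aux993.st_cc_abs_le _ _)).1)
  rw [gH_const hN hHc] at h1 h2
  exact abs_le.2 ⟨h2, h1⟩

theorem Mom2.of_le {L : ℕ} [NeZero L] {A : ℝ} {c₀ c : Tor L × Tor L → ℝ} (h : Mom2 A c₀)
    (hc : ∀ e, 0 ≤ c e ∧ c e ≤ c₀ e) : Mom2 A c := by
  refine ⟨fun e => (hc e).1, fun x => (Finset.sum_le_sum fun y _ => ?_).trans (h.mom x)⟩
  apply mul_le_mul_of_nonneg_right (add_le_add (hc _).2 (hc _).2)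
  positivity

theorem cut_le {L : ℕ} [NeZero L] {ρ : ℝ} {c₀ c : Tor L × Tor L → ℝ}
    (hc : ∀ e, 0 ≤ c e ∧ c e ≤ c₀ e) : ∀ e, 0 ≤ cut ρ c e ∧ cut ρ c e ≤ c₀ e := by
  intro e
  unfold cut
  split_ifs
  · exact hc e
  · exact ⟨le_refl _, (hc e).1.trans (hc e).2⟩

theorem tail_sum {L : ℕ} [NeZero L] {T : ℝ → ℝ} {c : Tor L × Tor L → ℝ} (hc : ∀ e, 0 ≤ c e)
    (h : Tail T c) (x : Tor L) {ρ : ℝ} (hρ : 0 ≤ ρ) :
    ∑ y, (if ρ < tnorm (y - x) then c (x, y) + c (y, x) else 0) ≤ |T ρ| / (1 + ρ) ^ 2 := by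
  rw [le_div_iff₀ (by positivity), Finset.sum_mul]
  refine le_trans (Finset.sum_le_sum fun y _ => ?_) ((h x ρ hρ).trans (le_abs_self _))
  split_ifs with hy
  · apply mul_le_mul_of_nonneg_left _ (add_nonneg (hc _) (hc _))
    apply pow_le_pow_left₀ (by linarith)
    linarith
  · rw [zero_mul]

theorem decay2 (hF : S_Fin2) (hRm : S_Remove2) : S_Decay2 := by
  intro N hN A δ T hA hδ0 hδ hT
  have hN0 : N ≠ 0 := by omega
  set ε : ℝ := 1 / 2 * (10 : ℝ) ^ (-δ) with hε
  have hε0 : 0 < ε := by positivity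
  obtain ⟨κ, hκ, hκ1, R₀, hR₀, hfin⟩ := hF N hN A ε hA hε0
  obtain ⟨C, hC, hrem⟩ := hRm A δ hA hδ0 hδ
  -- the scale from which on the tail is small
  obtain ⟨R₁, hR₁⟩ : ∃ R₁ : ℝ, ∀ R, R₁ ≤ R → C * (1 / κ ^ 2) * |T (κ * R)| ≤ 1 / 2 := by
    have h1 : Tendsto (fun R : ℝ => κ * R) atTop atTop := tendsto_id.const_mul_atTop hκ
    have h2 : Tendsto (fun R : ℝ => C * (1 / κ ^ 2) * |T (κ * R)|) atTop (nhds 0) := by
      have h3 := ((hT.comp h1).abs).const_mul (C * (1 / κ ^ 2))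
      rw [abs_zero, mul_zero] at h3
      exact h3
    have h4 := h2.eventually (gt_mem_nhds (by norm_num : (0:ℝ) < 1 / 2))
    rw [eventually_atTop] at h4
    obtain ⟨a, ha⟩ := h4
    exact ⟨a, fun R hR => (ha R hR).le⟩
  set R₂ : ℝ := max R₀ R₁ with hR₂
  have hR₂0 : R₀ ≤ R₂ := le_max_left _ _
  have hR₂1 : R₁ ≤ R₂ := le_max_right _ _
  set M : ℝ := (1 + R₂) ^ δ with hM
  have hM1 : 1 ≤ M := Real.one_le_rpow (by linarith) hδ0
  refine ⟨M, hM1, ?_⟩
  intro L _ c₀ hc₀ hTail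
  have hP : ∀ (k : ℕ) (r : ℝ), 0 ≤ r → r ≤ R₂ * 10 ^ k → 2 * r < L →
      InfC N c₀ r (M * (1 + r) ^ (-δ)) := by
    have hbase : ∀ r : ℝ, 0 ≤ r → r ≤ R₂ → InfC N c₀ r (M * (1 + r) ^ (-δ)) := by
      intro r hr hr2 c _ p η i
      refine (gH_le_one N hN0 c _ η i p).trans ?_
      have h1 : (1 + r) ^ δ ≤ (1 + R₂) ^ δ :=
        Real.rpow_le_rpow (by linarith) (by linarith) hδ0
      have h2 : 0 < (1 + r) ^ δ := Real.rpow_pos_of_pos (by linarith) _
      rw [Real.rpow_neg (by linarith), ← div_eq_mul_inv, le_div_iff₀ h2, one_mul]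
      exact h1
    intro k
    induction k with
    | zero =>
      intro r hr hr2 _
      rw [pow_zero, mul_one] at hr2
      exact hbase r hr hr2
    | succ k ih =>
      intro r hr hr2 hrL
      by_cases hrR : r ≤ R₂
      · exact hbase r hr hrR
      push Not at hrR
      have hr1 : 1 ≤ r := by linarith
      have hr0 : 0 < r := by linarith
      have h1 : ∀ r' : ℝ, 0 ≤ r' → r' ≤ r / 10 → InfC N c₀ r' (M * (1 + r') ^ (-δ)) := by
        intro r' hr' hr'2
        refine ih r' hr' ?_ (by linarith)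
        rw [pow_succ] at hr2
        linarith
      have hm0 : 0 ≤ M * (1 + r / 10) ^ (-δ) := by positivity
      intro c hc p η i
      have hcut := cut_le (ρ := κ * r) hc
      have h2 := hfin r (by linarith) _ hm0 L hrL (cut (κ * r) c) (hc₀.of_le hcut) (by
        intro e he
        unfold cut
        rw [if_neg (not_le.2 he)]) (h1 (r / 10) (by linarith) le_rfl _ hcut) p η i
      have hκr : 0 ≤ κ * r := by positivity
      have h3 := hrem N hN0 L c₀ hc₀ r (κ * r) (|T (κ * r)| / (1 + κ * r) ^ 2) M hr1 hκr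
        (by positivity) hM1 (fun x => tail_sum hc₀.nonneg hTail x hκr) h1 c hc p η i
      have h4 : gH (pS c) (ball p r) η (fun S => cc i (S p)) =
          gH (pS (cut (κ * r) c)) (ball p r) η (fun S => cc i (S p)) +
          (gH (pS c) (ball p r) η (fun S => cc i (S p)) -
            gH (pS (cut (κ * r) c)) (ball p r) η (fun S => cc i (S p))) := by ring
      rw [h4]
      refine (abs_add_le _ _).trans ((add_le_add h2 h3).trans ?_)
      have hX : 0 < (1 + r) ^ (-δ) := Real.rpow_pos_of_pos (by linarith) _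
      have h5 : ε * (M * (1 + r / 10) ^ (-δ)) ≤ 1 / 2 * (M * (1 + r) ^ (-δ)) := by
        have h6 : (1 + r / 10) ^ (-δ) ≤ 10 ^ δ * (1 + r) ^ (-δ) := by
          have h7 : ((1 + r) / 10) ^ (-δ) = 10 ^ δ * (1 + r) ^ (-δ) := by
            rw [Real.div_rpow (by linarith) (by norm_num), Real.rpow_neg (by norm_num : (0:ℝ) ≤ 10),
              div_inv_eq_mul, mul_comm]
          rw [← h7]
          exact Real.rpow_le_rpow_of_nonpos (by positivity) (by linarith) (by linarith)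
        have h8 : (10 : ℝ) ^ (-δ) * 10 ^ δ = 1 := by
          rw [← Real.rpow_add (by norm_num), neg_add_cancel, Real.rpow_zero]
        calc ε * (M * (1 + r / 10) ^ (-δ))
            ≤ ε * (M * (10 ^ δ * (1 + r) ^ (-δ))) := by gcongr
          _ = 1 / 2 * ((10 : ℝ) ^ (-δ) * 10 ^ δ) * (M * (1 + r) ^ (-δ)) := by
              rw [hε]; ring
          _ = 1 / 2 * (M * (1 + r) ^ (-δ)) := by rw [h8, mul_one]
      have h9 : C * M * (1 + r) ^ (2 - δ) * (|T (κ * r)| / (1 + κ * r) ^ 2) ≤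
          1 / 2 * (M * (1 + r) ^ (-δ)) := by
        have h10 : (1 + r) ^ (2 - δ) = (1 + r) ^ 2 * (1 + r) ^ (-δ) := by
          rw [sub_eq_add_neg, Real.rpow_add (by linarith)]
          congr 1
          exact Real.rpow_natCast _ 2
        have h11 : (1 + r) ^ 2 / (1 + κ * r) ^ 2 ≤ 1 / κ ^ 2 := by
          rw [div_le_div_iff₀ (by positivity) (by positivity), one_mul, ← mul_pow]
          apply pow_le_pow_left₀ (by positivity)
          nlinarith
        have h12 := hR₁ r (by linarith)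
        rw [h10]
        calc C * M * ((1 + r) ^ 2 * (1 + r) ^ (-δ)) * (|T (κ * r)| / (1 + κ * r) ^ 2)
            = (C * ((1 + r) ^ 2 / (1 + κ * r) ^ 2) * |T (κ * r)|) * (M * (1 + r) ^ (-δ)) := by
              field_simp
          _ ≤ (C * (1 / κ ^ 2) * |T (κ * r)|) * (M * (1 + r) ^ (-δ)) := by gcongr
          _ ≤ 1 / 2 * (M * (1 + r) ^ (-δ)) := by gcongr
      linarith
  intro R hR hRL
  obtain ⟨k, hk⟩ : ∃ k : ℕ, R < R₂ * 10 ^ k := by
    obtain ⟨k, hk⟩ := pow_unbounded_of_one_lt (R / R₂) (by norm_num : (1 : ℝ) < 10)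
    refine ⟨k, ?_⟩
    rw [div_lt_iff₀ (by linarith)] at hk
    linarith
  exact hP k R hR hk.le hRL

end Pool.Agent.H992.PL
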