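import Pool.Graph.R_seed8.H983R2.ONJ.Fin
import Pool.Graph.R_seed8.H983R2.ONJ.Model

/-!
# Two-dimensional N-vector models with couplings of finite `q`-th moment, `q > 2`: definitions and
interfaces

The starting point is the library's proof of the mass gap for exponentially decaying couplings
(`Pool.Graph.R_seed8.H983R2.ONJ`, `Pool.Graph.R_seed8.H717R2.ON3`).
-/

set_option autoImplicit false

noncomputable section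

namespace Pool.Agent.H992.PL

open MeasureTheory MvPolynomial Pool.Agent.H5R2.ON Pool.Agent.H717R2.ON3 Pool.Agent.H983R2.ONJ

/-- Ferromagnetic couplings on the torus whose `q`-th moments are at most `A`, at every site. -/
structure Mom {L : ℕ} [NeZero L] (A q : ℝ) (c : Tor L × Tor L → ℝ) : Prop where
  nonneg : ∀ e, 0 ≤ c e
  mom : ∀ x, ∑ y, (c (x, y) + c (y, x)) * (1 + tnorm (y - x)) ^ q ≤ A

/-- The influence of the boundary condition on the spin in the centre of a ball of radius `R`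
is at most `m`, for all couplings in the class `Mom A q` on all tori with `2 R < L`. -/
def MBM (N : ℕ) (A q R m : ℝ) : Prop :=
  ∀ (L : ℕ) [NeZero L], 2 * R < L → ∀ c : Tor L × Tor L → ℝ, Mom A q c →
    ∀ (p : Tor L) (η : Conf N L) (i : Fin N),
    |gH (pS c) (ball p R) η (fun S => cc i (S p))| ≤ m

/-- the couplings of range at most `ρ` -/
def cut {L : ℕ} (ρ : ℝ) (c : Tor L × Tor L → ℝ) (e : Tor L × Tor L) : ℝ :=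
  if tnorm (e.2 - e.1) ≤ ρ then c e else 0

/-- the coupling without the edge `e₀` -/
def del {L : ℕ} (e₀ : Tor L × Tor L) (c : Tor L × Tor L → ℝ) (e : Tor L × Tor L) : ℝ :=
  if e = e₀ then 0 else c e

/-! ## Interfaces -/

/-- Logarithmic cut-off functions (port of `phiJ`: there `θ = 1/2`). -/
def S_Phi : Prop :=
  ∀ K ε B θ : ℝ, 0 ≤ K → 0 < ε → 0 < B → 0 < θ → θ < 1 → ∃ R₀ : ℝ, 0 < R₀ ∧
    ∀ R : ℝ, R₀ ≤ R → ∀ (L : ℕ) [NeZero L] (a : Tor L), ∃ φ : Tor L → ℝ,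
      (∀ x, tnorm (x - a) ≤ B * R ^ θ → φ x = 1) ∧ (∀ x, R / 5 ≤ tnorm (x - a) → φ x = 0) ∧
      ∀ {ι : Type} [Fintype ι] (G : Gr (Tor L) ι) (β ρ : ℝ), Nice G β ρ K →
        β * En G φ ≤ ε

/-- Port of `main_boundJ` (there `θ = 1/2`). -/
def S_Main : Prop :=
  ∀ K ε θ : ℝ, 0 ≤ K → 0 < ε → 0 < θ → θ < 1 → ∃ R₀ : ℝ, 0 < R₀ ∧
    ∀ R : ℝ, R₀ ≤ R → ∀ (L : ℕ) [NeZero L], 2 * R < L → ∀ {ι : Type} [Fintype ι]
      (G : Gr (Tor L) ι) (β ρ : ℝ), Nice G β ρ K → 1 ≤ ρ → ρ ≤ R ^ θ → ∀ (p : Tor L)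
      (W : WFun G β (ball p R)), ∃ U : Alg (Tor L),
      W.E (U ^ 2) ≤ ε ∧ W.E (X (p, 0)) = W.E (U * X (p, 1)) ∧
      ∀ σ σ' : Tor L × Fin 3 → ℝ,
        (∀ x, R / 8 ≤ tnorm (x - p) → ∀ g, σ (x, g) = σ' (x, g)) →
          eval σ U = eval σ' U

/-- The recursion step for couplings of range at most `R ^ θ`: no error term. -/
def S_Fin : Prop :=
  ∀ N : ℕ, 3 ≤ N → ∀ A q ε θ : ℝ, 0 ≤ A → 2 ≤ q → 0 < ε → 0 < θ → θ < 1 →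
    ∃ R₀ : ℝ, 1 ≤ R₀ ∧ ∀ R : ℝ, R₀ ≤ R → ∀ m : ℝ, 0 ≤ m → MBM N A q (R / 10) m →
      ∀ (L : ℕ) [NeZero L], 2 * R < L → ∀ c : Tor L × Tor L → ℝ, Mom A q c →
        (∀ e, R ^ θ < tnorm (e.2 - e.1) → c e = 0) → ∀ (p : Tor L) (η : Conf N L) (i : Fin N),
        |gH (pS c) (ball p R) η (fun S => cc i (S p))| ≤ ε * m

/-- Removal of one edge whose end points are outside of `ball p r`. -/
def S_Edge : Prop :=
  ∀ N : ℕ, N ≠ 0 → ∀ A q : ℝ, 0 ≤ q → ∀ (L : ℕ) [NeZero L] (c : Tor L × Tor L → ℝ), Mom A q c →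
    ∀ (e₀ : Tor L × Tor L) (p : Tor L) (η : Conf N L) (i : Fin N) (r R m : ℝ), r ≤ R → 0 ≤ m →
    e₀.1 ∉ ball p r → e₀.2 ∉ ball p r →
    (∀ η' : Conf N L, |gH (pS (del e₀ c)) (ball p r) η' (fun S => cc i (S p))| ≤ m) →
    |gH (pS c) (ball p R) η (fun S => cc i (S p)) -
      gH (pS (del e₀ c)) (ball p R) η (fun S => cc i (S p))| ≤
        (if e₀.1 ∈ ball p R ∨ e₀.2 ∈ ball p R then 2 * Real.exp (2 * A) * c e₀ * m else 0)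

/-- Sums over balls. -/
def S_Ball : Prop :=
  ∀ δ : ℝ, 0 ≤ δ → δ < 2 → ∃ K : ℝ, 0 < K ∧ ∀ (L : ℕ) [NeZero L] (p : Tor L) (R : ℝ), 0 ≤ R →
    ∑ x ∈ ball p R, (1 + tnorm (x - p)) ^ (-δ) ≤ K * (1 + R) ^ (2 - δ)

/-- Removal of all the long edges. -/
def S_Remove : Prop :=
  ∀ N : ℕ, N ≠ 0 → ∀ A q δ M : ℝ, 0 ≤ A → 0 ≤ q → 0 ≤ δ → δ < 2 → 0 ≤ M →
    (∀ r : ℝ, 0 ≤ r → MBM N A q r (M * (1 + r) ^ (-δ))) →
    ∃ C : ℝ, 0 < C ∧ ∀ (R ρ : ℝ), 1 ≤ R → 0 ≤ ρ → ∀ (L : ℕ) [NeZero L], 2 * R < L →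
      ∀ c : Tor L × Tor L → ℝ, Mom A q c → ∀ (p : Tor L) (η : Conf N L) (i : Fin N),
      |gH (pS c) (ball p R) η (fun S => cc i (S p)) -
        gH (pS (cut ρ c)) (ball p R) η (fun S => cc i (S p))| ≤
          C * (1 + R) ^ (2 - δ) * (1 + ρ) ^ (-q)

/-- Fast decay of the influence. -/
def S_Decay : Prop :=
  ∀ N : ℕ, 3 ≤ N → ∀ A q : ℝ, 0 ≤ A → 2 < q → ∃ C δ : ℝ, 0 ≤ C ∧ 2 < δ ∧
    ∀ R : ℝ, 1 ≤ R → MBM N A q R (C * R ^ (-δ))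

/-- Moments of the two point functions. -/
def S_Sum : Prop :=
  ∀ N : ℕ, 3 ≤ N → ∀ A q : ℝ, 0 ≤ A → 2 < q → (∃ C δ : ℝ, 0 ≤ C ∧ 2 < δ ∧
    ∀ R : ℝ, 1 ≤ R → MBM N A q R (C * R ^ (-δ))) →
    ∃ C : ℝ, 0 ≤ C ∧ ∀ (L : ℕ) [NeZero L] (c : Tor L × Tor L → ℝ), Mom A q c →
      ∀ (i : Fin N) (x : Tor L), ∑ y, corJ c i x y * (1 + tnorm (y - x)) ^ q ≤ C

/-- Exponential moments of the two point functions. -/
def S_SumExp : Prop :=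
  ∀ N : ℕ, 3 ≤ N → ∀ A q : ℝ, 0 ≤ A → 2 < q → (∃ C δ : ℝ, 0 ≤ C ∧ 2 < δ ∧
    ∀ R : ℝ, 1 ≤ R → MBM N A q R (C * R ^ (-δ))) → ∀ a A' : ℝ, 0 < a → 0 ≤ A' →
    ∃ C b : ℝ, 0 ≤ C ∧ 0 < b ∧ ∀ (L : ℕ) [NeZero L] (c : Tor L × Tor L → ℝ), Mom A q c →
      (∀ x, ∑ y, (c (x, y) + c (y, x)) * Real.exp (a * tnorm (y - x)) ≤ A') →
      ∀ (i : Fin N) (x : Tor L), ∑ y, corJ c i x y * Real.exp (b * tnorm (y - x)) ≤ C

/-- Moments of the periodised coupling, for a monotone weight `w ≥ 1`. -/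
def S_Per : Prop :=
  ∀ (J : ℤ × ℤ → ℝ) (w : ℝ → ℝ), (∀ m, m ≠ 0 → 0 ≤ J m) → (∀ s t, s ≤ t → w s ≤ w t) →
    (∀ t, 0 ≤ t → 1 ≤ w t) → Summable (fun m => |J m| * w (znorm m)) →
    ∀ (L : ℕ) [NeZero L], (∀ x : Tor L, x ≠ 0 → 0 ≤ Jper L J x) ∧
      ∑ x ∈ Finset.univ.filter (fun x : Tor L => x ≠ 0), Jper L J x * w (tnorm x) ≤
        ∑' m, |J m| * w (znorm m)

/-- Infinite volume limits. -/
def S_Lim : Prop :=
  ∀ (N : ℕ) (J : ℤ × ℤ → ℝ) (β : ℝ) (w : ℝ → ℝ) (C : ℝ), (∀ t, 0 ≤ w t) →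
    (∀ (L : ℕ) [NeZero L], ∑ y : Tor L, |corr N L J β 0 y| * w (tnorm y) ≤ C) →
    ∀ G : ℤ × ℤ → ℝ, IsLimitCorr N J β G →
      Summable (fun x => |G x| * w (znorm x)) ∧ ∑' x, |G x| * w (znorm x) ≤ C

end Pool.Agent.H992.PL
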