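import Pool.Agent.H992.PL.Defs

/-!
# Two-dimensional N-vector models with couplings of finite second moment: interfaces

This is the sharp form of the interfaces in `PL/Defs.lean`: everything is done for a fixed torus and
a fixed coupling, and the truncation is at `κ R`.
-/

set_option autoImplicit false

noncomputable section

namespace Pool.Agent.H992.PL

open MeasureTheory MvPolynomial Filter Pool.Agent.H5R2.ON Pool.Agent.H717R2.ON3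
  Pool.Agent.H983R2.ONJ

/-- The second moments of the couplings are at most `A`. -/
structure Mom2 {L : ℕ} [NeZero L] (A : ℝ) (c : Tor L × Tor L → ℝ) : Prop where
  nonneg : ∀ e, 0 ≤ c e
  mom : ∀ x, ∑ y, (c (x, y) + c (y, x)) * (1 + tnorm (y - x)) ^ 2 ≤ A

/-- The tails of the second moments are at most `T ρ`. -/
def Tail {L : ℕ} [NeZero L] (T : ℝ → ℝ) (c : Tor L × Tor L → ℝ) : Prop :=
  ∀ (x : Tor L) (ρ : ℝ), 0 ≤ ρ →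
    ∑ y, (if ρ < tnorm (y - x) then (c (x, y) + c (y, x)) * (1 + tnorm (y - x)) ^ 2 else 0) ≤ T ρ

/-- Influence of the boundary condition on the spin in the centre of a ball of radius `R`, for the
coupling `c`. -/
def Inf1 {L : ℕ} [NeZero L] (N : ℕ) (c : Tor L × Tor L → ℝ) (R m : ℝ) : Prop :=
  ∀ (p : Tor L) (η : Conf N L) (i : Fin N),
    |gH (pS c) (ball p R) η (fun S => cc i (S p))| ≤ m

/-- The same for all couplings dominated by `c₀`. -/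
def InfC {L : ℕ} [NeZero L] (N : ℕ) (c₀ : Tor L × Tor L → ℝ) (R m : ℝ) : Prop :=
  ∀ c : Tor L × Tor L → ℝ, (∀ e, 0 ≤ c e ∧ c e ≤ c₀ e) → Inf1 N c R m

/-- Logarithmic cut-off functions between the radii `r ≤ κ R` and `R / 5`. -/
def S_Phi2 : Prop :=
  ∀ K ε : ℝ, 0 ≤ K → 0 < ε → ∃ κ : ℝ, 0 < κ ∧ κ ≤ 1 ∧
    ∀ R r : ℝ, 1 ≤ r → r ≤ κ * R → ∀ (L : ℕ) [NeZero L] (a : Tor L), ∃ φ : Tor L → ℝ,
      (∀ x, tnorm (x - a) ≤ r → φ x = 1) ∧ (∀ x, R / 5 ≤ tnorm (x - a) → φ x = 0) ∧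
      ∀ {ι : Type} [Fintype ι] (G : Gr (Tor L) ι) (β ρ : ℝ), Nice G β ρ K → ρ ≤ r →
        β * En G φ ≤ ε

/-- Port of `main_boundJ` to graphs of range `ρ ≤ κ R`. -/
def S_Main2 : Prop :=
  ∀ K ε : ℝ, 0 ≤ K → 0 < ε → ∃ κ : ℝ, 0 < κ ∧ κ ≤ 1 ∧
    ∀ (R : ℝ) (L : ℕ) [NeZero L], 2 * R < L → ∀ {ι : Type} [Fintype ι]
      (G : Gr (Tor L) ι) (β ρ : ℝ), Nice G β ρ K → 1 ≤ ρ → ρ ≤ κ * R → ∀ (p : Tor L)
      (W : WFun G β (ball p R)), ∃ U : Alg (Tor L),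
      W.E (U ^ 2) ≤ ε ∧ W.E (X (p, 0)) = W.E (U * X (p, 1)) ∧
      ∀ σ σ' : Tor L × Fin 3 → ℝ,
        (∀ x, R / 8 ≤ tnorm (x - p) → ∀ g, σ (x, g) = σ' (x, g)) →
          eval σ U = eval σ' U

/-- The recursion step for a coupling of range at most `κ R`: no error term. -/
def S_Fin2 : Prop :=
  ∀ N : ℕ, 3 ≤ N → ∀ A ε : ℝ, 0 ≤ A → 0 < ε →
    ∃ κ : ℝ, 0 < κ ∧ κ ≤ 1 ∧ ∃ R₀ : ℝ, 1 ≤ R₀ ∧ ∀ R : ℝ, R₀ ≤ R → ∀ m : ℝ, 0 ≤ m →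
      ∀ (L : ℕ) [NeZero L], 2 * R < L → ∀ c : Tor L × Tor L → ℝ, Mom2 A c →
        (∀ e, κ * R < tnorm (e.2 - e.1) → c e = 0) → Inf1 N c (R / 10) m → Inf1 N c R (ε * m)

/-- Removal of all the edges longer than `ρ`. -/
def S_Remove2 : Prop :=
  ∀ A δ : ℝ, 0 ≤ A → 0 ≤ δ → δ < 2 → ∃ C : ℝ, 0 < C ∧ ∀ N : ℕ, N ≠ 0 →
    ∀ (L : ℕ) [NeZero L] (c₀ : Tor L × Tor L → ℝ), Mom2 A c₀ → ∀ R ρ τ M : ℝ, 1 ≤ R → 0 ≤ ρ →
      0 ≤ τ → 1 ≤ M →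
      (∀ x, ∑ y, (if ρ < tnorm (y - x) then c₀ (x, y) + c₀ (y, x) else 0) ≤ τ) →
      (∀ r : ℝ, 0 ≤ r → r ≤ R / 10 → InfC N c₀ r (M * (1 + r) ^ (-δ))) →
      ∀ c : Tor L × Tor L → ℝ, (∀ e, 0 ≤ c e ∧ c e ≤ c₀ e) →
      ∀ (p : Tor L) (η : Conf N L) (i : Fin N),
      |gH (pS c) (ball p R) η (fun S => cc i (S p)) -
        gH (pS (cut ρ c)) (ball p R) η (fun S => cc i (S p))| ≤
          C * M * (1 + R) ^ (2 - δ) * τ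

/-- Decay of the influence with every exponent `δ < 2`. -/
def S_Decay2 : Prop :=
  ∀ N : ℕ, 3 ≤ N → ∀ (A δ : ℝ) (T : ℝ → ℝ), 0 ≤ A → 0 ≤ δ → δ < 2 →
    Tendsto T atTop (nhds 0) → ∃ C : ℝ, 1 ≤ C ∧
      ∀ (L : ℕ) [NeZero L] (c : Tor L × Tor L → ℝ), Mom2 A c → Tail T c →
        ∀ R : ℝ, 0 ≤ R → 2 * R < L → InfC N c R (C * (1 + R) ^ (-δ))

/-- The exit inequality with a small kernel: for every `p` there is a radius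
`R ∈ [R₁, 2 R₁ + 1]` and a kernel `k` of small total mass, dominated by the couplings which leave
the ball `ball p R`. -/
def S_Renew : Prop :=
  ∀ N : ℕ, 3 ≤ N → ∀ (A ε C δ : ℝ) (T : ℝ → ℝ), 0 ≤ A → 0 < ε → 0 ≤ C → 1 < δ →
    Tendsto T atTop (nhds 0) → ∃ R₁ : ℝ, 1 ≤ R₁ ∧
      ∀ (L : ℕ) [NeZero L], 8 * R₁ < L → ∀ c : Tor L × Tor L → ℝ, Mom2 A c → Tail T c →
        (∀ R : ℝ, 1 ≤ R → 2 * R < L → Inf1 N c R (C * (1 + R) ^ (-δ))) →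
        ∀ (i : Fin N) (p : Tor L), ∃ R : ℝ, R₁ ≤ R ∧ R ≤ 2 * R₁ ∧ ∃ k : Tor L → ℝ,
          (∀ w, 0 ≤ k w) ∧ ∑ w, k w ≤ ε ∧
          (∀ w, k w ≤ ∑ v ∈ ball p R, 2 * (c (v, w) + c (w, v))) ∧
          ∀ y, R < tnorm (y - p) → corJ c i p y ≤ ∑ w, k w * corJ c i w y

/-- Moments of the two point functions, `q ≥ 2`. -/
def S_Sum2 : Prop :=
  ∀ N : ℕ, 3 ≤ N → ∀ (A q C δ : ℝ) (T : ℝ → ℝ), 0 ≤ A → 2 ≤ q → 0 ≤ C → 1 < δ →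
    Tendsto T atTop (nhds 0) → ∃ C' : ℝ, 0 ≤ C' ∧
      ∀ (L : ℕ) [NeZero L] (c : Tor L × Tor L → ℝ), Mom2 A c → Tail T c →
        (∀ x, ∑ y, (c (x, y) + c (y, x)) * (1 + tnorm (y - x)) ^ q ≤ A) →
        (∀ R : ℝ, 1 ≤ R → 2 * R < L → Inf1 N c R (C * (1 + R) ^ (-δ))) →
        ∀ (i : Fin N) (x : Tor L), ∑ y, corJ c i x y * (1 + tnorm (y - x)) ^ q ≤ C'

/-- Pointwise power law bound, `s > 4`. -/
def S_Pow2 : Prop :=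
  ∀ N : ℕ, 3 ≤ N → ∀ (A s C δ : ℝ) (T : ℝ → ℝ), 0 ≤ A → 4 < s → 0 ≤ C → 1 < δ →
    Tendsto T atTop (nhds 0) → ∃ C' : ℝ, 0 ≤ C' ∧
      ∀ (L : ℕ) [NeZero L] (c : Tor L × Tor L → ℝ), Mom2 A c → Tail T c →
        (∀ x y, c (x, y) ≤ A * (1 + tnorm (y - x)) ^ (-s)) →
        (∀ R : ℝ, 1 ≤ R → 2 * R < L → Inf1 N c R (C * (1 + R) ^ (-δ))) →
        ∀ (i : Fin N) (x y : Tor L), corJ c i x y ≤ C' * (1 + tnorm (y - x)) ^ (-s)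

/-- Exponential moments. -/
def S_Exp2 : Prop :=
  ∀ N : ℕ, 3 ≤ N → ∀ (A a C δ : ℝ) (T : ℝ → ℝ), 0 ≤ A → 0 < a → 0 ≤ C → 1 < δ →
    Tendsto T atTop (nhds 0) → ∃ C' b : ℝ, 0 ≤ C' ∧ 0 < b ∧
      ∀ (L : ℕ) [NeZero L] (c : Tor L × Tor L → ℝ), Mom2 A c → Tail T c →
        (∀ x, ∑ y, (c (x, y) + c (y, x)) * Real.exp (a * tnorm (y - x)) ≤ A) →
        (∀ R : ℝ, 1 ≤ R → 2 * R < L → Inf1 N c R (C * (1 + R) ^ (-δ))) →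
        ∀ (i : Fin N) (x : Tor L), ∑ y, corJ c i x y * Real.exp (b * tnorm (y - x)) ≤ C'

/-- Lower bound: the two point function dominates the coupling. -/
def S_Low : Prop :=
  ∀ N : ℕ, N ≠ 0 → ∀ A : ℝ, 0 ≤ A → ∃ a : ℝ, 0 < a ∧
    ∀ (L : ℕ) [NeZero L] (c : Tor L × Tor L → ℝ), (∀ e, 0 ≤ c e) →
      (∀ x, ∑ y, (c (x, y) + c (y, x)) ≤ A) → ∀ x y : Tor L, x ≠ y →
      a * (c (x, y) + c (y, x)) ≤
        (∫ S : Conf N L, inner ℝ (S x : EuclideanSpace ℝ (Fin N)) (S y) *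
            Real.exp (pS c S) ∂(prior N L)) / ∫ S : Conf N L, Real.exp (pS c S) ∂(prior N L)

end Pool.Agent.H992.PL
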