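import Pool.Agent.H992.PL.Defs
import Pool.Graph.R_seed8.H348R2.ONJ.Gib2

/-!
# Project PL (helper992), task PL3: removal of one edge
-/

set_option autoImplicit false

noncomputable section

namespace Pool.Agent.H671.PL

open MeasureTheory MvPolynomial Pool.Agent.H5R2.ON Pool.Agent.H717R2.ON3 Pool.Agent.H983R2.ONJ
open Pool.Agent.H992.PL Pool.Agent.H983R2.ONJ.Aux348

theorem abs_cc_le {N : ℕ} (i : Fin N) (s : Sph N) : |cc i s| ≤ 1 := by
  have h1 : ‖(s : EuclideanSpace ℝ (Fin N))‖ = 1 := by
    have := s.2
    rwa [mem_sphere_zero_iff_norm] at this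
  have h2 := PiLp.norm_apply_le (s : EuclideanSpace ℝ (Fin N)) i
  rw [h1] at h2
  simpa [cc, Real.norm_eq_abs] using h2

theorem cont_cc {N : ℕ} (i : Fin N) : Continuous (cc i : Sph N → ℝ) := by
  unfold cc
  fun_prop

theorem exp_bound (v : ℝ) : |Real.exp v - 1| ≤ |v| * Real.exp |v| := by
  rcases le_total 0 v with h | h
  · rw [abs_of_nonneg h, abs_of_nonneg (by linarith [Real.one_le_exp h])]
    have h1 := Real.add_one_le_exp (-v)
    have h2 := mul_le_mul_of_nonneg_right h1 (Real.exp_pos v).le
    rw [← Real.exp_add, neg_add_cancel, Real.exp_zero] at h2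
    linarith
  · rw [abs_of_nonpos h, abs_of_nonpos (by linarith [Real.exp_le_one_iff.2 h])]
    have h1 := Real.add_one_le_exp v
    have h2 : 1 ≤ Real.exp (-v) := Real.one_le_exp (by linarith)
    have h3 : -v ≤ -v * Real.exp (-v) := le_mul_of_one_le_right (by linarith) h2
    linarith

/-- the energy of one edge -/
def ve {N L : ℕ} (k : ℝ) (e : Tor L × Tor L) (S : Conf N L) : ℝ :=
  k * inner ℝ (S e.1 : EuclideanSpace ℝ (Fin N)) (S e.2)

theorem cont_ve {N L : ℕ} (k : ℝ) (e : Tor L × Tor L) :
    Continuous (ve k e : Conf N L → ℝ) := by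
  unfold ve
  exact continuous_const.mul ((continuous_subtype_val.comp (continuous_apply e.1)).inner
    (continuous_subtype_val.comp (continuous_apply e.2)))

theorem abs_ve {N L : ℕ} {k : ℝ} (hk : 0 ≤ k) (e : Tor L × Tor L) (S : Conf N L) :
    |ve k e S| ≤ k := by
  unfold ve
  have h : ∀ s : Sph N, ‖(s : EuclideanSpace ℝ (Fin N))‖ = 1 := by
    intro s
    have := s.2
    rwa [mem_sphere_zero_iff_norm] at this
  have h1 := abs_real_inner_le_norm (S e.1 : EuclideanSpace ℝ (Fin N)) (S e.2)
  rw [h, h, one_mul] at h1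
  rw [abs_mul, abs_of_nonneg hk]
  exact mul_le_of_le_one_right hk h1

theorem pS_del {N L : ℕ} [NeZero L] (c : Tor L × Tor L → ℝ) (e₀ : Tor L × Tor L)
    (S : Conf N L) : pS c S = pS (del e₀ c) S + ve (c e₀) e₀ S := by
  classical
  unfold pS ve
  have h1 : c e₀ * inner ℝ (S e₀.1 : EuclideanSpace ℝ (Fin N)) (S e₀.2) =
      ∑ e, if e = e₀ then c e * inner ℝ (S e.1 : EuclideanSpace ℝ (Fin N)) (S e.2) else 0 := by
    rw [Finset.sum_ite_eq' Finset.univ e₀]
    simp
  rw [h1, ← Finset.sum_add_distrib]
  refine Finset.sum_congr rfl fun e _ => ?_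
  unfold del
  by_cases h : e = e₀
  · rw [if_pos h, if_pos h]; ring
  · rw [if_neg h, if_neg h]; ring

/-- change of the weight -/
theorem gH_tilt {N L : ℕ} [NeZero L] (hN : N ≠ 0) {H H' v : Conf N L → ℝ}
    (hH' : Continuous H') (hs : ∀ S, H S = H' S + v S) (Λ : Finset (Tor L)) (η : Conf N L)
    (F : Conf N L → ℝ) :
    gH H Λ η F = gH H' Λ η (fun S => Real.exp (v S) * F S) /
      gH H' Λ η (fun S => Real.exp (v S)) := by
  have hZ := Z_pos hN hH' Λ η
  unfold gH
  rw [div_div_div_cancel_right₀ hZ.ne']
  congr 1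
  · refine integral_congr_ae (Filter.Eventually.of_forall fun S => ?_)
    simp only [hs, Real.exp_add]
    ring
  · refine integral_congr_ae (Filter.Eventually.of_forall fun S => ?_)
    simp only [hs, Real.exp_add]
    ring

theorem c_le {L : ℕ} [NeZero L] {A q : ℝ} (hq : 0 ≤ q) {c : Tor L × Tor L → ℝ}
    (hc : Mom A q c) (e₀ : Tor L × Tor L) : c e₀ ≤ A := by
  refine le_trans ?_ (hc.mom e₀.1)
  have h1 : ∀ y ∈ Finset.univ, 0 ≤ (c (e₀.1, y) + c (y, e₀.1)) * (1 + tnorm (y - e₀.1)) ^ q := by
    intro y _
    have := hc.nonneg (e₀.1, y)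
    have := hc.nonneg (y, e₀.1)
    have h2 : 0 ≤ tnorm (y - e₀.1) := by unfold tnorm; positivity
    positivity
  refine le_trans ?_ (Finset.single_le_sum h1 (Finset.mem_univ e₀.2))
  have h2 : 0 ≤ tnorm (e₀.2 - e₀.1) := by unfold tnorm; positivity
  have h3 : 1 ≤ (1 + tnorm (e₀.2 - e₀.1)) ^ q := Real.one_le_rpow (by linarith) hq
  have h4 := hc.nonneg e₀
  have h5 := hc.nonneg (e₀.2, e₀.1)
  have h6 : c (e₀.1, e₀.2) = c e₀ := rfl
  rw [h6]
  nlinarith

/-- **PL3** -/
theorem edge : S_Edge := by
  intro N hN A q hq L _ c hc e₀ p η i r R m hrR hm h1 h2 hinf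
  have hH : Continuous (pS c : Conf N L → ℝ) := continuous_pS c
  have hH' : Continuous (pS (del e₀ c) : Conf N L → ℝ) := continuous_pS _
  set H' : Conf N L → ℝ := pS (del e₀ c) with hH'def
  set k : ℝ := c e₀ with hk
  have hk0 : 0 ≤ k := hc.nonneg e₀
  have hkA : k ≤ A := c_le hq hc e₀
  set F : Conf N L → ℝ := fun S => cc i (S p) with hF
  have hFc : Continuous F := (cont_cc i).comp (continuous_apply p)
  have hF1 : ∀ S, |F S| ≤ 1 := fun S => abs_cc_le i (S p)
  by_cases hcase : e₀.1 ∈ ball p R ∨ e₀.2 ∈ ball p R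
  · rw [if_pos hcase]
    have hsub : ball p r ⊆ ball p R := by
      intro z hz
      unfold ball at hz ⊢
      rw [Finset.mem_filter] at hz ⊢
      exact ⟨hz.1, hz.2.trans hrR⟩
    set w : Conf N L → ℝ := fun S => Real.exp (ve k e₀ S) with hw
    have hwc : Continuous w := Real.continuous_exp.comp (cont_ve k e₀)
    set G : Conf N L → ℝ := fun S => w S - 1 with hG
    have hGc : Continuous G := hwc.sub continuous_const
    set B : ℝ := k * Real.exp A with hB
    have hB0 : 0 ≤ B := by positivity
    have hGB : ∀ S, |G S| ≤ B := by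
      intro S
      have e1 := exp_bound (ve k e₀ S)
      have e2 := abs_ve hk0 e₀ S
      refine e1.trans ?_
      rw [hB]
      exact mul_le_mul e2 (Real.exp_le_exp.2 (e2.trans hkA)) (Real.exp_pos _).le hk0
    have hwl : ∀ S, Real.exp (-A) ≤ w S := by
      intro S
      have e2 := (abs_le.1 (abs_ve hk0 e₀ S)).1
      exact Real.exp_le_exp.2 (by linarith)
    have hwu : ∀ S, |w S| ≤ Real.exp A := by
      intro S
      have e2 := (abs_le.1 (abs_ve hk0 e₀ S)).2
      rw [abs_of_pos (Real.exp_pos _)]
      exact Real.exp_le_exp.2 (by linarith)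
    have hloc : ∀ S S' : Conf N L, (∀ x, x ∉ ball p r → S x = S' x) → G S = G S' := by
      intro S S' hSS
      simp only [hG, hw, ve]
      rw [hSS _ h1, hSS _ h2]
    -- the influence bounds
    have i1 := gH_influence hN hH' hsub η hFc hGc.measurable B hGB hloc m hinf
    have i2 := gH_influence hN hH' hsub η hFc (G := fun _ => (1 : ℝ)) measurable_const 1
      (fun _ => by simp) (fun _ _ _ => rfl) m hinf
    have i3 : gH H' (ball p R) η (fun S => |G S|) ≤ B := by
      have := gH_mono hN hH' (ball p R) η (F := fun S => |G S|) (G := fun _ => B)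
        hGc.abs.measurable measurable_const B (fun S => by rw [abs_abs]; exact hGB S)
        (fun _ => by rw [abs_of_nonneg hB0]) hGB
      rwa [gH_const hN hH'] at this
    have i4 : |gH H' (ball p R) η F| ≤ m := by
      simp only [one_mul, abs_one] at i2
      rwa [gH_const hN hH', mul_one] at i2
    have i5 : |gH H' (ball p R) η G| ≤ B := by
      have u1 := gH_mono hN hH' (ball p R) η (F := G) (G := fun _ => B)
        hGc.measurable measurable_const B hGB
        (fun _ => by rw [abs_of_nonneg hB0]) (fun S => (abs_le.1 (hGB S)).2)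
      have u2 := gH_mono hN hH' (ball p R) η (F := fun _ => -B) (G := G)
        measurable_const hGc.measurable B (fun _ => by rw [abs_neg, abs_of_nonneg hB0]) hGB
        (fun S => (abs_le.1 (hGB S)).1)
      rw [gH_const hN hH'] at u1 u2
      exact abs_le.2 ⟨u2, u1⟩
    have i6 : Real.exp (-A) ≤ gH H' (ball p R) η w := by
      have u2 := gH_mono hN hH' (ball p R) η (F := fun _ => Real.exp (-A)) (G := w)
        measurable_const hwc.measurable (Real.exp A + Real.exp (-A))
        (fun _ => by
          rw [abs_of_pos (Real.exp_pos _)]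
          linarith [Real.exp_pos A])
        (fun S => (hwu S).trans (by linarith [Real.exp_pos (-A)])) hwl
      rwa [gH_const hN hH'] at u2
    have i7 : gH H' (ball p R) η w = gH H' (ball p R) η G + 1 := by
      have := gH_add hN hH' (ball p R) η (F := G) (G := fun _ => (1 : ℝ)) hGc.measurable
        measurable_const (B + 1) (fun S => (hGB S).trans (by linarith))
        (fun _ => by rw [abs_one]; linarith)
      rw [gH_const hN hH'] at this
      rw [← this]
      congr 1
      funext S
      simp only [hG]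
      ring
    have hGFc : Continuous (fun S => G S * F S) := hGc.mul hFc
    have i8 : gH H' (ball p R) η (fun S => w S * F S) =
        gH H' (ball p R) η (fun S => G S * F S) + gH H' (ball p R) η F := by
      have := gH_add hN hH' (ball p R) η (F := fun S => G S * F S) (G := F) hGFc.measurable
        hFc.measurable (B + 1) (fun S => by
          rw [abs_mul]
          have := mul_le_mul (hGB S) (hF1 S) (abs_nonneg _) hB0
          linarith)
        (fun S => (hF1 S).trans (by linarith))
      rw [← this]
      congr 1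
      funext S
      simp only [hG]
      ring
    have hwpos : 0 < gH H' (ball p R) η w := lt_of_lt_of_le (Real.exp_pos _) i6
    have i9 : gH (pS c) (ball p R) η F = gH H' (ball p R) η (fun S => w S * F S) /
        gH H' (ball p R) η w := gH_tilt hN hH' (fun S => pS_del c e₀ S) (ball p R) η F
    have i10 : gH (pS c) (ball p R) η F - gH H' (ball p R) η F =
        (gH H' (ball p R) η (fun S => G S * F S) -
          gH H' (ball p R) η F * gH H' (ball p R) η G) / gH H' (ball p R) η w := by
      rw [i9, i8, eq_div_iff hwpos.ne', sub_mul, div_mul_cancel₀ _ hwpos.ne']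
      rw [i7]
      ring
    rw [i10, abs_div, abs_of_pos hwpos, div_le_iff₀ hwpos]
    have j1 : |gH H' (ball p R) η (fun S => G S * F S)| ≤ m * B :=
      i1.trans (mul_le_mul_of_nonneg_left i3 hm)
    have j2 : |gH H' (ball p R) η F * gH H' (ball p R) η G| ≤ m * B := by
      rw [abs_mul]
      exact mul_le_mul i4 i5 (abs_nonneg _) hm
    have j3 : |gH H' (ball p R) η (fun S => G S * F S) -
        gH H' (ball p R) η F * gH H' (ball p R) η G| ≤ 2 * (m * B) := by
      refine (abs_sub _ _).trans ?_
      linarith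
    refine j3.trans ?_
    have j4 : 2 * (m * B) = 2 * Real.exp (2 * A) * k * m * Real.exp (-A) := by
      have : Real.exp (2 * A) * Real.exp (-A) = Real.exp A := by
        rw [← Real.exp_add]; congr 1; ring
      rw [hB, ← this]
      ring
    rw [j4]
    exact mul_le_mul_of_nonneg_left i6 (by positivity)
  · rw [if_neg hcase]
    rw [not_or] at hcase
    have key := gH_compare hN hH hH' (ball p R) η
      (k * inner ℝ (η e₀.1 : EuclideanSpace ℝ (Fin N)) (η e₀.2)) 0 (fun S => by
        rw [pS_del c e₀]
        unfold ve splice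
        rw [if_neg hcase.1, if_neg hcase.2]
        apply le_of_eq
        rw [abs_eq_zero]
        simp only [← hk, ← hH'def]
        ring) hFc.measurable hF1
    rwa [mul_zero, Real.exp_zero, sub_self] at key

end Pool.Agent.H671.PL
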