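import Pool.Agent.H992.PL.Model2

/-! # Pointwise bounds for the periodised coupling; infinite volume limits -/

set_option autoImplicit false

noncomputable section

namespace Pool.Agent.H992.PL

open MeasureTheory MvPolynomial Filter Pool.Agent.H5R2.ON Pool.Agent.H717R2.ON3
  Pool.Agent.H983R2.ONJ Pool.Agent.H894.PL

/-! ## Power laws -/

theorem summable_pow_int (s : ℝ) (hs : 1 < s) :
    Summable fun k : ℤ => (1 + |(k : ℝ)|) ^ (-s) := by
  have h : Summable fun n : ℕ => (1 + (n : ℝ)) ^ (-s) := by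
    have h1 : Summable fun n : ℕ => ((n : ℝ)) ^ (-s) := Real.summable_nat_rpow.2 (by linarith)
    have h2 := (summable_nat_add_iff 1).2 h1
    refine h2.congr fun n => ?_
    push_cast
    rw [add_comm]
  refine Summable.of_nat_of_neg ?_ ?_
  · refine h.congr fun n => ?_
    simp
  · refine h.congr fun n => ?_
    simp

theorem abs_fst_le (k : ℤ × ℤ) : |(k.1 : ℝ)| ≤ znorm k := by
  unfold znorm
  rw [← Real.sqrt_sq_eq_abs]
  exact Real.sqrt_le_sqrt (by nlinarith [sq_nonneg (k.2 : ℝ)])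

theorem abs_snd_le (k : ℤ × ℤ) : |(k.2 : ℝ)| ≤ znorm k := by
  unfold znorm
  rw [← Real.sqrt_sq_eq_abs]
  exact Real.sqrt_le_sqrt (by nlinarith [sq_nonneg (k.1 : ℝ)])

theorem summable_pow_znorm (s : ℝ) (hs : 2 < s) :
    Summable fun k : ℤ × ℤ => (1 + znorm k) ^ (-s) := by
  have h := summable_pow_int (s / 2) (by linarith)
  have h2 := h.mul_of_nonneg h (fun k => by positivity) (fun k => by positivity)
  refine Summable.of_nonneg_of_le (fun k => ?_) (fun k => ?_) h2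
  · have := znorm_nonneg k
    positivity
  · have h3 := abs_fst_le k
    have h4 := abs_snd_le k
    have h5 := znorm_nonneg k
    have e : (1 + znorm k) ^ (-s) = (1 + znorm k) ^ (-(s / 2)) * (1 + znorm k) ^ (-(s / 2)) := by
      rw [← Real.rpow_add (by linarith)]
      congr 1
      ring
    rw [e]
    have h6 : (1 + znorm k) ^ (-(s / 2)) ≤ (1 + |(k.1 : ℝ)|) ^ (-(s / 2)) :=
      Real.rpow_le_rpow_of_nonpos (by positivity) (by linarith) (by linarith)
    have h7 : (1 + znorm k) ^ (-(s / 2)) ≤ (1 + |(k.2 : ℝ)|) ^ (-(s / 2)) :=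
      Real.rpow_le_rpow_of_nonpos (by positivity) (by linarith) (by linarith)
    exact mul_le_mul h6 h7 (by positivity) (by positivity)

theorem shift_ge' {L : ℕ} [NeZero L] (x : ZMod L) (k : ℤ) :
    (1 / 2 : ℝ) * (L * |(k : ℝ)|) ≤ |((x.valMinAbs + L * k : ℤ) : ℝ)| := by
  have hL : (1 : ℝ) ≤ L := by
    have := Nat.pos_of_ne_zero (NeZero.ne L)
    exact_mod_cast this
  have h := x.valMinAbs_mem_Ioc
  have h1 : ((-(L : ℤ) : ℤ) : ℝ) < ((x.valMinAbs * 2 : ℤ) : ℝ) := by exact_mod_cast h.1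
  have h2 : ((x.valMinAbs * 2 : ℤ) : ℝ) ≤ ((L : ℤ) : ℝ) := by exact_mod_cast h.2
  push_cast at h1 h2 ⊢
  set v : ℝ := (x.valMinAbs : ℝ)
  have hv : |v| ≤ L / 2 := by
    rw [abs_le]; constructor <;> linarith
  by_cases hk : k = 0
  · subst hk
    simp
  · have hk1 : (1 : ℝ) ≤ |(k : ℝ)| := by
      have : 1 ≤ |k| := Int.one_le_abs hk
      exact_mod_cast this
    have h3 : (L : ℝ) * |(k : ℝ)| - |v| ≤ |v + L * k| := by
      have h4 : |(L : ℝ) * k| = L * |(k : ℝ)| := by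
        rw [abs_mul, abs_of_nonneg (by linarith)]
      have h5 := abs_sub_abs_le_abs_sub ((L : ℝ) * k) (-v)
      rw [abs_neg, h4, sub_neg_eq_add, add_comm ((L : ℝ) * k) v] at h5
      exact h5
    nlinarith

theorem znorm_shift' {L : ℕ} [NeZero L] (x : Tor L) (k : ℤ × ℤ) :
    (1 / 2 : ℝ) * (L * znorm k) ≤ znorm (x.1.valMinAbs + L * k.1, x.2.valMinAbs + L * k.2) := by
  have h1 := shift_ge' x.1 k.1
  have h2 := shift_ge' x.2 k.2
  have hL : (0 : ℝ) ≤ L := Nat.cast_nonneg L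
  have : (1 / 2 : ℝ) * (L * znorm k) =
      Real.sqrt ((1 / 2 * (L * |(k.1 : ℝ)|)) ^ 2 + (1 / 2 * (L * |(k.2 : ℝ)|)) ^ 2) := by
    unfold znorm
    rw [show (1 / 2 * (L * |(k.1 : ℝ)|)) ^ 2 + (1 / 2 * (L * |(k.2 : ℝ)|)) ^ 2
      = (1 / 2 * L) ^ 2 * ((k.1 : ℝ) ^ 2 + (k.2 : ℝ) ^ 2) by
        rw [mul_pow, mul_pow, mul_pow, mul_pow, sq_abs, sq_abs]; ring]
    rw [Real.sqrt_mul (by positivity), Real.sqrt_sq (by positivity)]
    ring
  rw [this]
  unfold znorm
  apply Real.sqrt_le_sqrt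
  refine add_le_add ?_ ?_
  · rw [← sq_abs (((x.1.valMinAbs + L * k.1 : ℤ) : ℝ))]
    exact pow_le_pow_left₀ (by positivity) h1 2
  · rw [← sq_abs (((x.2.valMinAbs + L * k.2 : ℤ) : ℝ))]
    exact pow_le_pow_left₀ (by positivity) h2 2

/-- the periodised power law -/
theorem Jper_pow {J : ℤ × ℤ → ℝ} {A s : ℝ} (hs : 2 < s)
    (hJ : ∀ m, |J m| ≤ A * (1 + znorm m) ^ (-s)) : ∃ A' : ℝ, 0 ≤ A' ∧
      ∀ (L : ℕ) [NeZero L] (x : Tor L), Jper L J x ≤ A' * (1 + tnorm x) ^ (-s) := by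
  have hA : 0 ≤ A := by
    have h := (abs_nonneg _).trans (hJ 0)
    have h1 : 0 < (1 + znorm (0 : ℤ × ℤ)) ^ (-s) :=
      Real.rpow_pos_of_pos (by have := znorm_nonneg 0; linarith) _
    exact nonneg_of_mul_nonneg_left h h1
  have hsum := summable_pow_znorm s hs
  refine ⟨A * (8 ^ s * ∑' k : ℤ × ℤ, (1 + znorm k) ^ (-s)),
    mul_nonneg hA (mul_nonneg (by positivity) (tsum_nonneg fun k => ?_)), ?_⟩
  · have := znorm_nonneg k
    positivity
  intro L _ x
  have hL : (1 : ℝ) ≤ L := by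
    have := Nat.pos_of_ne_zero (NeZero.ne L)
    exact_mod_cast this
  have hx0 := tnorm_nonneg x
  have hxL : tnorm x ≤ L := AuxFin269.tnorm_le_L x
  -- the key geometric inequality
  have hkey : ∀ k : ℤ × ℤ, (1 / 8 : ℝ) * ((1 + tnorm x) * (1 + znorm k)) ≤
      1 + znorm (x.1.valMinAbs + L * k.1, x.2.valMinAbs + L * k.2) := by
    intro k
    have h1 := (znorm_shift x k).1
    have h2 := znorm_shift' x k
    have h3 := znorm_nonneg k
    by_cases hk : k = 0
    · subst hk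
      have h4 : znorm (0 : ℤ × ℤ) = 0 := by simp [znorm]
      rw [h4]
      linarith
    · have hk1 : 1 ≤ znorm k := by
        by_cases h5 : k.1 = 0
        · have h6 : k.2 ≠ 0 := fun h => hk (Prod.ext h5 h)
          have h7 : (1 : ℝ) ≤ |(k.2 : ℝ)| := by
            have : 1 ≤ |k.2| := Int.one_le_abs h6
            exact_mod_cast this
          exact h7.trans (abs_snd_le k)
        · have h7 : (1 : ℝ) ≤ |(k.1 : ℝ)| := by
            have : 1 ≤ |k.1| := Int.one_le_abs h5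
            exact_mod_cast this
          exact h7.trans (abs_fst_le k)
      have h8 : (1 + tnorm x) * (1 + znorm k) ≤ (2 * L) * (2 * znorm k) :=
        mul_le_mul (by linarith) (by linarith) (by linarith) (by linarith)
      nlinarith
  have hterm : ∀ k : ℤ × ℤ, |J (x.1.valMinAbs + L * k.1, x.2.valMinAbs + L * k.2)| ≤
      A * (8 ^ s * (1 + tnorm x) ^ (-s)) * (1 + znorm k) ^ (-s) := by
    intro k
    refine (hJ _).trans ?_
    have h1 := hkey k
    have h2 := znorm_nonneg k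
    have h3 : (1 + znorm (x.1.valMinAbs + L * k.1, x.2.valMinAbs + L * k.2)) ^ (-s) ≤
        ((1 / 8 : ℝ) * ((1 + tnorm x) * (1 + znorm k))) ^ (-s) :=
      Real.rpow_le_rpow_of_nonpos (by positivity) h1 (by linarith)
    have h4 : ((1 / 8 : ℝ) * ((1 + tnorm x) * (1 + znorm k))) ^ (-s) =
        8 ^ s * ((1 + tnorm x) ^ (-s) * (1 + znorm k) ^ (-s)) := by
      rw [Real.mul_rpow (by norm_num) (by positivity),
        Real.mul_rpow (by linarith) (by linarith)]
      congr 1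
      rw [one_div, Real.inv_rpow (by norm_num), Real.rpow_neg (by norm_num), inv_inv]
    calc A * (1 + znorm (x.1.valMinAbs + L * k.1, x.2.valMinAbs + L * k.2)) ^ (-s)
        ≤ A * (8 ^ s * ((1 + tnorm x) ^ (-s) * (1 + znorm k) ^ (-s))) := by
          rw [← h4]
          exact mul_le_mul_of_nonneg_left h3 hA
      _ = _ := by ring
  have h1 : Jper L J x ≤ ∑' k : ℤ × ℤ, A * (8 ^ s * (1 + tnorm x) ^ (-s)) *
      (1 + znorm k) ^ (-s) := by
    unfold Jper
    refine Summable.tsum_le_tsum (fun k => (le_abs_self _).trans (hterm k)) ?_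
      (hsum.mul_left _)
    refine Summable.of_norm_bounded (hsum.mul_left (A * (8 ^ s * (1 + tnorm x) ^ (-s))))
      fun k => ?_
    rw [Real.norm_eq_abs]
    exact hterm k
  refine h1.trans (le_of_eq ?_)
  rw [tsum_mul_left]
  ring

/-- the periodised coupling dominates the coupling -/
theorem Jper_ge {L : ℕ} [NeZero L] {J : ℤ × ℤ → ℝ} (hJ : ∀ m, m ≠ 0 → 0 ≤ J m)
    (hs : Summable fun m => |J m|) {x : Tor L} (hx : x ≠ 0) :
    J (x.1.valMinAbs, x.2.valMinAbs) ≤ Jper L J x := by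
  unfold Jper
  have hsum : Summable fun k : ℤ × ℤ => J (x.1.valMinAbs + L * k.1, x.2.valMinAbs + L * k.2) :=
    ((hs.comp_injective (pt_inj L)).comp_injective
      (fun a b h => (Prod.mk.inj h).2 : Function.Injective (fun k : ℤ × ℤ => (x, k)))).of_abs
  have hnn : ∀ k : ℤ × ℤ, 0 ≤ J (x.1.valMinAbs + L * k.1, x.2.valMinAbs + L * k.2) := by
    intro k
    refine hJ _ fun h => hx ?_
    rw [Prod.mk_eq_zero] at h
    have h1 : ((x.1.valMinAbs + L * k.1 : ℤ) : ZMod L) = 0 := by rw [h.1]; simp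
    have h2 : ((x.2.valMinAbs + L * k.2 : ℤ) : ZMod L) = 0 := by rw [h.2]; simp
    push_cast at h1 h2
    simp only [ZMod.coe_valMinAbs, CharP.cast_eq_zero, zero_mul, add_zero] at h1 h2
    exact Prod.ext h1 h2
  have h := hsum.le_tsum (0 : ℤ × ℤ) (fun k _ => hnn k)
  simpa using h

/-! ## Infinite volume limits -/

/-- eventually along a sequence of tori a given point of `ℤ²` is its own representative -/
theorem eventually_cast {l : ℕ → ℕ} (hl : Tendsto l atTop atTop) (x : ℤ × ℤ) :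
    ∀ᶠ n in atTop, |x.1| * 2 < ((l n + 1 : ℕ) : ℤ) ∧ |x.2| * 2 < ((l n + 1 : ℕ) : ℤ) := by
  filter_upwards [hl.eventually_ge_atTop (2 * (x.1.natAbs + x.2.natAbs))] with n hn
  have h1 : (|x.1| : ℤ) = x.1.natAbs := (Int.natCast_natAbs x.1).symm
  have h2 : (|x.2| : ℤ) = x.2.natAbs := (Int.natCast_natAbs x.2).symm
  rw [h1, h2]
  push_cast
  constructor <;> omega

theorem valMinAbs_cast {L : ℕ} [NeZero L] {c : ℤ} (hc : |c| * 2 < (L : ℤ)) :
    (c : ZMod L).valMinAbs = c := by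
  rw [ZMod.valMinAbs_spec]
  refine ⟨rfl, ?_, ?_⟩
  · have := neg_abs_le c
    linarith
  · have := le_abs_self c
    linarith

/-- pointwise bounds pass to the infinite volume limits -/
theorem lim_pt {N : ℕ} {J : ℤ × ℤ → ℝ} {β : ℝ} {w : ℝ → ℝ}
    (hC : ∀ (L : ℕ) [NeZero L] (x y : Tor L), |corr N L J β x y| ≤ w (tnorm (y - x)))
    {G : ℤ × ℤ → ℝ} (hG : IsLimitCorr N J β G) (x : ℤ × ℤ) : |G x| ≤ w (znorm x) := by
  obtain ⟨l, hl, hlim⟩ := hG
  refine le_of_tendsto (hlim x).abs ?_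
  filter_upwards [eventually_cast hl x] with n hn
  refine (hC (l n + 1) _ _).trans (le_of_eq ?_)
  rw [sub_zero, tnorm_cast x.1 x.2 hn.1 hn.2]
  rfl

/-- lower bounds pass to the infinite volume limits -/
theorem lim_low {N : ℕ} {J : ℤ × ℤ → ℝ} {β a : ℝ} (ha : 0 ≤ a) (hβ : 0 ≤ β)
    (hJ : ∀ m, m ≠ 0 → 0 ≤ J m) (hs : Summable fun m => |J m|)
    (h : ∀ (L : ℕ) [NeZero L] (x y : Tor L), x ≠ y →
      a * (cJ L J β (x, y) + cJ L J β (y, x)) ≤ corr N L J β x y)
    {G : ℤ × ℤ → ℝ} (hG : IsLimitCorr N J β G) {x : ℤ × ℤ} (hx : x ≠ 0) :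
    a * β * (J x + J (-x)) ≤ G x := by
  obtain ⟨l, hl, hlim⟩ := hG
  refine ge_of_tendsto (hlim x) ?_
  filter_upwards [eventually_cast hl x] with n hn
  set y : Tor (l n + 1) := ((x.1 : ZMod (l n + 1)), (x.2 : ZMod (l n + 1))) with hy
  have hv1 : y.1.valMinAbs = x.1 := valMinAbs_cast hn.1
  have hv2 : y.2.valMinAbs = x.2 := valMinAbs_cast hn.2
  have hn' : |(-x).1| * 2 < ((l n + 1 : ℕ) : ℤ) ∧ |(-x).2| * 2 < ((l n + 1 : ℕ) : ℤ) := by
    simpa using hn
  have hy' : -y = (((-x).1 : ZMod (l n + 1)), ((-x).2 : ZMod (l n + 1))) := by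
    rw [hy]
    ext <;> simp
  have hv1' : (-y).1.valMinAbs = (-x).1 := by rw [hy']; exact valMinAbs_cast hn'.1
  have hv2' : (-y).2.valMinAbs = (-x).2 := by rw [hy']; exact valMinAbs_cast hn'.2
  have hy0 : y ≠ 0 := by
    intro h0
    apply hx
    rw [h0] at hv1 hv2
    simp at hv1 hv2
    exact Prod.ext hv1.symm hv2.symm
  have h1 := Jper_ge hJ hs hy0
  have h2 := Jper_ge hJ hs (neg_ne_zero.2 hy0)
  rw [hv1, hv2] at h1
  rw [hv1', hv2'] at h2
  have h3 := h (l n + 1) 0 y (fun h0 => hy0 h0.symm)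
  refine le_trans ?_ h3
  have h4 : cJ (l n + 1) J β (0, y) = β * Jper (l n + 1) J (-y) := by
    unfold cJ
    rw [if_neg (show ¬ ((0 : Tor (l n + 1)), y).1 = ((0 : Tor (l n + 1)), y).2 from
      fun h0 => hy0 h0.symm)]
    simp
  have h5 : cJ (l n + 1) J β (y, 0) = β * Jper (l n + 1) J y := by
    unfold cJ
    rw [if_neg (show ¬ (y, (0 : Tor (l n + 1))).1 = (y, (0 : Tor (l n + 1))).2 from hy0)]
    simp
  rw [h4, h5, mul_assoc]
  apply mul_le_mul_of_nonneg_left _ ha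
  have h6 : J x ≤ Jper (l n + 1) J y := h1
  have h7 : J (-x) ≤ Jper (l n + 1) J (-y) := h2
  nlinarith

/-- infinite volume limits exist -/
theorem exists_limit {N : ℕ} {J : ℤ × ℤ → ℝ} {β : ℝ}
    (h : ∀ (L : ℕ) [NeZero L] (x y : Tor L), |corr N L J β x y| ≤ 1) :
    ∃ G : ℤ × ℤ → ℝ, IsLimitCorr N J β G := by
  have hK : IsCompact (Set.univ.pi fun _ : ℤ × ℤ => Set.Icc (-1 : ℝ) 1) :=
    isCompact_univ_pi fun _ => isCompact_Icc
  obtain ⟨G, -, φ, hφ, hlim⟩ := hK.tendsto_subseq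
    (x := fun (n : ℕ) (x : ℤ × ℤ) =>
      corr N (n + 1) J β 0 ((x.1 : ZMod (n + 1)), (x.2 : ZMod (n + 1))))
    (fun n x _ => abs_le.1 (h (n + 1) _ _))
  refine ⟨G, φ, hφ.tendsto_atTop, fun x => ?_⟩
  exact (tendsto_pi_nhds.1 hlim) x

end Pool.Agent.H992.PL
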