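import Pool.Agent.H992.PL.Defs2
import Pool.Graph.R_seed8.H269R2.ONJ.Exit

/-!
# Project PL (helper992): the two point function dominates the coupling (helper120)
-/

set_option autoImplicit false

noncomputable section

namespace Pool.Agent.H120.PL

open MeasureTheory Pool.Agent.H5R2.ON Pool.Agent.H717R2.ON3 Pool.Agent.H983R2.ONJ
  Pool.Agent.H983R2.ONJ.Aux269 Pool.Agent.H992.PL

lemma key_ineq {g s : ℝ} (hg : 0 ≤ g) (hs : |s| ≤ 1) :
    s + g * Real.exp (-g) * s ^ 2 ≤ s * Real.exp (g * s) := by
  obtain ⟨h1, h2⟩ := abs_le.1 hs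
  rcases le_or_gt 0 s with h | h
  · have h3 := Real.add_one_le_exp (g * s)
    have h4 : Real.exp (-g) ≤ 1 := Real.exp_le_one_iff.2 (by linarith)
    have h5 : g * Real.exp (-g) * s ^ 2 ≤ g * s ^ 2 := by
      have : 0 ≤ g * s ^ 2 := by positivity
      calc g * Real.exp (-g) * s ^ 2 = (g * s ^ 2) * Real.exp (-g) := by ring
        _ ≤ (g * s ^ 2) * 1 := mul_le_mul_of_nonneg_left h4 this
        _ = g * s ^ 2 := mul_one _
    have h6 : s * (g * s + 1) ≤ s * Real.exp (g * s) := mul_le_mul_of_nonneg_left h3 h
    nlinarith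
  · have h3 := Real.add_one_le_exp (-(g * s))
    have h4 : (-(g * s) + 1) * Real.exp (g * s) ≤ 1 := by
      have h5 := mul_le_mul_of_nonneg_right h3 (Real.exp_pos (g * s)).le
      rwa [← Real.exp_add, neg_add_cancel, Real.exp_zero] at h5
    have h5 : Real.exp (-g) ≤ Real.exp (g * s) := Real.exp_le_exp.2 (by nlinarith)
    have h6 : g * Real.exp (-g) * s ^ 2 ≤ g * Real.exp (g * s) * s ^ 2 := by
      gcongr
    have h7 : s * 1 ≤ s * ((-(g * s) + 1) * Real.exp (g * s)) := mul_le_mul_of_nonpos_left h4 h.le
    nlinarith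

/-- isometries act on the sphere -/
def sphE {N : ℕ} (f : EuclideanSpace ℝ (Fin N) ≃ₗᵢ[ℝ] EuclideanSpace ℝ (Fin N)) :
    Sph N ≃ₜ Sph N where
  toFun s := ⟨f s, by simp⟩
  invFun s := ⟨f.symm s, by simp⟩
  left_inv s := by ext1; simp
  right_inv s := by ext1; simp
  continuous_toFun := by fun_prop
  continuous_invFun := by fun_prop

lemma sphE_coe {N : ℕ} (f : EuclideanSpace ℝ (Fin N) ≃ₗᵢ[ℝ] EuclideanSpace ℝ (Fin N))
    (s : Sph N) : (sphE f s : EuclideanSpace ℝ (Fin N)) = f s := rfl

open Classical in
/-- rotation of the spin at the site `x` -/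
lemma rot_site {N L : ℕ} [NeZero L] (x : Tor L)
    (f : EuclideanSpace ℝ (Fin N) ≃ₗᵢ[ℝ] EuclideanSpace ℝ (Fin N)) (F : Conf N L → ℝ) :
    ∫ S : Conf N L, F (fun z => if z = x then sphE f (S z) else S z) ∂(prior N L) =
      ∫ S : Conf N L, F S ∂(prior N L) := by
  have h := integral_prior_rot N L
    (fun z => if z = x then f else LinearIsometryEquiv.refl ℝ _)
    (fun z => if z = x then sphE f else Homeomorph.refl _) (fun z s => by
      by_cases hz : z = x
      · simp only [if_pos hz]; rfl
      · simp only [if_neg hz]; rfl) F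
  rw [← h]
  congr 1
  funext S
  congr 1
  funext z
  by_cases hz : z = x
  · simp only [if_pos hz]
  · simp only [if_neg hz]; rfl

/-- functions which do not depend on the spin at `x` -/
def Ind {N L : ℕ} (x : Tor L) (G : Conf N L → ℝ) : Prop :=
  ∀ S S' : Conf N L, (∀ z, z ≠ x → S z = S' z) → G S = G S'

lemma inner_eq {N : ℕ} (u v : Sph N) :
    inner ℝ (u : EuclideanSpace ℝ (Fin N)) (v : EuclideanSpace ℝ (Fin N)) =
      ∑ i, cc i u * cc i v := by
  rw [PiLp.inner_apply]
  refine Finset.sum_congr rfl fun j _ => ?_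
  simp only [RCLike.inner_apply, conj_trivial, cc]
  ring

lemma sum_cc_sq {N : ℕ} (u : Sph N) : ∑ i, cc i u * cc i u = 1 := by
  rw [← inner_eq, real_inner_self_eq_norm_sq]
  have : ‖(u : EuclideanSpace ℝ (Fin N))‖ = 1 := by simp
  rw [this, one_pow]

section site

variable {N L : ℕ} [NeZero L] {x : Tor L} {G : Conf N L → ℝ}

lemma orth (hG : Ind x G) {i j : Fin N} (hij : i ≠ j) :
    ∫ S : Conf N L, cc i (S x) * cc j (S x) * G S ∂(prior N L) = 0 := by
  classical
  have h := rot_site (N := N) (L := L) x (refE i) (fun S => cc i (S x) * cc j (S x) * G S)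
  have h2 : ∀ S : Conf N L,
      cc i ((fun z => if z = x then sphE (refE i) (S z) else S z : Conf N L) x) *
        cc j ((fun z => if z = x then sphE (refE i) (S z) else S z : Conf N L) x) *
          G (fun z => if z = x then sphE (refE i) (S z) else S z) =
      -(cc i (S x) * cc j (S x) * G S) := by
    intro S
    have e1 : G (fun z => if z = x then sphE (refE i) (S z) else S z) = G S :=
      hG _ _ fun z hz => if_neg hz
    have e2 : cc i (sphE (refE i) (S x)) = -cc i (S x) := by
      have := refE_apply i (S x : EuclideanSpace ℝ (Fin N)) i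
      rw [if_pos rfl] at this
      exact this
    have e3 : cc j (sphE (refE i) (S x)) = cc j (S x) := by
      have := refE_apply i (S x : EuclideanSpace ℝ (Fin N)) j
      rw [if_neg (Ne.symm hij)] at this
      exact this
    simp only [if_pos]
    rw [e1, e2, e3]
    ring
  rw [integral_congr_ae (Filter.Eventually.of_forall h2), integral_neg] at h
  linarith

lemma equi (hG : Ind x G) (i j : Fin N) :
    ∫ S : Conf N L, cc i (S x) * cc i (S x) * G S ∂(prior N L) =
      ∫ S : Conf N L, cc j (S x) * cc j (S x) * G S ∂(prior N L) := by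
  classical
  have h := rot_site (N := N) (L := L) x
    (LinearIsometryEquiv.piLpCongrLeft 2 ℝ ℝ (Equiv.swap i j))
    (fun S => cc j (S x) * cc j (S x) * G S)
  rw [← h]
  refine integral_congr_ae (Filter.Eventually.of_forall fun S => ?_)
  have e1 : G (fun z => if z = x then
      sphE (LinearIsometryEquiv.piLpCongrLeft 2 ℝ ℝ (Equiv.swap i j)) (S z) else S z) = G S :=
    hG _ _ fun z hz => if_neg hz
  have e2 : cc j (sphE (LinearIsometryEquiv.piLpCongrLeft 2 ℝ ℝ (Equiv.swap i j)) (S x)) =
      cc i (S x) := by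
    unfold cc
    rw [sphE_coe]
    rw [LinearIsometryEquiv.piLpCongrLeft_apply]
    simp
  simp only [if_pos]
  rw [e1, e2]

lemma mean_sq (hG : Ind x G) (hGc : Continuous G) (i : Fin N) :
    (N : ℝ) * ∫ S : Conf N L, cc i (S x) * cc i (S x) * G S ∂(prior N L) =
      ∫ S : Conf N L, G S ∂(prior N L) := by
  have hint : ∀ j : Fin N, Integrable (fun S : Conf N L => cc j (S x) * cc j (S x) * G S)
      (prior N L) := fun j => integrable_prior N L
    ((((continuous_cc j).comp (continuous_apply x)).mul
      ((continuous_cc j).comp (continuous_apply x))).mul hGc)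
  have h1 : ∑ j : Fin N, ∫ S : Conf N L, cc j (S x) * cc j (S x) * G S ∂(prior N L) =
      ∫ S : Conf N L, G S ∂(prior N L) := by
    rw [← integral_finsetSum _ fun j _ => hint j]
    refine integral_congr_ae (Filter.Eventually.of_forall fun S => ?_)
    simp only
    rw [← Finset.sum_mul, sum_cc_sq, one_mul]
  rw [← h1, Finset.sum_congr rfl fun j _ => equi hG j i, Finset.sum_const, Finset.card_univ,
    Fintype.card_fin, nsmul_eq_mul]

/-- the mean of the square of the scalar product -/
lemma inner_sq (hG : Ind x G) (hGc : Continuous G) {y : Tor L} (hxy : y ≠ x) :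
    (N : ℝ) * ∫ S : Conf N L, (inner ℝ (S x : EuclideanSpace ℝ (Fin N)) (S y)) ^ 2 * G S
      ∂(prior N L) = ∫ S : Conf N L, G S ∂(prior N L) := by
  have hcy : ∀ j : Fin N, Continuous fun S : Conf N L => cc j (S y) := fun j =>
    (continuous_cc j).comp (continuous_apply y)
  have hcx : ∀ j : Fin N, Continuous fun S : Conf N L => cc j (S x) := fun j =>
    (continuous_cc j).comp (continuous_apply x)
  -- the functions at `y`
  have hIy : ∀ i j : Fin N, Ind x (fun S : Conf N L => cc i (S y) * cc j (S y) * G S) := by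
    intro i j S S' h
    simp only
    rw [h y hxy, hG S S' h]
  have hcont : ∀ i j : Fin N, Continuous (fun S : Conf N L => cc i (S y) * cc j (S y) * G S) :=
    fun i j => ((hcy i).mul (hcy j)).mul hGc
  have e : ∀ S : Conf N L, (inner ℝ (S x : EuclideanSpace ℝ (Fin N)) (S y)) ^ 2 * G S =
      ∑ i : Fin N, ∑ j : Fin N, cc i (S x) * cc j (S x) * (cc i (S y) * cc j (S y) * G S) := by
    intro S
    rw [inner_eq, sq, Finset.sum_mul_sum, Finset.sum_mul]
    refine Finset.sum_congr rfl fun i _ => ?_
    rw [Finset.sum_mul]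
    refine Finset.sum_congr rfl fun j _ => ?_
    ring
  have hint : ∀ i j : Fin N, Integrable (fun S : Conf N L =>
      cc i (S x) * cc j (S x) * (cc i (S y) * cc j (S y) * G S)) (prior N L) := fun i j =>
    integrable_prior N L (((hcx i).mul (hcx j)).mul (hcont i j))
  rw [integral_congr_ae (Filter.Eventually.of_forall e),
    integral_finsetSum _ fun i _ => integrable_finsetSum _ fun j _ => hint i j]
  have h1 : ∀ i : Fin N, ∫ S : Conf N L, ∑ j : Fin N, cc i (S x) * cc j (S x) *
      (cc i (S y) * cc j (S y) * G S) ∂(prior N L) =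
      ∫ S : Conf N L, cc i (S x) * cc i (S x) * (cc i (S y) * cc i (S y) * G S)
        ∂(prior N L) := by
    intro i
    rw [integral_finsetSum _ fun j _ => hint i j]
    refine Finset.sum_eq_single i (fun j _ hj => orth (hIy i j) (Ne.symm hj)) (fun h => ?_)
    exact absurd (Finset.mem_univ _) h
  rw [Finset.sum_congr rfl fun i _ => h1 i, Finset.mul_sum,
    Finset.sum_congr rfl fun i _ => mean_sq (hIy i i) (hcont i i) i,
    ← integral_finsetSum _ fun i _ => integrable_prior N L (hcont i i)]
  refine integral_congr_ae (Filter.Eventually.of_forall fun S => ?_)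
  simp only
  rw [← Finset.sum_mul, sum_cc_sq, one_mul]

end site

lemma abs_inner_le {N : ℕ} (u v : Sph N) :
    |inner ℝ (u : EuclideanSpace ℝ (Fin N)) (v : EuclideanSpace ℝ (Fin N))| ≤ 1 := by
  have h := abs_real_inner_le_norm (u : EuclideanSpace ℝ (Fin N)) v
  have h1 : ‖(u : EuclideanSpace ℝ (Fin N))‖ = 1 := by simp
  have h2 : ‖(v : EuclideanSpace ℝ (Fin N))‖ = 1 := by simp
  rwa [h1, h2, mul_one] at h

open Classical in
theorem low : S_Low := by
  intro N hN A hA
  have hN0 : (0 : ℝ) < N := by exact_mod_cast Nat.pos_of_ne_zero hN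
  refine ⟨Real.exp (-(4 * A)) / N, by positivity, ?_⟩
  intro L _ c hc hcA x y hxy
  set g : ℝ := c (x, y) + c (y, x) with hg
  have hg0 : 0 ≤ g := add_nonneg (hc _) (hc _)
  have hgA : g ≤ A := by
    refine le_trans ?_ (hcA x)
    exact Finset.single_le_sum (f := fun y => c (x, y) + c (y, x))
      (fun z _ => add_nonneg (hc _) (hc _)) (Finset.mem_univ y)
  set s : Conf N L → ℝ := fun S => inner ℝ (S x : EuclideanSpace ℝ (Fin N)) (S y) with hs
  have hsc : Continuous s := Continuous.inner (continuous_subtype_val.comp (continuous_apply x))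
    (continuous_subtype_val.comp (continuous_apply y))
  have hs1 : ∀ S, |s S| ≤ 1 := fun S => abs_inner_le _ _
  set c1 : Tor L × Tor L → ℝ := fun e => if e = (x, y) ∨ e = (y, x) then 0 else c e with hc1
  set c2 : Tor L × Tor L → ℝ := fun e => if e.1 = x ∨ e.2 = x then 0 else c e with hc2
  have hc10 : ∀ e, 0 ≤ c1 e := by
    intro e
    simp only [hc1]
    split_ifs
    · exact le_refl _
    · exact hc e
  have hne : ((x, y) : Tor L × Tor L) ≠ (y, x) := by
    intro h
    exact hxy (Prod.mk.inj h).1
  -- the decomposition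
  have F1 : ∀ S : Conf N L, pS c S = pS c1 S + g * s S := by
    intro S
    have e1 : ∀ e : Tor L × Tor L, c e * inner ℝ (S e.1 : EuclideanSpace ℝ (Fin N)) (S e.2) =
        c1 e * inner ℝ (S e.1 : EuclideanSpace ℝ (Fin N)) (S e.2) +
          ((if e = (x, y) then c (x, y) * s S else 0) +
            (if e = (y, x) then c (y, x) * s S else 0)) := by
      intro e
      simp only [hc1]
      by_cases h1 : e = (x, y)
      · subst h1
        rw [if_pos (Or.inl rfl), if_pos rfl, if_neg hne]
        simp only [hs]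
        ring
      · by_cases h2 : e = (y, x)
        · subst h2
          rw [if_pos (Or.inr rfl), if_neg hne.symm, if_pos rfl]
          simp only [hs]
          rw [real_inner_comm]
          ring
        · rw [if_neg (by tauto), if_neg h1, if_neg h2]
          ring
    unfold pS
    rw [Finset.sum_congr rfl fun e _ => e1 e, Finset.sum_add_distrib, Finset.sum_add_distrib,
      Finset.sum_ite_eq' Finset.univ, Finset.sum_ite_eq' Finset.univ,
      if_pos (Finset.mem_univ _), if_pos (Finset.mem_univ _), hg]
    ring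
  -- the local field
  have F2 : ∀ S : Conf N L, |pS c1 S - pS c2 S| ≤ A := by
    intro S
    unfold pS
    rw [← Finset.sum_sub_distrib]
    refine (Finset.abs_sum_le_sum_abs _ _).trans ?_
    have e1 : ∀ e : Tor L × Tor L, |c1 e * inner ℝ (S e.1 : EuclideanSpace ℝ (Fin N)) (S e.2) -
        c2 e * inner ℝ (S e.1 : EuclideanSpace ℝ (Fin N)) (S e.2)| ≤
        (if e.1 = x then c e else 0) + (if e.2 = x then c e else 0) := by
      intro e
      rw [← sub_mul, abs_mul]
      have h1 := abs_inner_le (S e.1) (S e.2)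
      have h2 : |c1 e - c2 e| ≤ (if e.1 = x then c e else 0) + (if e.2 = x then c e else 0) := by
        have h3 := hc e
        simp only [hc1, hc2]
        by_cases a1 : e.1 = x
        · rw [if_pos (Or.inl a1 : e.1 = x ∨ e.2 = x), if_pos a1, sub_zero]
          split_ifs <;> (try simp only [abs_zero]) <;> (try rw [abs_of_nonneg h3]) <;> linarith
        · by_cases a2 : e.2 = x
          · rw [if_pos (Or.inr a2 : e.1 = x ∨ e.2 = x), if_neg a1, if_pos a2, sub_zero]
            split_ifs <;> (try simp only [abs_zero]) <;> (try rw [abs_of_nonneg h3]) <;> linarith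
          · have a3 : ¬ (e = (x, y) ∨ e = (y, x)) := by
              rintro (h | h)
              · exact a1 (by rw [h])
              · exact a2 (by rw [h])
            rw [if_neg a3, if_neg (by tauto : ¬ (e.1 = x ∨ e.2 = x)), if_neg a1, if_neg a2,
              sub_self, abs_zero, add_zero]
      calc |c1 e - c2 e| * |inner ℝ (S e.1 : EuclideanSpace ℝ (Fin N)) (S e.2)| ≤
          |c1 e - c2 e| * 1 := mul_le_mul_of_nonneg_left h1 (abs_nonneg _)
        _ ≤ _ := by rw [mul_one]; exact h2
    refine (Finset.sum_le_sum fun e _ => e1 e).trans (le_trans (le_of_eq ?_) (hcA x))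
    have g1 : ∑ e : Tor L × Tor L, (if e.1 = x then c e else 0) = ∑ y, c (x, y) := by
      rw [Fintype.sum_prod_type, Finset.sum_eq_single x]
      · exact Finset.sum_congr rfl fun b _ => if_pos rfl
      · intro b _ hb
        exact Finset.sum_eq_zero fun b' _ => if_neg hb
      · intro h; exact absurd (Finset.mem_univ _) h
    have g2 : ∑ e : Tor L × Tor L, (if e.2 = x then c e else 0) = ∑ y, c (y, x) := by
      rw [Fintype.sum_prod_type_right, Finset.sum_eq_single x]
      · exact Finset.sum_congr rfl fun b _ => if_pos rfl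
      · intro b _ hb
        exact Finset.sum_eq_zero fun b' _ => if_neg hb
      · intro h; exact absurd (Finset.mem_univ _) h
    rw [Finset.sum_add_distrib, g1, g2, Finset.sum_add_distrib]
  have F3 : Ind x (fun S : Conf N L => Real.exp (pS c2 S)) := by
    intro S S' h
    simp only
    congr 1
    unfold pS
    refine Finset.sum_congr rfl fun e _ => ?_
    by_cases he : e.1 = x ∨ e.2 = x
    · simp only [hc2, if_pos he, zero_mul]
    · rw [not_or] at he
      rw [h _ he.1, h _ he.2]
  have k0 : Continuous fun S : Conf N L => Real.exp (pS c S) :=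
    Real.continuous_exp.comp (continuous_pS c)
  have k1 : Continuous fun S : Conf N L => Real.exp (pS c1 S) :=
    Real.continuous_exp.comp (continuous_pS c1)
  have k2 : Continuous fun S : Conf N L => Real.exp (pS c2 S) :=
    Real.continuous_exp.comp (continuous_pS c2)
  set Z2 : ℝ := ∫ S : Conf N L, Real.exp (pS c2 S) ∂(prior N L) with hZ2
  have hZ2pos : 0 < Z2 := Z_pos hN c2
  have hZpos : 0 < ∫ S : Conf N L, Real.exp (pS c S) ∂(prior N L) := Z_pos hN c
  -- the partition function
  have B1 : ∫ S : Conf N L, Real.exp (pS c S) ∂(prior N L) ≤ Real.exp (g + A) * Z2 := by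
    rw [hZ2, ← integral_const_mul]
    refine integral_mono (integrable_prior N L k0)
      (integrable_prior N L (continuous_const.mul k2)) fun S => ?_
    simp only
    rw [← Real.exp_add]
    apply Real.exp_le_exp.2
    have h1 := (abs_le.1 (F2 S)).2
    have h2 : g * s S ≤ g * 1 := mul_le_mul_of_nonneg_left (abs_le.1 (hs1 S)).2 hg0
    rw [F1 S]
    linarith
  -- the numerator
  have B2 : ∫ S : Conf N L, (s S + g * Real.exp (-g) * s S ^ 2) * Real.exp (pS c1 S)
      ∂(prior N L) ≤ ∫ S : Conf N L, s S * Real.exp (pS c S) ∂(prior N L) := by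
    refine integral_mono (integrable_prior N L ((hsc.add (continuous_const.mul (hsc.pow 2))).mul
      k1)) (integrable_prior N L (hsc.mul k0)) fun S => ?_
    simp only
    rw [F1 S, Real.exp_add, mul_comm (Real.exp (pS c1 S)), ← mul_assoc]
    exact mul_le_mul_of_nonneg_right (key_ineq hg0 (hs1 S)) (Real.exp_pos _).le
  have B3 : 0 ≤ ∫ S : Conf N L, s S * Real.exp (pS c1 S) ∂(prior N L) := by
    have hcx : ∀ j : Fin N, Continuous fun S : Conf N L => cc j (S x) := fun j =>
      (continuous_cc j).comp (continuous_apply x)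
    have hcy : ∀ j : Fin N, Continuous fun S : Conf N L => cc j (S y) := fun j =>
      (continuous_cc j).comp (continuous_apply y)
    have e : ∀ S : Conf N L, s S * Real.exp (pS c1 S) =
        ∑ i : Fin N, cc i (S x) * cc i (S y) * Real.exp (pS c1 S) := by
      intro S
      simp only [hs]
      rw [inner_eq, Finset.sum_mul]
    have hI : ∀ i : Fin N, Integrable (fun S : Conf N L =>
        cc i (S x) * cc i (S y) * Real.exp (pS c1 S)) (prior N L) := fun i =>
      integrable_prior N L (((hcx i).mul (hcy i)).mul k1)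
    rw [integral_congr_ae (Filter.Eventually.of_forall e), integral_finsetSum _ fun i _ => hI i]
    refine Finset.sum_nonneg fun i _ => ?_
    have h1 := corJ_nonneg hN hc10 i x y
    have h2 := Z_pos (L := L) hN c1
    unfold corJ at h1
    rw [le_div_iff₀ h2, zero_mul] at h1
    exact h1
  have B4 : Real.exp (-A) * (Z2 / N) ≤
      ∫ S : Conf N L, s S ^ 2 * Real.exp (pS c1 S) ∂(prior N L) := by
    have h1 : Z2 / N = ∫ S : Conf N L, s S ^ 2 * Real.exp (pS c2 S) ∂(prior N L) := by
      rw [div_eq_iff hN0.ne', mul_comm]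
      exact (inner_sq F3 k2 hxy.symm).symm
    rw [h1, ← integral_const_mul]
    refine integral_mono (integrable_prior N L (continuous_const.mul ((hsc.pow 2).mul k2)))
      (integrable_prior N L ((hsc.pow 2).mul k1)) fun S => ?_
    simp only
    have h2 := (abs_le.1 (F2 S)).1
    have h3 : Real.exp (-A) * Real.exp (pS c2 S) ≤ Real.exp (pS c1 S) := by
      rw [← Real.exp_add]
      apply Real.exp_le_exp.2
      linarith
    calc Real.exp (-A) * (s S ^ 2 * Real.exp (pS c2 S)) =
        s S ^ 2 * (Real.exp (-A) * Real.exp (pS c2 S)) := by ring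
      _ ≤ s S ^ 2 * Real.exp (pS c1 S) := mul_le_mul_of_nonneg_left h3 (sq_nonneg _)
  have B5 : ∫ S : Conf N L, (s S + g * Real.exp (-g) * s S ^ 2) * Real.exp (pS c1 S)
      ∂(prior N L) = ∫ S : Conf N L, s S * Real.exp (pS c1 S) ∂(prior N L) +
        g * Real.exp (-g) * ∫ S : Conf N L, s S ^ 2 * Real.exp (pS c1 S) ∂(prior N L) := by
    have i1 : Integrable (fun S : Conf N L => s S * Real.exp (pS c1 S)) (prior N L) :=
      integrable_prior N L (hsc.mul k1)
    have i2 : Integrable (fun S : Conf N L => g * Real.exp (-g) *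
        (s S ^ 2 * Real.exp (pS c1 S))) (prior N L) :=
      integrable_prior N L (continuous_const.mul ((hsc.pow 2).mul k1))
    rw [← integral_const_mul, ← integral_add i1 i2]
    refine integral_congr_ae (Filter.Eventually.of_forall fun S => ?_)
    simp only
    ring
  have B6 : g * Real.exp (-g) * (Real.exp (-A) * (Z2 / N)) ≤
      ∫ S : Conf N L, s S * Real.exp (pS c S) ∂(prior N L) := by
    have h1 : 0 ≤ g * Real.exp (-g) := mul_nonneg hg0 (Real.exp_pos _).le
    have h2 := mul_le_mul_of_nonneg_left B4 h1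
    linarith
  rw [le_div_iff₀ hZpos]
  refine le_trans ?_ B6
  have h1 : 0 ≤ Real.exp (-(4 * A)) / N * g := by positivity
  refine (mul_le_mul_of_nonneg_left B1 h1).trans ?_
  have h2 : Real.exp (-(4 * A)) * Real.exp (g + A) ≤ Real.exp (-g) * Real.exp (-A) := by
    rw [← Real.exp_add, ← Real.exp_add]
    apply Real.exp_le_exp.2
    linarith
  have h3 : 0 ≤ g * (Z2 / N) := by positivity
  calc Real.exp (-(4 * A)) / N * g * (Real.exp (g + A) * Z2) =
      (g * (Z2 / N)) * (Real.exp (-(4 * A)) * Real.exp (g + A)) := by ring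
    _ ≤ (g * (Z2 / N)) * (Real.exp (-g) * Real.exp (-A)) := mul_le_mul_of_nonneg_left h2 h3
    _ = g * Real.exp (-g) * (Real.exp (-A) * (Z2 / N)) := by ring

end Pool.Agent.H120.PL
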