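import Pool.Agent.H992.PL.Defs2

/-! # Task PLa of helper992: `S_Phi2` and `S_Main2` (helper591, after helper337's version) -/

set_option autoImplicit false

noncomputable section

namespace Pool.Agent.H591.PL

open MvPolynomial Pool.Agent.H5R2.ON Pool.Agent.H717R2.ON3 Pool.Agent.H983R2.ONJ
open Pool.Agent.H983R2.ONJ.Aux501 Pool.Agent.H992.PL

/-- the weight of a vertex in the shells between `2 ^ m` and `2 ^ M` -/
def wt2 {L : ℕ} (m M : ℕ) (a u : Tor L) : ℝ :=
  if 2 ^ m ≤ 1 + tnorm (u - a) ∧ 1 + tnorm (u - a) < 2 ^ M then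
    ((1 + tnorm (u - a)) ^ 2)⁻¹ else 0

theorem wt2_nonneg {L : ℕ} (m M : ℕ) (a u : Tor L) : 0 ≤ wt2 m M a u := by
  unfold wt2
  split_ifs <;> positivity

/-- the sum of the weights -/
theorem sum_wt2 : ∃ C : ℝ, 0 < C ∧ ∀ (L : ℕ) [NeZero L] (z : Tor L) (m M : ℕ),
    ∑ u : Tor L, wt2 m M z u ≤ C * ((M - m : ℕ) : ℝ) := by
  obtain ⟨K, hK, hcard⟩ := card_ball_le
  refine ⟨4 * K, by positivity, ?_⟩
  intro L _ z m M
  have pw : ∀ u : Tor L, wt2 m M z u ≤
        ∑ k ∈ Finset.Ico m M, if tnorm (u - z) ≤ 2 ^ (k + 1) - 1 then ((4 : ℝ) ^ k)⁻¹ else 0 := by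
    intro u
    have hnn : ∀ k : ℕ, (0 : ℝ) ≤ if tnorm (u - z) ≤ 2 ^ (k + 1) - 1 then ((4 : ℝ) ^ k)⁻¹ else 0 :=
      fun k => by split_ifs <;> positivity
    unfold wt2
    split_ifs with hu
    · obtain ⟨hu1, hu2⟩ := hu
      set t := tnorm (u - z) with ht
      have ht0 : 0 ≤ t := tnorm_nonneg _
      -- the dyadic scale
      obtain ⟨k, hk1, hk2⟩ : ∃ k : ℕ, (2 : ℝ) ^ k ≤ 1 + t ∧ 1 + t < 2 ^ (k + 1) :=
        exists_nat_pow_near (by linarith) (by norm_num)
      have hkM : k < M := by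
        by_contra h
        push Not at h
        have : (2 : ℝ) ^ M ≤ 2 ^ k := pow_le_pow_right₀ (by norm_num) h
        linarith
      have hmk : m ≤ k := by
        by_contra h
        push Not at h
        have : (2 : ℝ) ^ (k + 1) ≤ 2 ^ m := pow_le_pow_right₀ (by norm_num) h
        linarith
      have h1 : ((1 + t) ^ 2)⁻¹ ≤ ((4 : ℝ) ^ k)⁻¹ := by
        apply inv_anti₀ (by positivity)
        have : (4 : ℝ) ^ k = (2 ^ k) ^ 2 := by
          rw [← pow_mul, mul_comm, pow_mul]; norm_num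
        rw [this]
        exact pow_le_pow_left₀ (by positivity) hk1 2
      refine h1.trans ?_
      have h2 : ((4 : ℝ) ^ k)⁻¹ =
          (if t ≤ 2 ^ (k + 1) - 1 then ((4 : ℝ) ^ k)⁻¹ else 0) := by
        rw [if_pos (by linarith)]
      rw [h2]
      exact Finset.single_le_sum
        (f := fun j : ℕ => if t ≤ 2 ^ (j + 1) - 1 then ((4 : ℝ) ^ j)⁻¹ else 0)
        (fun j _ => hnn j) (Finset.mem_Ico.2 ⟨hmk, hkM⟩)
    · exact Finset.sum_nonneg fun k _ => hnn k
  refine (Finset.sum_le_sum fun u _ => pw u).trans ?_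
  rw [Finset.sum_comm]
  have hk : ∀ k ∈ Finset.Ico m M,
      ∑ u : Tor L, (if tnorm (u - z) ≤ 2 ^ (k + 1) - 1 then ((4 : ℝ) ^ k)⁻¹ else 0) ≤ 4 * K := by
    intro k _
    rw [← Finset.sum_filter, Finset.sum_const, nsmul_eq_mul]
    have h0 : (0 : ℝ) ≤ 2 ^ (k + 1) - 1 := by
      have : (1 : ℝ) ≤ 2 ^ (k + 1) := one_le_pow₀ (by norm_num)
      linarith
    have h := hcard L z (2 ^ (k + 1) - 1) h0
    have h4 : (1 + ((2 : ℝ) ^ (k + 1) - 1)) ^ 2 = 4 * 4 ^ k := by
      rw [add_sub_cancel, ← pow_mul, mul_comm (k + 1) 2, pow_mul]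
      norm_num
      ring
    rw [h4] at h
    calc ((Finset.univ.filter fun u : Tor L => tnorm (u - z) ≤ 2 ^ (k + 1) - 1).card : ℝ) *
          ((4 : ℝ) ^ k)⁻¹ ≤ (K * (4 * 4 ^ k)) * ((4 : ℝ) ^ k)⁻¹ :=
          mul_le_mul_of_nonneg_right h (by positivity)
      _ = 4 * K := by field_simp
  refine (Finset.sum_le_sum hk).trans ?_
  rw [Finset.sum_const, Nat.card_Ico, nsmul_eq_mul]
  linarith

/-- the cut-off between the radii `2 ^ (m + 1)` and `2 ^ M` -/
def phi2f {L : ℕ} (m M : ℕ) (a u : Tor L) : ℝ :=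
  min 1 (max 0 ((M * Real.log 2 - Real.log (1 + tnorm (u - a))) /
    (((M - (m + 1) : ℕ) : ℝ) * Real.log 2)))

theorem phi2f_one {L : ℕ} {m M : ℕ} (h : m + 1 < M) {a u : Tor L}
    (hu : 1 + tnorm (u - a) ≤ 2 ^ (m + 1)) : phi2f m M a u = 1 := by
  have hl : 0 < Real.log 2 := Real.log_pos (by norm_num)
  have hn : (0 : ℝ) < ((M - (m + 1) : ℕ) : ℝ) := by exact_mod_cast (by omega : 0 < M - (m + 1))
  have ht := tnorm_nonneg (u - a)
  unfold phi2f
  apply min_eq_left
  refine le_trans ?_ (le_max_right _ _)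
  rw [one_le_div (by positivity), Nat.cast_sub (by omega)]
  have h1 : Real.log (1 + tnorm (u - a)) ≤ ((m + 1 : ℕ) : ℝ) * Real.log 2 := by
    rw [← Real.log_pow]
    exact Real.log_le_log (by linarith) hu
  linarith

theorem phi2f_zero {L : ℕ} {m M : ℕ} {a u : Tor L}
    (hu : 2 ^ M ≤ 1 + tnorm (u - a)) : phi2f m M a u = 0 := by
  have hl : 0 < Real.log 2 := Real.log_pos (by norm_num)
  have ht := tnorm_nonneg (u - a)
  unfold phi2f
  have h1 : (M : ℝ) * Real.log 2 ≤ Real.log (1 + tnorm (u - a)) := by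
    rw [← Real.log_pow]
    exact Real.log_le_log (by positivity) hu
  have h2 : (M * Real.log 2 - Real.log (1 + tnorm (u - a))) /
      (((M - (m + 1) : ℕ) : ℝ) * Real.log 2) ≤ 0 :=
    div_nonpos_of_nonpos_of_nonneg (by linarith) (by positivity)
  rw [max_eq_left h2]
  norm_num

/-- one-sided estimate: `x` is nearer to `a` than `y` -/
theorem phi2f_diff_one {L : ℕ} [NeZero L] {m M : ℕ} (hM : m + 1 < M) (a x y : Tor L)
    (hxy : tnorm (y - x) ≤ 2 ^ m) (h : tnorm (x - a) ≤ tnorm (y - a)) :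
    (phi2f m M a x - phi2f m M a y) ^ 2 ≤
      tnorm (y - x) ^ 2 / (((M - (m + 1) : ℕ) : ℝ) * Real.log 2) ^ 2 * wt2 m M a x := by
  have hl : 0 < Real.log 2 := Real.log_pos (by norm_num)
  have hn : (0 : ℝ) < ((M - (m + 1) : ℕ) : ℝ) := by exact_mod_cast (by omega : 0 < M - (m + 1))
  have hx := tnorm_nonneg (x - a)
  have hy := tnorm_nonneg (y - a)
  have hd : tnorm (y - a) - tnorm (x - a) ≤ tnorm (y - x) := by
    have := tnorm_add_le (y - x) (x - a)
    rw [sub_add_sub_cancel] at this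
    linarith
  unfold wt2
  split_ifs with hw
  · have h1 : |phi2f m M a x - phi2f m M a y| ≤
        tnorm (y - x) / (1 + tnorm (x - a)) / (((M - (m + 1) : ℕ) : ℝ) * Real.log 2) := by
      unfold phi2f
      refine (abs_min_sub_min_le_max _ _ _ _).trans ?_
      rw [sub_self, abs_zero, max_eq_right (abs_nonneg _)]
      refine (abs_max_sub_max_le_max _ _ _ _).trans ?_
      rw [sub_self, abs_zero, max_eq_right (abs_nonneg _), ← sub_div]
      have e1 : (M * Real.log 2 - Real.log (1 + tnorm (x - a)) -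
          (M * Real.log 2 - Real.log (1 + tnorm (y - a)))) =
          Real.log (1 + tnorm (y - a)) - Real.log (1 + tnorm (x - a)) := by
        ring
      rw [e1, abs_div, abs_of_pos (show 0 < ((M - (m + 1) : ℕ) : ℝ) * Real.log 2 by positivity)]
      apply div_le_div_of_nonneg_right _ (by positivity)
      rw [abs_of_nonneg (sub_nonneg.2 (Real.log_le_log (by linarith) (by linarith))),
        ← Real.log_div (by linarith) (by linarith)]
      have h2 := Real.log_le_sub_one_of_pos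
        (div_pos (show 0 < 1 + tnorm (y - a) by linarith) (show 0 < 1 + tnorm (x - a) by linarith))
      refine h2.trans ?_
      rw [div_sub_one (by linarith)]
      apply div_le_div_of_nonneg_right _ (by linarith)
      linarith
    have h2 := pow_le_pow_left₀ (abs_nonneg _) h1 2
    rw [sq_abs] at h2
    refine h2.trans_eq ?_
    field_simp
  · rw [not_and_or] at hw
    rcases hw with hw | hw
    · push Not at hw
      have hp : (2 : ℝ) ^ (m + 1) = 2 * 2 ^ m := by ring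
      rw [phi2f_one hM (by linarith), phi2f_one hM (by linarith)]
      norm_num
    · push Not at hw
      rw [phi2f_zero hw, phi2f_zero (by linarith)]
      norm_num

theorem phi2f_diff_two {L : ℕ} [NeZero L] {m M : ℕ} (hM : m + 1 < M) (a x y : Tor L)
    (hxy : tnorm (y - x) ≤ 2 ^ m) :
    (phi2f m M a x - phi2f m M a y) ^ 2 ≤
      tnorm (y - x) ^ 2 / (((M - (m + 1) : ℕ) : ℝ) * Real.log 2) ^ 2 *
        (wt2 m M a x + wt2 m M a y) := by
  have h0 : 0 ≤ tnorm (y - x) ^ 2 / (((M - (m + 1) : ℕ) : ℝ) * Real.log 2) ^ 2 := by positivity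
  rcases le_total (tnorm (x - a)) (tnorm (y - a)) with h | h
  · refine (phi2f_diff_one hM a x y hxy h).trans ?_
    exact mul_le_mul_of_nonneg_left (by have := wt2_nonneg m M a y; linarith) h0
  · have h1 := phi2f_diff_one hM a y x (by rw [tnorm_sub_comm x y]; exact hxy) h
    rw [tnorm_sub_comm x y] at h1
    have e : (phi2f m M a x - phi2f m M a y) ^ 2 = (phi2f m M a y - phi2f m M a x) ^ 2 := by ring
    rw [e]
    refine h1.trans ?_
    exact mul_le_mul_of_nonneg_left (by have := wt2_nonneg m M a x; linarith) h0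

theorem phi2 : S_Phi2 := by
  intro K ε hK hε
  obtain ⟨C, hC, hsum⟩ := sum_wt2
  have hl : 0 < Real.log 2 := Real.log_pos (by norm_num)
  -- the number of scales
  obtain ⟨N0, hN01, hN02⟩ : ∃ N0 : ℕ, 1 ≤ N0 ∧ 4 * K * C / (Real.log 2) ^ 2 ≤ ε * N0 := by
    refine ⟨⌈4 * K * C / (Real.log 2) ^ 2 / ε⌉₊ + 1, by omega, ?_⟩
    have h1 := Nat.le_ceil (4 * K * C / (Real.log 2) ^ 2 / ε)
    rw [div_le_iff₀ hε] at h1
    push_cast
    nlinarith
  have hN1 : (1 : ℝ) ≤ 2 ^ (N0 + 1) := one_le_pow₀ (by norm_num)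
  refine ⟨1 / (20 * 2 ^ (N0 + 1)), by positivity, ?_, ?_⟩
  · rw [div_le_one (by positivity)]
    linarith
  intro R r hr hrR L _ a
  have hrR' : r * (20 * 2 ^ (N0 + 1)) ≤ R := by
    rw [div_mul_eq_mul_div, one_mul, le_div_iff₀ (by positivity)] at hrR
    exact hrR
  have hR20 : 20 ≤ R := by nlinarith
  obtain ⟨m0, hma, hmb⟩ : ∃ m0 : ℕ, (2 : ℝ) ^ m0 ≤ 1 + r ∧ 1 + r < 2 ^ (m0 + 1) :=
    exists_nat_pow_near (by linarith) (by norm_num)
  obtain ⟨M, hMa, hMb⟩ : ∃ M : ℕ, (2 : ℝ) ^ M ≤ R / 5 ∧ R / 5 < 2 ^ (M + 1) :=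
    exists_nat_pow_near (by linarith) (by norm_num)
  obtain ⟨m, hm⟩ : ∃ m, m = m0 + 1 := ⟨_, rfl⟩
  rw [← hm] at hmb
  have hm4 : (2 : ℝ) ^ m ≤ 4 * r := by
    rw [hm, pow_succ]
    linarith
  have hmM : m + 1 + N0 ≤ M := by
    by_contra hcon
    push Not at hcon
    have h1 : (2 : ℝ) ^ (M + 1) ≤ 2 ^ (N0 + 1 + m) := pow_le_pow_right₀ (by norm_num) (by omega)
    rw [pow_add _ (N0 + 1) m] at h1
    have h2 : (2 : ℝ) ^ (N0 + 1) * 2 ^ m ≤ 2 ^ (N0 + 1) * (4 * r) :=
      mul_le_mul_of_nonneg_left hm4 (by positivity)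
    linarith
  have hM : m + 1 < M := by omega
  obtain ⟨n, hn⟩ : ∃ n : ℕ, n = M - (m + 1) := ⟨_, rfl⟩
  have hn1 : 1 ≤ n := by omega
  have hnN : N0 ≤ n := by omega
  have hn' : (0 : ℝ) < n := by exact_mod_cast hn1
  refine ⟨phi2f m M a, ?_, ?_, ?_⟩
  · intro x hx
    apply phi2f_one hM
    rw [pow_succ]
    linarith
  · intro x hx
    exact phi2f_zero (by linarith)
  · intro ι _ G β ρ hG hρr
    have hρm : ρ ≤ 2 ^ m := by linarith
    have hsw : ∑ x : Tor L, wt2 m M a x ≤ C * (2 * n) := by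
      refine (hsum L a m M).trans (mul_le_mul_of_nonneg_left ?_ hC.le)
      have h1 : M - m ≤ 2 * n := by omega
      exact_mod_cast h1
    have hS := sum_fib G.s (fun e => tnorm (G.t e - G.s e) ^ 2) β K hG.moms (wt2 m M a)
      (wt2_nonneg m M a)
    have hTt := sum_fib G.t (fun e => tnorm (G.t e - G.s e) ^ 2) β K hG.momt (wt2 m M a)
      (wt2_nonneg m M a)
    have h1 : En G (phi2f m M a) ≤
        1 / (n * Real.log 2) ^ 2 * ((∑ e, tnorm (G.t e - G.s e) ^ 2 * wt2 m M a (G.s e)) +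
          ∑ e, tnorm (G.t e - G.s e) ^ 2 * wt2 m M a (G.t e)) := by
      unfold En grad
      rw [← Finset.sum_add_distrib, Finset.mul_sum]
      apply Finset.sum_le_sum
      intro e _
      have h2 := phi2f_diff_two hM a (G.s e) (G.t e) ((hG.range e).trans hρm)
      rw [← hn] at h2
      calc (phi2f m M a (G.t e) - phi2f m M a (G.s e)) ^ 2
          = (phi2f m M a (G.s e) - phi2f m M a (G.t e)) ^ 2 := by ring
        _ ≤ (tnorm (G.t e - G.s e) ^ 2 / (n * Real.log 2) ^ 2 *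
            (wt2 m M a (G.s e) + wt2 m M a (G.t e))) := h2
        _ = _ := by ring
    have h2 : β * En G (phi2f m M a) ≤
        1 / (n * Real.log 2) ^ 2 * (2 * K * (C * (2 * n))) := by
      calc β * En G (phi2f m M a)
          ≤ β * (1 / (n * Real.log 2) ^ 2 *
            ((∑ e, tnorm (G.t e - G.s e) ^ 2 * wt2 m M a (G.s e)) +
            ∑ e, tnorm (G.t e - G.s e) ^ 2 * wt2 m M a (G.t e))) :=
            mul_le_mul_of_nonneg_left h1 hG.beta
        _ = 1 / (n * Real.log 2) ^ 2 *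
            ((β * ∑ e, tnorm (G.t e - G.s e) ^ 2 * wt2 m M a (G.s e)) +
            β * ∑ e, tnorm (G.t e - G.s e) ^ 2 * wt2 m M a (G.t e)) := by ring
        _ ≤ 1 / (n * Real.log 2) ^ 2 * (2 * K * (C * (2 * n))) := by
            apply mul_le_mul_of_nonneg_left _ (by positivity)
            have h3 : K * ∑ x : Tor L, wt2 m M a x ≤ K * (C * (2 * n)) :=
              mul_le_mul_of_nonneg_left hsw hK
            linarith
    refine h2.trans ?_
    have hMM : (N0:ℝ) ≤ n := by exact_mod_cast hnN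
    calc 1 / (n * Real.log 2) ^ 2 * (2 * K * (C * (2 * n)))
        = 4 * K * C / (Real.log 2) ^ 2 / n := by
          field_simp
          ring
      _ ≤ ε := by
          rw [div_le_iff₀ hn']
          exact hN02.trans (mul_le_mul_of_nonneg_left hMM hε.le)

open Pool.Agent.H983R2.ONJ.Aux467 in
theorem main2 : S_Main2 := by
  classical
  intro K ε hK hε
  obtain ⟨C₁, hC₁, hone⟩ := single_scaleJ K hK
  obtain ⟨C₂, hC₂, hcross⟩ := cross_scaleJ K hK
  obtain ⟨n, hn⟩ := exists_nat_gt (2 * C₁ / ε)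
  have hn0' : (0 : ℝ) < n := lt_of_le_of_lt (by positivity) hn
  have hn0 : 0 < n := by exact_mod_cast hn0'
  set δ : ℝ := (ε / (2 * C₂)) ^ 2 with hδ
  have hδ0 : 0 < δ := by positivity
  have hsq : √δ = ε / (2 * C₂) := Real.sqrt_sq (by positivity)
  obtain ⟨κ₁, hκ₁, hκ₁1, hphi⟩ := phi2 K δ hK hδ0
  have h16 : ∀ j : ℕ, (1 : ℝ) ≤ 16 ^ j := fun j => one_le_pow₀ (by norm_num)
  have h16n := h16 n
  obtain ⟨κ, hκ⟩ : ∃ κ : ℝ, κ = κ₁ / (100 * 16 ^ n) := ⟨_, rfl⟩
  have hκ0 : 0 < κ := by rw [hκ]; positivity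
  have hκκ : 100 * 16 ^ n * κ = κ₁ := by
    rw [hκ]
    field_simp
  have hκ1 : κ ≤ 1 := by
    have : κ ≤ 100 * 16 ^ n * κ := le_mul_of_one_le_left hκ0.le (by linarith)
    linarith
  refine ⟨κ, hκ0, hκ1, ?_⟩
  intro R L _ hL ι _ G β ρ hG hρ1 hρR p W
  have hR0 : 0 < R := by
    by_contra hcon
    push Not at hcon
    have : κ * R ≤ 0 := mul_nonpos_of_nonneg_of_nonpos hκ0.le hcon
    linarith
  have hbig : 100 * 16 ^ n * ρ ≤ κ₁ * R := by
    have h1 := mul_le_mul_of_nonneg_left hρR (by positivity : (0 : ℝ) ≤ 100 * 16 ^ n)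
    rw [← mul_assoc, hκκ] at h1
    exact h1
  have hbigR : 100 * 16 ^ n * ρ ≤ R := by
    refine hbig.trans ?_
    have := mul_le_mul_of_nonneg_right hκ₁1 hR0.le
    rwa [one_mul] at this
  have hρ0 : 0 ≤ ρ := by linarith
  have hρn : ρ ≤ 16 ^ n * ρ := le_mul_of_one_le_left hρ0 h16n
  have hρ24 : ρ ≤ R / 24 := by
    rw [le_div_iff₀ (by norm_num)]
    linarith
  set l : ℕ → ℝ := fun j => 16 ^ j * ρ with hl
  have hρl : ∀ j, ρ ≤ l j := fun j => by
    have := mul_le_mul_of_nonneg_right (h16 j) hρ0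
    rwa [one_mul] at this
  have hl1 : ∀ j, 1 ≤ l j := fun j => hρ1.trans (hρl j)
  have hln : ∀ j < n, l j ≤ 16 ^ n * ρ := by
    intro j hj
    have h1 : (16 : ℝ) ^ j ≤ 16 ^ n := pow_le_pow_right₀ (by norm_num) hj.le
    exact mul_le_mul_of_nonneg_right h1 hρ0
  have hlR : ∀ j < n, 100 * l j ≤ R := by
    intro j hj
    have h1 := hln j hj
    linarith
  have h1 : ∀ i < n, W.E (UU G β (kl R p (l i)) 2 ^ 2) ≤ C₁ := by
    intro i hi
    exact hone R (l i) ρ β (hl1 i) hρ0 (hρl i) (hlR i hi) L hL G hG p W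
  have h2 : ∀ i < n, ∀ j < n, i < j →
      |W.E (UU G β (kl R p (l j)) 2 * UU G β (kl R p (l i)) 2)| ≤ C₂ * √δ := by
    intro i hi j hj hij
    refine hcross R (l i) (l j) δ ρ β (hl1 i) hρ0 (hρl i) ?_ (hlR j hj) hδ0.le L hL G hG p W ?_
    · have h3 : (16 : ℝ) ^ (i + 1) ≤ 16 ^ j := pow_le_pow_right₀ (by norm_num) hij
      rw [pow_succ] at h3
      have h4 := mul_le_mul_of_nonneg_right h3 hρ0
      show 16 * (16 ^ i * ρ) ≤ 16 ^ j * ρ
      linarith
    · intro a
      obtain ⟨φ, hφ1, hφ0, hφE⟩ := hphi R (7 * (16 ^ n * ρ)) (by linarith) (by linarith) L a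
      refine ⟨φ, fun x hx => hφ1 x (hx.trans ?_), hφ0, hφE G β ρ hG (by linarith)⟩
      have := hln i hi
      linarith
  refine ⟨-((1 / (n : ℝ)) • ∑ j ∈ Finset.range n, UU G β (kl R p (l j)) 2), ?_, ?_, ?_⟩
  · refine (avg_sq W hn0 _ (by positivity) h1 h2).trans ?_
    have h3 : C₁ / n ≤ ε / 2 := by
      rw [div_le_iff₀ hn0']
      rw [div_lt_iff₀ hε] at hn
      linarith
    have h4 : C₂ * √δ = ε / 2 := by
      rw [hsq]
      field_simp
    linarith
  · rw [neg_mul, smul_mul_assoc, Finset.sum_mul, map_neg, map_smul, map_sum]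
    rw [Finset.sum_congr rfl fun j hj =>
      ibp_scale W hG (hl1 j) (hρl j) (hlR j (Finset.mem_range.1 hj))]
    rw [Finset.sum_const, Finset.card_range, nsmul_eq_mul, smul_eq_mul]
    field_simp
  · intro σ σ' hσ
    have h3 : ∀ j ∈ Finset.range n, eval σ (UU G β (kl R p (l j)) 2) =
        eval σ' (UU G β (kl R p (l j)) 2) := by
      intro j hj
      have hj' := Finset.mem_range.1 hj
      apply eval_UU_congr G β (A := {x : Tor L | R / 8 ≤ tnorm (x - p)})
        (B := {x : Tor L | R / 6 ≤ tnorm (x - p)})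
      · intro x y h
        obtain ⟨h4, h5, _⟩ := kl_supp (hl1 j) (hlR j hj') h
        exact ⟨h4, h5⟩
      · intro e he
        have h4 := hG.range e
        have h5 := tri (G.s e) (G.t e) p
        have h6 := tri (G.t e) (G.s e) p
        rw [tnorm_sub_comm (G.s e) (G.t e)] at h5
        simp only [Set.mem_ofPred_eq] at he ⊢
        rcases he with h | h
        · exact ⟨by linarith, by linarith⟩
        · exact ⟨by linarith, by linarith⟩
      · intro x hx j
        exact hσ x hx j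
    simp only [map_neg, smul_eval, map_sum]
    rw [Finset.sum_congr rfl h3]

end Pool.Agent.H591.PL
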