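import Pool.Agent.H992.PL.Defs
import Pool.Graph.R_seed8.H221R2.ON3.Geo1

/-!
# Task PL4 (helper643, for helper992): sums over balls and the removal of all the long edges
-/

set_option autoImplicit false

noncomputable section

namespace Pool.Agent.H643.PL

open MeasureTheory MvPolynomial Pool.Agent.H5R2.ON Pool.Agent.H717R2.ON3 Pool.Agent.H983R2.ONJ
open Pool.Agent.H992.PL

theorem ball_sum : S_Ball := by
  intro δ hδ hδ2
  obtain ⟨K₀, hK₀, hball⟩ := ball_card
  have hr1 : (2 : ℝ) ^ (-(2 - δ)) < 1 := by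
    rw [← Real.rpow_zero (2 : ℝ)]
    exact Real.rpow_lt_rpow_of_exponent_lt one_lt_two (by linarith)
  set s : ℝ := (2 : ℝ) ^ (-(2 - δ)) with hs
  have hs0 : 0 < s := Real.rpow_pos_of_pos two_pos _
  set K : ℝ := 4 * K₀ / (1 - s) with hK
  have h1s : 0 < 1 - s := by linarith
  have hK1 : 4 * K₀ ≤ K := by
    rw [hK, le_div_iff₀ h1s]
    nlinarith
  have hK2 : K * s + 4 * K₀ = K := by
    rw [hK]
    field_simp
    ring
  have hKpos : 0 < K := by positivity
  refine ⟨K, hKpos, ?_⟩
  intro L _ p
  have key : ∀ n : ℕ, ∀ R : ℝ, 0 ≤ R → 1 + R ≤ 2 ^ n →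
      ∑ x ∈ ball p R, (1 + tnorm (x - p)) ^ (-δ) ≤ K * (1 + R) ^ (2 - δ) := by
    have small : ∀ R : ℝ, 0 ≤ R → 1 + R ≤ 2 →
        ∑ x ∈ ball p R, (1 + tnorm (x - p)) ^ (-δ) ≤ K * (1 + R) ^ (2 - δ) := by
      intro R hR hR2
      have h1 : ∑ x ∈ ball p R, (1 + tnorm (x - p)) ^ (-δ) ≤ ∑ x ∈ ball p R, (1 : ℝ) := by
        refine Finset.sum_le_sum fun x _ => ?_
        exact Real.rpow_le_one_of_one_le_of_nonpos (by linarith [tnorm_nonneg (x - p)]) (by linarith)
      have h2 : ∑ x ∈ ball p R, (1 : ℝ) = ((ball p R).card : ℝ) := by simp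
      have h3 := hball L p R hR
      have h4 : (1 + R) ^ 2 ≤ 4 := by nlinarith
      have h5 : (1 : ℝ) ≤ (1 + R) ^ (2 - δ) := Real.one_le_rpow (by linarith) (by linarith)
      calc ∑ x ∈ ball p R, (1 + tnorm (x - p)) ^ (-δ) ≤ ((ball p R).card : ℝ) := by
            rw [← h2]; exact h1
        _ ≤ K₀ * (1 + R) ^ 2 := h3
        _ ≤ 4 * K₀ := by nlinarith
        _ ≤ K * 1 := by linarith
        _ ≤ K * (1 + R) ^ (2 - δ) := by gcongr
    intro n
    induction n with
    | zero =>
      intro R hR hR1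
      exact small R hR (by rw [pow_zero] at hR1; linarith)
    | succ n ih =>
      intro R hR hR1
      rcases le_or_gt (1 + R) 2 with h2 | h2
      · exact small R hR h2
      have ihR := ih ((R - 1) / 2) (by linarith) (by rw [pow_succ] at hR1; linarith)
      set R' := (R - 1) / 2 with hR'
      have e1 : 1 + R' = (1 + R) * 2⁻¹ := by rw [hR']; ring
      have hpos : 0 < 1 + R := by linarith
      have e2 : (1 + R') ^ (2 - δ) = s * (1 + R) ^ (2 - δ) := by
        rw [e1, Real.mul_rpow hpos.le (by norm_num), hs, Real.rpow_neg two_pos.le,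
          Real.inv_rpow two_pos.le, mul_comm]
      have hsub : ball p R' ⊆ ball p R := by
        intro x hx
        rw [ball, Finset.mem_filter] at hx ⊢
        exact ⟨Finset.mem_univ _, hx.2.trans (by rw [hR']; linarith)⟩
      have h3 : ∑ x ∈ ball p R \ ball p R', (1 + tnorm (x - p)) ^ (-δ) ≤
          4 * K₀ * (1 + R) ^ (2 - δ) := by
        have h4 : ∀ x ∈ ball p R \ ball p R', (1 + tnorm (x - p)) ^ (-δ) ≤ 4 * (1 + R) ^ (-δ) := by
          intro x hx
          rw [Finset.mem_sdiff] at hx
          have hx2 : R' < tnorm (x - p) := by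
            by_contra hcon
            exact hx.2 (Finset.mem_filter.2 ⟨Finset.mem_univ _, not_lt.1 hcon⟩)
          have h5 : (1 + tnorm (x - p)) ^ (-δ) ≤ ((1 + R) * 2⁻¹) ^ (-δ) := by
            apply Real.rpow_le_rpow_of_nonpos (by positivity) _ (by linarith)
            rw [← e1]
            linarith
          rw [Real.mul_rpow hpos.le (by norm_num)] at h5
          have h6 : (2⁻¹ : ℝ) ^ (-δ) ≤ 4 := by
            rw [Real.inv_rpow two_pos.le, Real.rpow_neg two_pos.le, inv_inv]
            calc (2 : ℝ) ^ δ ≤ 2 ^ (2 : ℝ) :=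
                  Real.rpow_le_rpow_of_exponent_le one_lt_two.le hδ2.le
              _ = 4 := by norm_num
          have h7 : 0 ≤ (1 + R) ^ (-δ) := Real.rpow_nonneg hpos.le _
          calc (1 + tnorm (x - p)) ^ (-δ) ≤ (1 + R) ^ (-δ) * (2⁻¹ : ℝ) ^ (-δ) := h5
            _ ≤ (1 + R) ^ (-δ) * 4 := by gcongr
            _ = 4 * (1 + R) ^ (-δ) := by ring
        have h8 : 0 ≤ 4 * (1 + R) ^ (-δ) := mul_nonneg (by norm_num) (Real.rpow_nonneg hpos.le _)
        calc ∑ x ∈ ball p R \ ball p R', (1 + tnorm (x - p)) ^ (-δ)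
            ≤ ∑ x ∈ ball p R \ ball p R', 4 * (1 + R) ^ (-δ) := Finset.sum_le_sum h4
          _ = ((ball p R \ ball p R').card : ℝ) * (4 * (1 + R) ^ (-δ)) := by
            rw [Finset.sum_const, nsmul_eq_mul]
          _ ≤ ((ball p R).card : ℝ) * (4 * (1 + R) ^ (-δ)) := by
            apply mul_le_mul_of_nonneg_right _ h8
            exact_mod_cast Finset.card_le_card Finset.sdiff_subset
          _ ≤ (K₀ * (1 + R) ^ 2) * (4 * (1 + R) ^ (-δ)) := by
            apply mul_le_mul_of_nonneg_right (hball L p R hR) h8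
          _ = 4 * K₀ * (1 + R) ^ (2 - δ) := by
            rw [sub_eq_add_neg, Real.rpow_add hpos, Real.rpow_two]
            ring
      rw [← Finset.sum_sdiff hsub]
      calc _ ≤ 4 * K₀ * (1 + R) ^ (2 - δ) + K * (s * (1 + R) ^ (2 - δ)) := by
            rw [← e2]
            exact add_le_add h3 ihR
        _ = (K * s + 4 * K₀) * (1 + R) ^ (2 - δ) := by ring
        _ = K * (1 + R) ^ (2 - δ) := by rw [hK2]
  intro R hR
  obtain ⟨n, hn⟩ := pow_unbounded_of_one_lt (1 + R) (one_lt_two)
  exact key n R hR hn.le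

theorem mom_mono {L : ℕ} [NeZero L] {A q : ℝ} {c c' : Tor L × Tor L → ℝ} (h : Mom A q c)
    (h0 : ∀ e, 0 ≤ c' e) (h1 : ∀ e, c' e ≤ c e) : Mom A q c' := by
  refine ⟨h0, fun x => le_trans (Finset.sum_le_sum fun y _ => ?_) (h.mom x)⟩
  have h2 : 0 ≤ (1 + tnorm (y - x)) ^ q := Real.rpow_nonneg (by linarith [tnorm_nonneg (y - x)]) _
  apply mul_le_mul_of_nonneg_right _ h2
  exact add_le_add (h1 _) (h1 _)

theorem abs_cc {N : ℕ} (i : Fin N) (s : Sph N) : |cc i s| ≤ 1 := by
  have h1 : ‖(s : EuclideanSpace ℝ (Fin N))‖ = 1 := by simp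
  have h2 := PiLp.norm_apply_le (s : EuclideanSpace ℝ (Fin N)) i
  rw [h1, Real.norm_eq_abs] at h2
  exact h2

theorem gH_empty {N L : ℕ} [NeZero L] (hN : N ≠ 0) (H : Conf N L → ℝ) (η : Conf N L)
    (F : Conf N L → ℝ) : gH H ∅ η F = F η := by
  have : IsProbabilityMeasure (prior N L) := prior_isProbabilityMeasure N L hN
  have h : ∀ S : Conf N L, splice ∅ S η = η := by
    intro S
    funext x
    simp [splice]
  unfold gH
  simp only [h]
  rw [integral_const, integral_const]
  simp [Real.exp_ne_zero]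

/-- the couplings without the edges in `D` -/
def off {L : ℕ} (D : Finset (Tor L × Tor L)) (c : Tor L × Tor L → ℝ) (e : Tor L × Tor L) : ℝ :=
  open Classical in if e ∈ D then 0 else c e

/-- distance of an edge to `p` -/
def dd {L : ℕ} (p : Tor L) (e : Tor L × Tor L) : ℝ := min (tnorm (e.1 - p)) (tnorm (e.2 - p))

open Classical in
/-- bound for the effect of the removal of one edge -/
def wt {L : ℕ} [NeZero L] (A δ M R : ℝ) (p : Tor L) (c : Tor L × Tor L → ℝ) (e : Tor L × Tor L) : ℝ :=
  if e.1 ∈ ball p R ∨ e.2 ∈ ball p R then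
    2 * Real.exp (2 * A) * c e * (4 * max M 1 * (1 + dd p e) ^ (-δ)) else 0

theorem mem_ball {L : ℕ} [NeZero L] {p x : Tor L} {R : ℝ} : x ∈ ball p R ↔ tnorm (x - p) ≤ R := by
  simp [ball]

theorem step (h : S_Edge) {N : ℕ} (hN : N ≠ 0) {A q δ M : ℝ} (hq : 0 ≤ q) (hδ : 0 ≤ δ)
    (hδ2 : δ < 2) (hM : 0 ≤ M) (hMB : ∀ r : ℝ, 0 ≤ r → MBM N A q r (M * (1 + r) ^ (-δ)))
    {R : ℝ} (hR : 1 ≤ R) {L : ℕ} [NeZero L] (hL : 2 * R < L) {c : Tor L × Tor L → ℝ}
    (hc : Mom A q c) (p : Tor L) (η : Conf N L) (i : Fin N) (D : Finset (Tor L × Tor L)) :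
    |gH (pS c) (ball p R) η (fun S => cc i (S p)) -
      gH (pS (off D c)) (ball p R) η (fun S => cc i (S p))| ≤ ∑ e ∈ D, wt A δ M R p c e := by
  classical
  induction D using Finset.induction_on with
  | empty =>
    have h0 : off ∅ c = c := by
      funext e
      simp [off]
    rw [h0, sub_self, abs_zero, Finset.sum_empty]
  | insert e₀ D he ih =>
    rw [Finset.sum_insert he]
    have hdel : off (insert e₀ D) c = del e₀ (off D c) := by
      funext e
      unfold off del
      by_cases h1 : e = e₀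
      · simp [h1]
      · by_cases h2 : e ∈ D <;> simp [h1, h2]
    have hmD : Mom A q (off D c) := mom_mono hc
      (fun e => by unfold off; split_ifs <;> simp [hc.nonneg e])
      (fun e => by unfold off; split_ifs <;> simp [hc.nonneg e])
    have hmD' : Mom A q (del e₀ (off D c)) := mom_mono hmD
      (fun e => by unfold del; split_ifs <;> simp [hmD.nonneg e])
      (fun e => by unfold del; split_ifs <;> simp [hmD.nonneg e])
    have hoe : off D c e₀ = c e₀ := by simp [off, he]
    have hE0 : 0 ≤ 2 * Real.exp (2 * A) * c e₀ := by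
      have := hc.nonneg e₀
      positivity
    have hstep : |gH (pS (off D c)) (ball p R) η (fun S => cc i (S p)) -
        gH (pS (off (insert e₀ D) c)) (ball p R) η (fun S => cc i (S p))| ≤ wt A δ M R p c e₀ := by
      rw [hdel]
      have hemp : ball p (-1 : ℝ) = ∅ := by
        rw [Finset.eq_empty_iff_forall_notMem]
        intro x hx
        have := mem_ball.1 hx
        linarith [tnorm_nonneg (x - p)]
      -- the bound at radius `-1`
      have hb1 := h N hN A q hq L (off D c) hmD e₀ p η i (-1) R 1 (by linarith) zero_le_one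
        (by rw [hemp]; simp) (by rw [hemp]; simp) (by
          intro η'
          rw [hemp, gH_empty hN]
          exact abs_cc i (η' p))
      unfold wt
      by_cases hin : e₀.1 ∈ ball p R ∨ e₀.2 ∈ ball p R
      · rw [if_pos hin]
        rw [if_pos hin, hoe] at hb1
        have hM1 : 1 ≤ max M 1 := le_max_right _ _
        by_cases ht : dd p e₀ = 0
        · rw [ht, add_zero, Real.one_rpow, mul_one]
          refine hb1.trans (mul_le_mul_of_nonneg_left ?_ hE0)
          linarith
        · have hd0 : 0 ≤ dd p e₀ := le_min (tnorm_nonneg _) (tnorm_nonneg _)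
          have hdpos : 0 < dd p e₀ := lt_of_le_of_ne hd0 (Ne.symm ht)
          have hdR : dd p e₀ ≤ R := by
            rcases hin with h1 | h1
            · exact (min_le_left _ _).trans (mem_ball.1 h1)
            · exact (min_le_right _ _).trans (mem_ball.1 h1)
          set t := dd p e₀ with htdef
          have hpos2 : 0 ≤ (1 + t / 2) ^ (-δ) := Real.rpow_nonneg (by linarith) _
          have hb2 := h N hN A q hq L (off D c) hmD e₀ p η i (t / 2) R (M * (1 + t / 2) ^ (-δ))
            (by linarith) (mul_nonneg hM hpos2)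
            (by
              intro h1
              have h2 := mem_ball.1 h1
              have h3 : t ≤ tnorm (e₀.1 - p) := min_le_left _ _
              linarith)
            (by
              intro h1
              have h2 := mem_ball.1 h1
              have h3 : t ≤ tnorm (e₀.2 - p) := min_le_right _ _
              linarith)
            (fun η' => hMB (t / 2) (by linarith) L (by linarith) _ hmD' p η' i)
          rw [if_pos hin, hoe] at hb2
          refine hb2.trans (mul_le_mul_of_nonneg_left ?_ hE0)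
          have h1 : (1 + t / 2) ^ (-δ) ≤ 4 * (1 + t) ^ (-δ) := by
            have h2 : (1 + t / 2) ^ (-δ) ≤ ((1 + t) * 2⁻¹) ^ (-δ) := by
              apply Real.rpow_le_rpow_of_nonpos (by positivity) _ (by linarith)
              linarith
            rw [Real.mul_rpow (by linarith) (by norm_num)] at h2
            have h6 : (2⁻¹ : ℝ) ^ (-δ) ≤ 4 := by
              rw [Real.inv_rpow two_pos.le, Real.rpow_neg two_pos.le, inv_inv]
              calc (2 : ℝ) ^ δ ≤ 2 ^ (2 : ℝ) :=
                    Real.rpow_le_rpow_of_exponent_le one_lt_two.le hδ2.le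
                _ = 4 := by norm_num
            have h7 : 0 ≤ (1 + t) ^ (-δ) := Real.rpow_nonneg (by linarith) _
            nlinarith
          have h8 : 0 ≤ (1 + t) ^ (-δ) := Real.rpow_nonneg (by linarith) _
          calc M * (1 + t / 2) ^ (-δ) ≤ max M 1 * (4 * (1 + t) ^ (-δ)) := by
                apply mul_le_mul (le_max_left _ _) h1 hpos2
                linarith
            _ = 4 * max M 1 * (1 + t) ^ (-δ) := by ring
      · rw [if_neg hin]
        rw [if_neg hin] at hb1
        exact hb1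
    calc _ ≤ |gH (pS c) (ball p R) η (fun S => cc i (S p)) -
          gH (pS (off D c)) (ball p R) η (fun S => cc i (S p))| +
        |gH (pS (off D c)) (ball p R) η (fun S => cc i (S p)) -
          gH (pS (off (insert e₀ D) c)) (ball p R) η (fun S => cc i (S p))| := abs_sub_le _ _ _
      _ ≤ ∑ e ∈ D, wt A δ M R p c e + wt A δ M R p c e₀ := add_le_add ih hstep
      _ = _ := add_comm _ _

theorem remove (h : S_Edge) : S_Remove := by
  classical
  intro N hN A q δ M hA hq hδ hδ2 hM hMB
  obtain ⟨K, hK, hKb⟩ := ball_sum δ hδ hδ2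
  have hE : 0 < Real.exp (2 * A) := Real.exp_pos _
  have hM1 : 1 ≤ max M 1 := le_max_right _ _
  set C₀ : ℝ := 8 * Real.exp (2 * A) * max M 1 with hC₀
  have hC₀0 : 0 ≤ C₀ := by positivity
  refine ⟨C₀ * A * K + 1, by positivity, ?_⟩
  intro R ρ hR hρ L _ hL c hc p η i
  set D : Finset (Tor L × Tor L) := Finset.univ.filter (fun e => ρ < tnorm (e.2 - e.1)) with hD
  have hcut : cut ρ c = off D c := by
    funext e
    unfold cut off
    by_cases h1 : tnorm (e.2 - e.1) ≤ ρ
    · rw [if_pos h1, if_neg]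
      intro h2
      exact absurd (Finset.mem_filter.1 h2).2 (not_lt.2 h1)
    · rw [if_neg h1, if_pos]
      exact Finset.mem_filter.2 ⟨Finset.mem_univ _, not_le.1 h1⟩
  rw [hcut]
  refine (step h hN hq hδ hδ2 hM hMB hR hL hc p η i D).trans ?_
  -- one factor for each end point
  let g : Tor L → ℝ := fun x => if x ∈ ball p R then (1 + tnorm (x - p)) ^ (-δ) else 0
  have hg0 : ∀ x, 0 ≤ g x := by
    intro x
    show 0 ≤ if x ∈ ball p R then (1 + tnorm (x - p)) ^ (-δ) else 0
    split_ifs
    · exact Real.rpow_nonneg (by linarith [tnorm_nonneg (x - p)]) _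
    · exact le_refl _
  have hw : ∀ e, wt A δ M R p c e ≤ C₀ * (c e * (g e.1 + g e.2)) := by
    intro e
    have hce := hc.nonneg e
    unfold wt
    split_ifs with hin
    · have h1 : (1 + dd p e) ^ (-δ) ≤ g e.1 + g e.2 := by
        have h2 := hg0 e.1
        have h3 := hg0 e.2
        rcases le_total (tnorm (e.1 - p)) (tnorm (e.2 - p)) with h4 | h4
        · have h5 : dd p e = tnorm (e.1 - p) := min_eq_left h4
          have h6 : e.1 ∈ ball p R := by
            rcases hin with h7 | h7
            · exact h7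
            · exact mem_ball.2 (h4.trans (mem_ball.1 h7))
          have h8 : g e.1 = (1 + tnorm (e.1 - p)) ^ (-δ) := if_pos h6
          rw [h5, ← h8]
          linarith
        · have h5 : dd p e = tnorm (e.2 - p) := min_eq_right h4
          have h6 : e.2 ∈ ball p R := by
            rcases hin with h7 | h7
            · exact mem_ball.2 (h4.trans (mem_ball.1 h7))
            · exact h7
          have h8 : g e.2 = (1 + tnorm (e.2 - p)) ^ (-δ) := if_pos h6
          rw [h5, ← h8]
          linarith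
      calc 2 * Real.exp (2 * A) * c e * (4 * max M 1 * (1 + dd p e) ^ (-δ))
          ≤ 2 * Real.exp (2 * A) * c e * (4 * max M 1 * (g e.1 + g e.2)) := by
            apply mul_le_mul_of_nonneg_left _ (by positivity)
            exact mul_le_mul_of_nonneg_left h1 (by positivity)
        _ = C₀ * (c e * (g e.1 + g e.2)) := by rw [hC₀]; ring
    · have h2 := hg0 e.1
      have h3 := hg0 e.2
      positivity
  have hsum : ∑ e ∈ D, c e * (g e.1 + g e.2) ≤ A * (1 + ρ) ^ (-q) * ∑ x, g x := by
    have h1 : ∑ e ∈ D, c e * (g e.1 + g e.2) =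
        ∑ x, g x * ∑ y, (if ρ < tnorm (y - x) then c (x, y) + c (y, x) else 0) := by
      have e1 : ∑ e ∈ D, c e * (g e.1 + g e.2) =
          ∑ e : Tor L × Tor L, (if ρ < tnorm (e.2 - e.1) then c e * g e.1 else 0) +
          ∑ e : Tor L × Tor L, (if ρ < tnorm (e.2 - e.1) then c e * g e.2 else 0) := by
        rw [hD, Finset.sum_filter, ← Finset.sum_add_distrib]
        refine Finset.sum_congr rfl fun e _ => ?_
        split_ifs <;> ring
      have e2 : ∑ e : Tor L × Tor L, (if ρ < tnorm (e.2 - e.1) then c e * g e.1 else 0) =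
          ∑ x, ∑ y, (if ρ < tnorm (y - x) then c (x, y) * g x else 0) :=
        Fintype.sum_prod_type (fun e : Tor L × Tor L => if ρ < tnorm (e.2 - e.1) then c e * g e.1 else 0)
      have e3 : ∑ e : Tor L × Tor L, (if ρ < tnorm (e.2 - e.1) then c e * g e.2 else 0) =
          ∑ x, ∑ y, (if ρ < tnorm (x - y) then c (y, x) * g x else 0) :=
        Fintype.sum_prod_type_right (fun e : Tor L × Tor L => if ρ < tnorm (e.2 - e.1) then c e * g e.2 else 0)
      rw [e1, e2, e3, ← Finset.sum_add_distrib]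
      refine Finset.sum_congr rfl fun x _ => ?_
      rw [← Finset.sum_add_distrib, Finset.mul_sum]
      refine Finset.sum_congr rfl fun y _ => ?_
      show (if ρ < tnorm (y - x) then c (x, y) * g x else 0) +
        (if ρ < tnorm (x - y) then c (y, x) * g x else 0) = _
      rw [tnorm_sub_comm x y]
      split_ifs <;> ring
    rw [h1, Finset.mul_sum]
    refine Finset.sum_le_sum fun x _ => ?_
    rw [mul_comm]
    apply mul_le_mul_of_nonneg_right _ (hg0 x)
    have hρ1 : 0 < 1 + ρ := by linarith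
    have h2 : ∑ y, (if ρ < tnorm (y - x) then c (x, y) + c (y, x) else 0) ≤
        ∑ y, ((c (x, y) + c (y, x)) * (1 + tnorm (y - x)) ^ q) * (1 + ρ) ^ (-q) := by
      refine Finset.sum_le_sum fun y _ => ?_
      have h3 : 0 ≤ c (x, y) + c (y, x) := add_nonneg (hc.nonneg _) (hc.nonneg _)
      have h4 : 0 ≤ (1 + tnorm (y - x)) ^ q := Real.rpow_nonneg (by linarith [tnorm_nonneg (y - x)]) _
      have h5 : 0 < (1 + ρ) ^ (-q) := Real.rpow_pos_of_pos hρ1 _
      split_ifs with h6
      · have h7 : (1 + ρ) ^ q ≤ (1 + tnorm (y - x)) ^ q :=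
          Real.rpow_le_rpow hρ1.le (by linarith) hq
        have h8 : (1 + ρ) ^ q * (1 + ρ) ^ (-q) = 1 := by
          rw [← Real.rpow_add hρ1, add_neg_cancel, Real.rpow_zero]
        have h9 : 1 ≤ (1 + tnorm (y - x)) ^ q * (1 + ρ) ^ (-q) := by
          calc (1 : ℝ) = (1 + ρ) ^ q * (1 + ρ) ^ (-q) := h8.symm
            _ ≤ _ := mul_le_mul_of_nonneg_right h7 h5.le
        calc c (x, y) + c (y, x) = (c (x, y) + c (y, x)) * 1 := by ring
          _ ≤ (c (x, y) + c (y, x)) * ((1 + tnorm (y - x)) ^ q * (1 + ρ) ^ (-q)) :=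
            mul_le_mul_of_nonneg_left h9 h3
          _ = _ := by ring
      · positivity
    rw [← Finset.sum_mul] at h2
    refine h2.trans (mul_le_mul_of_nonneg_right (hc.mom x) (Real.rpow_nonneg hρ1.le _))
  have hgs : ∑ x, g x = ∑ x ∈ ball p R, (1 + tnorm (x - p)) ^ (-δ) := by
    rw [← Finset.sum_filter]
    congr 1
    ext x
    simp
  have hρ0 : 0 ≤ (1 + ρ) ^ (-q) := Real.rpow_nonneg (by linarith) _
  have hR0 : 0 ≤ (1 + R) ^ (2 - δ) := Real.rpow_nonneg (by linarith) _
  calc ∑ e ∈ D, wt A δ M R p c e ≤ ∑ e ∈ D, C₀ * (c e * (g e.1 + g e.2)) :=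
        Finset.sum_le_sum fun e _ => hw e
    _ = C₀ * ∑ e ∈ D, c e * (g e.1 + g e.2) := by rw [Finset.mul_sum]
    _ ≤ C₀ * (A * (1 + ρ) ^ (-q) * (K * (1 + R) ^ (2 - δ))) := by
      apply mul_le_mul_of_nonneg_left _ hC₀0
      refine hsum.trans ?_
      apply mul_le_mul_of_nonneg_left _ (mul_nonneg hA hρ0)
      rw [hgs]
      exact hKb L p R (by linarith)
    _ ≤ (C₀ * A * K + 1) * (1 + R) ^ (2 - δ) * (1 + ρ) ^ (-q) := by
      have := mul_nonneg hR0 hρ0
      nlinarith

end Pool.Agent.H643.PL
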