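import Pool.Agent.H992.PL.Defs2

/-! PLc: removal of all the edges longer than `ρ` (`S_Remove2` from `S_Edge` and `S_Ball`). -/

set_option autoImplicit false

noncomputable section

namespace Pool.Agent.H404.PL

open MeasureTheory Pool.Agent.H5R2.ON Pool.Agent.H717R2.ON3 Pool.Agent.H983R2.ONJ
  Pool.Agent.H992.PL

theorem abs_cc_le {N : ℕ} (i : Fin N) (s : Sph N) : |cc i s| ≤ 1 := by
  have h := PiLp.norm_apply_le (s : EuclideanSpace ℝ (Fin N)) i
  have h1 : ‖(s : EuclideanSpace ℝ (Fin N))‖ = 1 := by simp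
  rw [h1, Real.norm_eq_abs] at h
  exact h

theorem continuous_cc {N L : ℕ} (i : Fin N) (p : Tor L) :
    Continuous (fun S : Conf N L => cc i (S p)) := by
  unfold cc
  have h1 : Continuous (fun S : Conf N L => ((S p : Sph N) : EuclideanSpace ℝ (Fin N))) :=
    continuous_subtype_val.comp (continuous_apply p)
  exact (EuclideanSpace.proj (𝕜 := ℝ) i).continuous.comp h1

theorem mass_le {N L : ℕ} [NeZero L] (hN : N ≠ 0) (c : Tor L × Tor L → ℝ) (Λ : Finset (Tor L))
    (η : Conf N L) (F : Conf N L → ℝ) (hF : Measurable F) (h1 : ∀ S, |F S| ≤ 1) :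
    |gH (pS c) Λ η F| ≤ 1 := by
  have hc : Continuous (pS c : Conf N L → ℝ) := continuous_pS c
  rw [abs_le]
  constructor
  · have h2 := gH_mono hN hc Λ η (F := fun _ => (-1 : ℝ)) (G := F) measurable_const hF 1
      (fun _ => by simp) h1 (fun S => (abs_le.1 (h1 S)).1)
    rwa [gH_const hN hc Λ η (-1)] at h2
  · have h2 := gH_mono hN hc Λ η (F := F) (G := fun _ => (1 : ℝ)) hF measurable_const 1
      h1 (fun _ => by simp) (fun S => (abs_le.1 (h1 S)).2)
    rwa [gH_const hN hc Λ η 1] at h2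

open Classical in
/-- the couplings outside of the set `s` of edges -/
def dl {L : ℕ} (s : Finset (Tor L × Tor L)) (c : Tor L × Tor L → ℝ) (e : Tor L × Tor L) : ℝ :=
  if e ∈ s then 0 else c e

open Classical in
theorem del_dl {L : ℕ} (s : Finset (Tor L × Tor L)) (c : Tor L × Tor L → ℝ)
    (e : Tor L × Tor L) : del e (dl s c) = dl (insert e s) c := by
  funext f
  unfold del dl
  by_cases h1 : f = e
  · simp [h1]
  · simp [h1]

theorem dl_empty {L : ℕ} (c : Tor L × Tor L → ℝ) : dl ∅ c = c := by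
  funext f
  unfold dl
  simp

open Classical in
theorem tele {L : ℕ} (c : Tor L × Tor L → ℝ) (f : (Tor L × Tor L → ℝ) → ℝ)
    (b : Tor L × Tor L → ℝ) (hb : ∀ (s : Finset (Tor L × Tor L)) (e : Tor L × Tor L),
      |f (dl s c) - f (del e (dl s c))| ≤ b e) (s : Finset (Tor L × Tor L)) :
    |f c - f (dl s c)| ≤ ∑ e ∈ s, b e := by
  induction s using Finset.induction_on with
  | empty => rw [dl_empty]; simp
  | insert e s he ih =>
    rw [Finset.sum_insert he]
    have h1 := hb s e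
    rw [del_dl] at h1
    have h2 : f c - f (dl (insert e s) c) =
        (f (dl s c) - f (dl (insert e s) c)) + (f c - f (dl s c)) := by ring
    rw [h2]
    exact (abs_add_le _ _).trans (add_le_add h1 ih)

theorem mom0 {L : ℕ} [NeZero L] {A : ℝ} {c₀ c : Tor L × Tor L → ℝ} (h0 : Mom2 A c₀)
    (hc : ∀ e, 0 ≤ c e ∧ c e ≤ c₀ e) : Mom A 0 c := by
  refine ⟨fun e => (hc e).1, fun x => ?_⟩
  refine (Finset.sum_le_sum fun y _ => ?_).trans (h0.mom x)
  rw [Real.rpow_zero]
  have h1 := tnorm_nonneg (y - x)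
  have h2 : (1 : ℝ) ≤ (1 + tnorm (y - x)) ^ 2 := by nlinarith
  have h3 := (hc (x, y)).2
  have h4 := (hc (y, x)).2
  have h5 := h0.nonneg (x, y)
  have h6 := h0.nonneg (y, x)
  exact mul_le_mul (add_le_add h3 h4) h2 zero_le_one (add_nonneg h5 h6)

/-- the weight of a site -/
def gw {L : ℕ} [NeZero L] (δ : ℝ) (p : Tor L) (R : ℝ) (x : Tor L) : ℝ :=
  if tnorm (x - p) ≤ R then (1 + tnorm (x - p)) ^ (-δ) else 0

theorem gw_nonneg {L : ℕ} [NeZero L] (δ : ℝ) (p : Tor L) (R : ℝ) (x : Tor L) :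
    0 ≤ gw δ p R x := by
  unfold gw
  have h1 := tnorm_nonneg (x - p)
  split_ifs
  · positivity
  · exact le_rfl

theorem gw_min {L : ℕ} [NeZero L] (δ : ℝ) (p : Tor L) (R : ℝ) (e : Tor L × Tor L)
    (h : min (tnorm (e.1 - p)) (tnorm (e.2 - p)) ≤ R) :
    (1 + min (tnorm (e.1 - p)) (tnorm (e.2 - p))) ^ (-δ) ≤ gw δ p R e.1 + gw δ p R e.2 := by
  have a1 := gw_nonneg δ p R e.1
  have a2 := gw_nonneg δ p R e.2
  rcases le_total (tnorm (e.1 - p)) (tnorm (e.2 - p)) with h1 | h1
  · rw [min_eq_left h1] at h ⊢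
    have h2 : gw δ p R e.1 = (1 + tnorm (e.1 - p)) ^ (-δ) := by
      unfold gw
      rw [if_pos h]
    linarith
  · rw [min_eq_right h1] at h ⊢
    have h2 : gw δ p R e.2 = (1 + tnorm (e.2 - p)) ^ (-δ) := by
      unfold gw
      rw [if_pos h]
    linarith

theorem rpow_cmp {δ d r : ℝ} (hδ : 0 ≤ δ) (hd : 0 ≤ d) (hr : 1 + d ≤ 20 * (1 + r)) :
    (1 + r) ^ (-δ) ≤ 20 ^ δ * (1 + d) ^ (-δ) := by
  have h1 : 0 < (1 + d) / 20 := by positivity
  have h2 : (1 + d) / 20 ≤ 1 + r := by
    rw [div_le_iff₀ (by norm_num)]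
    linarith
  have h3 := Real.rpow_le_rpow_of_nonpos h1 h2 (neg_nonpos.2 hδ)
  rw [Real.div_rpow (by positivity) (by norm_num), Real.rpow_neg (by norm_num : (0:ℝ) ≤ 20),
    div_inv_eq_mul] at h3
  linarith

/-- the sum of the bounds -/
theorem sum_bound {L : ℕ} [NeZero L] (δ τ ρ R : ℝ) (c₀ : Tor L × Tor L → ℝ)
    (hτ : ∀ x, ∑ y, (if ρ < tnorm (y - x) then c₀ (x, y) + c₀ (y, x) else 0) ≤ τ) (p : Tor L) :
    ∑ e ∈ Finset.univ.filter (fun e : Tor L × Tor L => ρ < tnorm (e.2 - e.1)),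
      c₀ e * (gw δ p R e.1 + gw δ p R e.2) ≤
        τ * ∑ x ∈ ball p R, (1 + tnorm (x - p)) ^ (-δ) := by
  have e1 : ∑ e ∈ Finset.univ.filter (fun e : Tor L × Tor L => ρ < tnorm (e.2 - e.1)),
      c₀ e * (gw δ p R e.1 + gw δ p R e.2) =
      ∑ e : Tor L × Tor L, (if ρ < tnorm (e.2 - e.1) then c₀ e * gw δ p R e.1 else 0) +
      ∑ e : Tor L × Tor L, (if ρ < tnorm (e.2 - e.1) then c₀ e * gw δ p R e.2 else 0) := by
    rw [Finset.sum_filter, ← Finset.sum_add_distrib]
    refine Finset.sum_congr rfl fun e _ => ?_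
    split_ifs
    · ring
    · rw [add_zero]
  have e2 : ∑ e : Tor L × Tor L, (if ρ < tnorm (e.2 - e.1) then c₀ e * gw δ p R e.1 else 0) =
      ∑ x : Tor L, gw δ p R x * ∑ y, (if ρ < tnorm (y - x) then c₀ (x, y) else 0) := by
    rw [Fintype.sum_prod_type]
    refine Finset.sum_congr rfl fun x _ => ?_
    rw [Finset.mul_sum]
    refine Finset.sum_congr rfl fun y _ => ?_
    simp only
    split_ifs
    · ring
    · ring
  have e3 : ∑ e : Tor L × Tor L, (if ρ < tnorm (e.2 - e.1) then c₀ e * gw δ p R e.2 else 0) =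
      ∑ x : Tor L, gw δ p R x * ∑ y, (if ρ < tnorm (y - x) then c₀ (y, x) else 0) := by
    rw [Fintype.sum_prod_type_right]
    refine Finset.sum_congr rfl fun x _ => ?_
    rw [Finset.mul_sum]
    refine Finset.sum_congr rfl fun y _ => ?_
    simp only
    rw [tnorm_sub_comm x y]
    split_ifs
    · ring
    · ring
  rw [e1, e2, e3, ← Finset.sum_add_distrib]
  have e4 : τ * ∑ x ∈ ball p R, (1 + tnorm (x - p)) ^ (-δ) = ∑ x : Tor L, gw δ p R x * τ := by
    unfold ball
    rw [Finset.sum_filter, Finset.mul_sum]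
    refine Finset.sum_congr rfl fun x _ => ?_
    unfold gw
    ring
  rw [e4]
  refine Finset.sum_le_sum fun x _ => ?_
  rw [← mul_add, ← Finset.sum_add_distrib]
  refine mul_le_mul_of_nonneg_left (le_trans (le_of_eq ?_) (hτ x)) (gw_nonneg δ p R x)
  refine Finset.sum_congr rfl fun y _ => ?_
  split_ifs
  · rfl
  · rw [add_zero]

/-- PLc: removal of all the edges longer than `ρ` -/
theorem remove2 (hE : S_Edge) (hB : S_Ball) : S_Remove2 := by
  classical
  intro A δ hA hδ hδ2
  obtain ⟨K, hK, hball⟩ := hB δ hδ hδ2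
  refine ⟨2 * Real.exp (2 * A) * 20 ^ δ * K, by positivity, ?_⟩
  intro N hN L _ c₀ h0 R ρ τ M hR hρ hτ0 hM hτ hinf c hc p η i
  -- the bound of one edge
  have hb : ∀ (s : Finset (Tor L × Tor L)) (e : Tor L × Tor L),
      |gH (pS (dl s c)) (ball p R) η (fun S => cc i (S p)) -
        gH (pS (del e (dl s c))) (ball p R) η (fun S => cc i (S p))| ≤
      2 * Real.exp (2 * A) * 20 ^ δ * M * (c₀ e * (gw δ p R e.1 + gw δ p R e.2)) := by
    intro s e
    have hdom : ∀ f, 0 ≤ dl s c f ∧ dl s c f ≤ c₀ f := by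
      intro f
      unfold dl
      split_ifs
      · exact ⟨le_rfl, h0.nonneg f⟩
      · exact hc f
    have hdom' : ∀ f, 0 ≤ del e (dl s c) f ∧ del e (dl s c) f ≤ c₀ f := by
      intro f
      unfold del
      split_ifs
      · exact ⟨le_rfl, h0.nonneg f⟩
      · exact hdom f
    have hmom : Mom A 0 (dl s c) := mom0 h0 hdom
    have n1 := tnorm_nonneg (e.1 - p)
    have n2 := tnorm_nonneg (e.2 - p)
    have g1 := gw_nonneg δ p R e.1
    have g2 := gw_nonneg δ p R e.2
    have c0 := h0.nonneg e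
    set d := min (tnorm (e.1 - p)) (tnorm (e.2 - p)) with hd
    have hd0 : 0 ≤ d := le_min n1 n2
    have hd1 : d ≤ tnorm (e.1 - p) := min_le_left _ _
    have hd2 : d ≤ tnorm (e.2 - p) := min_le_right _ _
    have hpos : (0 : ℝ) ≤ 2 * Real.exp (2 * A) * 20 ^ δ * M *
        (c₀ e * (gw δ p R e.1 + gw δ p R e.2)) := by
      have : 0 ≤ M := by linarith
      positivity
    -- the choice of the radius
    obtain ⟨r, m, hr1, hm0, hr2, hr3, hr4⟩ : ∃ r m : ℝ, r ≤ R ∧ 0 ≤ m ∧ r < d ∧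
        (∀ η' : Conf N L, |gH (pS (del e (dl s c))) (ball p r) η' (fun S => cc i (S p))| ≤ m) ∧
        (d ≤ R → m ≤ M * (20 ^ δ * (1 + d) ^ (-δ))) := by
      rcases hd0.eq_or_lt with h1 | h1
      · refine ⟨-1, 1, by linarith, zero_le_one, by linarith, fun η' => ?_, fun _ => ?_⟩
        · exact mass_le hN _ _ _ _ (continuous_cc i p).measurable (fun S => abs_cc_le i (S p))
        · rw [← h1, add_zero, Real.one_rpow, mul_one]
          have : (1 : ℝ) ≤ 20 ^ δ := Real.one_le_rpow (by norm_num) hδ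
          nlinarith
      · refine ⟨min (d / 2) (R / 10), M * (1 + min (d / 2) (R / 10)) ^ (-δ),
          (min_le_right _ _).trans (by linarith), ?_, (min_le_left _ _).trans_lt (by linarith),
          fun η' => ?_, fun hdR => ?_⟩
        · have : 0 ≤ M := by linarith
          have : 0 ≤ min (d / 2) (R / 10) := le_min (by linarith) (by linarith)
          positivity
        · exact hinf _ (le_min (by linarith) (by linarith)) (min_le_right _ _) _ hdom' p η' i
        · refine mul_le_mul_of_nonneg_left (rpow_cmp hδ hd0 ?_) (by linarith)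
          rcases min_choice (d / 2) (R / 10) with h2 | h2
          · rw [h2]; linarith
          · rw [h2]; linarith
    have hnot1 : e.1 ∉ ball p r := by
      rw [mem_ball, not_le]
      exact hr2.trans_le hd1
    have hnot2 : e.2 ∉ ball p r := by
      rw [mem_ball, not_le]
      exact hr2.trans_le hd2
    have h1 := hE N hN A 0 le_rfl L (dl s c) hmom e p η i r R m hr1 hm0 hnot1 hnot2 hr3
    refine h1.trans ?_
    split_ifs with h2
    · have hdR : d ≤ R := by
        rcases h2 with h2 | h2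
        · exact hd1.trans (mem_ball.1 h2)
        · exact hd2.trans (mem_ball.1 h2)
      have h3 := hr4 hdR
      have h4 := gw_min δ p R e hdR
      have h5 : dl s c e ≤ c₀ e := (hdom e).2
      have h6 : m ≤ M * (20 ^ δ * (gw δ p R e.1 + gw δ p R e.2)) := by
        refine h3.trans ?_
        have : 0 ≤ M := by linarith
        gcongr
      calc 2 * Real.exp (2 * A) * dl s c e * m
          ≤ 2 * Real.exp (2 * A) * c₀ e * (M * (20 ^ δ * (gw δ p R e.1 + gw δ p R e.2))) := by
            gcongr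
        _ = _ := by ring
    · exact hpos
  have h1 := tele c (fun c' => gH (pS c') (ball p R) η (fun S => cc i (S p))) _ hb
    (Finset.univ.filter (fun e : Tor L × Tor L => ρ < tnorm (e.2 - e.1)))
  have h2 : dl (Finset.univ.filter (fun e : Tor L × Tor L => ρ < tnorm (e.2 - e.1))) c =
      cut ρ c := by
    funext e
    unfold dl cut
    by_cases h3 : tnorm (e.2 - e.1) ≤ ρ
    · rw [if_pos h3, if_neg]
      simpa using h3
    · rw [if_neg h3, if_pos]
      simpa using h3
  rw [h2] at h1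
  refine h1.trans ?_
  rw [← Finset.mul_sum]
  have h3 := sum_bound δ τ ρ R c₀ hτ p
  have h4 := hball L p R (by linarith)
  calc 2 * Real.exp (2 * A) * 20 ^ δ * M * ∑ e ∈ Finset.univ.filter
        (fun e : Tor L × Tor L => ρ < tnorm (e.2 - e.1)), c₀ e * (gw δ p R e.1 + gw δ p R e.2)
      ≤ 2 * Real.exp (2 * A) * 20 ^ δ * M * (τ * (K * (1 + R) ^ (2 - δ))) := by
        have : 0 ≤ M := by linarith
        refine mul_le_mul_of_nonneg_left (h3.trans ?_) (by positivity)
        exact mul_le_mul_of_nonneg_left h4 hτ0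
    _ = _ := by ring

end Pool.Agent.H404.PL
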