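import Pool.Agent.H992.PL.Defs2

/-! # Task PLd: the exit inequality with a small kernel (helper338) -/

set_option autoImplicit false

noncomputable section

namespace Pool.Agent.H338.PL

open MeasureTheory MvPolynomial Filter Pool.Agent.H5R2.ON Pool.Agent.H717R2.ON3
  Pool.Agent.H983R2.ONJ Pool.Agent.H992.PL

/-- number of the scales `n + j` between `s` and `t` -/
theorem count_le (n : ℕ) (s t D : ℝ) (hD : 0 ≤ D) (h : t - s ≤ D) :
    ∑ j ∈ Finset.range n, (if s ≤ (n : ℝ) + j ∧ (n : ℝ) + j < t then (1 : ℝ) else 0) ≤ D + 1 := by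
  classical
  rw [← Finset.sum_filter, Finset.sum_const, nsmul_eq_mul, mul_one]
  have hsub : (Finset.range n).filter (fun j : ℕ => s ≤ (n : ℝ) + j ∧ (n : ℝ) + j < t) ⊆
      Finset.Ico ⌈s - n⌉₊ ⌈t - n⌉₊ := by
    intro j hj
    obtain ⟨-, h1, h2⟩ := Finset.mem_filter.1 hj
    rw [Finset.mem_Ico, Nat.ceil_le, Nat.lt_ceil]
    constructor <;> linarith
  have h1 := Finset.card_le_card hsub
  rw [Nat.card_Ico] at h1
  have h2 : ((⌈t - n⌉₊ - ⌈s - n⌉₊ : ℕ) : ℝ) ≤ D + 1 := by
    by_cases h3 : ⌈s - n⌉₊ ≤ ⌈t - n⌉₊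
    · rw [Nat.cast_sub h3]
      have h4 := Nat.le_ceil (s - n)
      by_cases h5 : 0 ≤ t - n
      · have h6 := Nat.ceil_lt_add_one h5
        linarith
      · push Not at h5
        have h6 : ⌈t - (n : ℝ)⌉₊ = 0 := Nat.ceil_eq_zero.2 h5.le
        have h7 : (0 : ℝ) ≤ (⌈s - (n : ℝ)⌉₊ : ℝ) := Nat.cast_nonneg _
        rw [h6, Nat.cast_zero]
        linarith
    · push Not at h3
      rw [Nat.sub_eq_zero_of_le h3.le, Nat.cast_zero]
      linarith
  exact (Nat.cast_le.2 h1).trans h2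

/-- the choice of the scale -/
theorem exists_n (C P ε η δ : ℝ) (T : ℝ → ℝ) (hε : 0 < ε) (hη : 0 < η) (hδ : 1 < δ)
    (hT : Tendsto T atTop (nhds 0)) : ∃ n : ℕ, 4 ≤ n ∧ (∀ ρ : ℝ, (n : ℝ) / 2 ≤ ρ → T ρ ≤ η) ∧
      C * (1 + (n : ℝ) / 4) ^ (-δ) ≤ 1 ∧
      P * ((n : ℝ) * (C * (1 + (n : ℝ) / 4) ^ (-δ))) ≤ ε := by
  have e0 : Tendsto (fun n : ℕ => 1 + (n : ℝ) / 4) atTop atTop :=
    tendsto_atTop_add_const_left _ _ (tendsto_natCast_atTop_atTop.atTop_div_const (by norm_num))
  have e1 : Tendsto (fun n : ℕ => C * (1 + (n : ℝ) / 4) ^ (-δ)) atTop (nhds 0) := by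
    have h := ((tendsto_rpow_neg_atTop (by linarith : 0 < δ)).comp e0).const_mul C
    rw [mul_zero] at h
    exact h
  have e2 : Tendsto (fun n : ℕ => P * ((n : ℝ) * (C * (1 + (n : ℝ) / 4) ^ (-δ)))) atTop
      (nhds 0) := by
    have h1 := ((tendsto_rpow_neg_atTop (by linarith : 0 < δ - 1)).comp e0).const_mul (4 * C)
    have h2 := e1.const_mul (-4)
    have h3 := (h1.add h2).const_mul P
    rw [mul_zero, mul_zero, add_zero, mul_zero] at h3
    refine h3.congr fun n => ?_
    have hp : (0 : ℝ) < 1 + (n : ℝ) / 4 := by positivity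
    have h4 : (1 + (n : ℝ) / 4) ^ (-(δ - 1)) = (1 + (n : ℝ) / 4) * (1 + (n : ℝ) / 4) ^ (-δ) := by
      have h5 : -(δ - 1) = 1 + (-δ) := by ring
      rw [h5, Real.rpow_add hp, Real.rpow_one]
    simp only [Function.comp]
    rw [h4]
    ring
  have hT2 : ∀ᶠ x : ℝ in atTop, T x < η := hT.eventually (gt_mem_nhds hη)
  obtain ⟨x0, hx0⟩ := eventually_atTop.1 hT2
  have e3 : ∀ᶠ n : ℕ in atTop, x0 ≤ (n : ℝ) / 2 :=
    (tendsto_natCast_atTop_atTop.atTop_div_const (by norm_num)).eventually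
      (eventually_ge_atTop x0)
  obtain ⟨n, ⟨⟨h1, h2⟩, h3⟩, h4⟩ := (((e1.eventually (gt_mem_nhds one_pos)).and
    (e2.eventually (gt_mem_nhds hε))).and e3 |>.and (eventually_ge_atTop (4 : ℕ))).exists
  exact ⟨n, h4, fun ρ hρ => (hx0 ρ (h3.trans hρ)).le, h1.le, h2.le⟩

theorem mem_ball' {L : ℕ} [NeZero L] {p x : Tor L} {R : ℝ} :
    x ∈ ball p R ↔ tnorm (x - p) ≤ R := by
  simp only [ball, Finset.mem_filter, Finset.mem_univ, true_and]

/-- the flow out of one of the balls is small -/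
theorem exists_scale {A K0 : ℝ} (hK0 : 0 < K0)
    (hK : ∀ (L : ℕ) [NeZero L] (x : Tor L) (ρ : ℝ), 0 ≤ ρ →
      ((Finset.univ.filter fun z : Tor L => tnorm (z - x) ≤ ρ).card : ℝ) ≤ K0 * (1 + ρ) ^ 2)
    (hA : 0 ≤ A) {n : ℕ} (hn : 1 ≤ n) (L : ℕ) [NeZero L] (c : Tor L × Tor L → ℝ) (hc : Mom2 A c)
    (p : Tor L) : ∃ j : ℕ, j < n ∧
      ∑ w ∈ ball p ((n : ℝ) + j), ∑ w' ∈ (ball p ((n : ℝ) + j))ᶜ, 2 * (c (w, w') + c (w', w)) ≤
        18 * A * K0 * n := by
  classical
  have hn0 : (0 : ℝ) < n := by exact_mod_cast hn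
  have hn1 : (1 : ℝ) ≤ n := by exact_mod_cast hn
  have hg : ∀ w w', 0 ≤ 2 * (c (w, w') + c (w', w)) := fun w w' => by
    have := hc.nonneg (w, w')
    have := hc.nonneg (w', w)
    linarith
  have hS : ∀ j : ℕ, ∑ w ∈ ball p ((n : ℝ) + j), ∑ w' ∈ (ball p ((n : ℝ) + j))ᶜ,
      2 * (c (w, w') + c (w', w)) = ∑ w : Tor L, ∑ w' : Tor L, 2 * (c (w, w') + c (w', w)) *
        (if tnorm (w - p) ≤ (n : ℝ) + j ∧ (n : ℝ) + j < tnorm (w' - p) then (1 : ℝ) else 0) := by
    intro j
    unfold ball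
    rw [Finset.sum_filter]
    refine Finset.sum_congr rfl fun w _ => ?_
    split_ifs with h1
    · rw [Finset.compl_filter, Finset.sum_filter]
      refine Finset.sum_congr rfl fun w' _ => ?_
      by_cases h2 : tnorm (w' - p) ≤ (n : ℝ) + j
      · rw [if_neg (not_not.2 h2), if_neg (fun h => absurd h.2 (not_lt.2 h2)), mul_zero]
      · rw [if_pos h2, if_pos ⟨h1, not_le.1 h2⟩, mul_one]
    · symm
      refine Finset.sum_eq_zero fun w' _ => ?_
      rw [if_neg (fun h => h1 h.1), mul_zero]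
  have htot : ∑ j ∈ Finset.range n, (∑ w ∈ ball p ((n : ℝ) + j), ∑ w' ∈ (ball p ((n : ℝ) + j))ᶜ,
      2 * (c (w, w') + c (w', w))) ≤ ∑ _j ∈ Finset.range n, 18 * A * K0 * n := by
    have h1 : ∑ j ∈ Finset.range n, (∑ w ∈ ball p ((n : ℝ) + j),
        ∑ w' ∈ (ball p ((n : ℝ) + j))ᶜ, 2 * (c (w, w') + c (w', w))) =
        ∑ w : Tor L, ∑ w' : Tor L, 2 * (c (w, w') + c (w', w)) *
          ∑ j ∈ Finset.range n, (if tnorm (w - p) ≤ (n : ℝ) + j ∧
            (n : ℝ) + j < tnorm (w' - p) then (1 : ℝ) else 0) := by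
      rw [Finset.sum_congr rfl fun j _ => hS j, Finset.sum_comm]
      refine Finset.sum_congr rfl fun w _ => ?_
      rw [Finset.sum_comm]
      refine Finset.sum_congr rfl fun w' _ => ?_
      rw [Finset.mul_sum]
    rw [h1]
    have h2 : ∀ w : Tor L, ∑ w' : Tor L, 2 * (c (w, w') + c (w', w)) *
          ∑ j ∈ Finset.range n, (if tnorm (w - p) ≤ (n : ℝ) + j ∧
            (n : ℝ) + j < tnorm (w' - p) then (1 : ℝ) else 0) ≤
        if tnorm (w - p) ≤ 2 * n then 2 * A else 0 := by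
      intro w
      split_ifs with hw
      · calc ∑ w' : Tor L, 2 * (c (w, w') + c (w', w)) *
          ∑ j ∈ Finset.range n, (if tnorm (w - p) ≤ (n : ℝ) + j ∧
            (n : ℝ) + j < tnorm (w' - p) then (1 : ℝ) else 0)
            ≤ ∑ w' : Tor L, 2 * ((c (w, w') + c (w', w)) * (1 + tnorm (w' - w)) ^ 2) := by
              refine Finset.sum_le_sum fun w' _ => ?_
              rw [← mul_assoc]
              refine mul_le_mul_of_nonneg_left ?_ (hg w w')
              have h3 := tnorm_nonneg (w' - w)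
              have h4 := tnorm_add_le (w' - w) (w - p)
              rw [sub_add_sub_cancel] at h4
              refine (count_le n _ _ (tnorm (w' - w)) h3 (by linarith)).trans ?_
              nlinarith
          _ = 2 * ∑ w' : Tor L, (c (w, w') + c (w', w)) * (1 + tnorm (w' - w)) ^ 2 := by
              rw [Finset.mul_sum]
          _ ≤ 2 * A := mul_le_mul_of_nonneg_left (hc.mom w) (by norm_num)
      · refine le_of_eq (Finset.sum_eq_zero fun w' _ => ?_)
        rw [Finset.sum_eq_zero fun j hj => ?_, mul_zero]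
        refine if_neg fun h => hw ?_
        have h3 : (j : ℝ) < n := by exact_mod_cast Finset.mem_range.1 hj
        linarith [h.1]
    refine (Finset.sum_le_sum fun w _ => h2 w).trans ?_
    rw [← Finset.sum_filter, Finset.sum_const, nsmul_eq_mul, Finset.sum_const, nsmul_eq_mul,
      Finset.card_range]
    have h3 := hK L p (2 * n) (by positivity)
    calc ((Finset.univ.filter fun z : Tor L => tnorm (z - p) ≤ 2 * n).card : ℝ) * (2 * A)
        ≤ K0 * (1 + 2 * n) ^ 2 * (2 * A) := mul_le_mul_of_nonneg_right h3 (by positivity)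
      _ ≤ K0 * (3 * n) ^ 2 * (2 * A) := by
          refine mul_le_mul_of_nonneg_right (mul_le_mul_of_nonneg_left ?_ hK0.le) (by positivity)
          exact pow_le_pow_left₀ (by positivity) (by linarith) 2
      _ = n * (18 * A * K0 * n) := by ring
  obtain ⟨j, hj, hj'⟩ := Finset.exists_le_of_sum_le
    (Finset.nonempty_range_iff.2 (by omega : n ≠ 0)) htot
  exact ⟨j, Finset.mem_range.1 hj, hj'⟩

/-- The exit inequality with a small kernel. -/
theorem renew : S_Renew := by
  classical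
  intro N hN A ε C δ T hA hε hC hδ hT
  have hN0 : N ≠ 0 := by omega
  obtain ⟨K0, hK0, hK⟩ := card_ball_le
  obtain ⟨n, hn4, hTn, hm1, hP⟩ := exists_n C (18 * A * K0) (ε / 2) (ε / (4 * K0)) δ T
    (by positivity) (by positivity) hδ hT
  have hn4' : (4 : ℝ) ≤ n := by exact_mod_cast hn4
  refine ⟨n, by linarith, ?_⟩
  intro L _ hL c hc hTail hInf i p
  have hc0 : ∀ e, 0 ≤ c e := hc.nonneg
  obtain ⟨j, hjn, hj⟩ := exists_scale hK0 hK hA (by omega : 1 ≤ n) L c hc p
  obtain ⟨R, hR⟩ : ∃ R : ℝ, R = (n : ℝ) + j := ⟨_, rfl⟩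
  rw [← hR] at hj
  have hjn' : (j : ℝ) < n := by exact_mod_cast hjn
  have hj0 : (0 : ℝ) ≤ j := Nat.cast_nonneg _
  have hRn : (n : ℝ) ≤ R := by linarith
  have hR2 : R ≤ 2 * n := by linarith
  have hR0 : 0 < R := by linarith
  obtain ⟨m, hm⟩ : ∃ m : ℝ, m = C * (1 + R / 4) ^ (-δ) := ⟨_, rfl⟩
  have hm0 : 0 ≤ m := by
    rw [hm]
    exact mul_nonneg hC (Real.rpow_nonneg (by positivity) _)
  have hmn : m ≤ C * (1 + (n : ℝ) / 4) ^ (-δ) := by
    rw [hm]
    refine mul_le_mul_of_nonneg_left ?_ hC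
    exact Real.rpow_le_rpow_of_nonpos (by positivity) (by linarith) (by linarith)
  have hm1' : m ≤ 1 := hmn.trans hm1
  obtain ⟨f, hf⟩ : ∃ f : Tor L → ℝ, f = fun w => if tnorm (w - p) ≤ R / 2 then 1 else m :=
    ⟨_, rfl⟩
  have hf0 : ∀ w, 0 ≤ f w := fun w => by
    rw [hf]
    simp only
    split_ifs
    · exact zero_le_one
    · exact hm0
  have hf1 : ∀ w, f w ≤ 1 := fun w => by
    rw [hf]
    simp only
    split_ifs
    · exact le_rfl
    · exact hm1'
  have hg : ∀ w w', 0 ≤ 2 * (c (w, w') + c (w', w)) := fun w w' => by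
    have := hc0 (w, w')
    have := hc0 (w', w)
    linarith
  obtain ⟨k, hk⟩ : ∃ k : Tor L → ℝ, k = fun w' => if w' ∈ ball p R then 0 else
    ∑ w ∈ ball p R, 2 * (c (w, w') + c (w', w)) * f w := ⟨_, rfl⟩
  have hksum : ∀ h : Tor L → ℝ, ∑ w', k w' * h w' = ∑ w ∈ ball p R, ∑ w' ∈ (ball p R)ᶜ,
      2 * (c (w, w') + c (w', w)) * f w * h w' := by
    intro h
    rw [← Finset.sum_add_sum_compl (ball p R), Finset.sum_eq_zero, zero_add, Finset.sum_comm]
    · refine Finset.sum_congr rfl fun w' hw' => ?_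
      rw [hk]
      simp only
      rw [if_neg (Finset.mem_compl.1 hw'), Finset.sum_mul]
    · intro w' hw'
      rw [hk]
      simp only
      rw [if_pos hw', zero_mul]
  refine ⟨R, hRn, hR2, k, fun w => ?_, ?_, fun w => ?_, fun y hy => ?_⟩
  · rw [hk]
    simp only
    split_ifs
    · exact le_rfl
    · exact Finset.sum_nonneg fun v _ => mul_nonneg (hg v w) (hf0 v)
  · have h1 := hksum fun _ => 1
    simp only [mul_one] at h1
    rw [h1]
    have h2 : ∀ w ∈ ball p R, ∑ w' ∈ (ball p R)ᶜ, 2 * (c (w, w') + c (w', w)) * f w ≤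
        (if tnorm (w - p) ≤ R / 2 then ε / (2 * K0 * (1 + R / 2) ^ 2) else 0) +
          m * ∑ w' ∈ (ball p R)ᶜ, 2 * (c (w, w') + c (w', w)) := by
      intro w hw
      by_cases h3 : tnorm (w - p) ≤ R / 2
      · rw [if_pos h3]
        have hfw : f w = 1 := by rw [hf]; exact if_pos h3
        rw [hfw]
        have h4 : 0 ≤ m * ∑ w' ∈ (ball p R)ᶜ, 2 * (c (w, w') + c (w', w)) :=
          mul_nonneg hm0 (Finset.sum_nonneg fun w' _ => hg w w')
        refine le_trans ?_ (le_add_of_nonneg_right h4)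
        have hp : (0 : ℝ) < (1 + R / 2) ^ 2 := by positivity
        have h5 : ∑ w' ∈ (ball p R)ᶜ, 2 * (c (w, w') + c (w', w)) * 1 ≤
            2 / (1 + R / 2) ^ 2 * ∑ w', (if R / 2 < tnorm (w' - w) then
              (c (w, w') + c (w', w)) * (1 + tnorm (w' - w)) ^ 2 else 0) := by
          rw [Finset.mul_sum]
          refine (Finset.sum_le_sum fun w' hw' => ?_).trans
            (Finset.sum_le_univ_sum_of_nonneg fun w' => ?_)
          · have h6 : R / 2 < tnorm (w' - w) := by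
              have h7 := Finset.mem_compl.1 hw'
              rw [mem_ball', not_le] at h7
              have h8 := tnorm_add_le (w' - w) (w - p)
              rw [sub_add_sub_cancel] at h8
              linarith
            rw [if_pos h6, mul_one]
            have h9 : (1 + R / 2) ^ 2 ≤ (1 + tnorm (w' - w)) ^ 2 :=
              pow_le_pow_left₀ (by positivity) (by linarith) 2
            have h10 : (c (w, w') + c (w', w)) * (1 + R / 2) ^ 2 ≤
                (c (w, w') + c (w', w)) * (1 + tnorm (w' - w)) ^ 2 :=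
              mul_le_mul_of_nonneg_left h9 (by linarith [hg w w'])
            calc 2 * (c (w, w') + c (w', w)) = 2 / (1 + R / 2) ^ 2 *
                  ((c (w, w') + c (w', w)) * (1 + R / 2) ^ 2) := by field_simp
              _ ≤ _ := mul_le_mul_of_nonneg_left h10 (by positivity)
          · refine mul_nonneg (by positivity) ?_
            split_ifs
            · exact mul_nonneg (by linarith [hg w w']) (by positivity)
            · exact le_rfl
        refine h5.trans ?_
        have h6 := (hTail w (R / 2) (by positivity)).trans (hTn (R / 2) (by linarith))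
        calc 2 / (1 + R / 2) ^ 2 * ∑ w', (if R / 2 < tnorm (w' - w) then
              (c (w, w') + c (w', w)) * (1 + tnorm (w' - w)) ^ 2 else 0)
            ≤ 2 / (1 + R / 2) ^ 2 * (ε / (4 * K0)) :=
              mul_le_mul_of_nonneg_left h6 (by positivity)
          _ = ε / (2 * K0 * (1 + R / 2) ^ 2) := by
              field_simp
              norm_num
      · rw [if_neg h3, zero_add, Finset.mul_sum]
        have hfw : f w = m := by rw [hf]; exact if_neg h3
        rw [hfw]
        exact Finset.sum_le_sum fun w' _ => (mul_comm _ _).le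
    refine (Finset.sum_le_sum h2).trans ?_
    rw [Finset.sum_add_distrib, ← Finset.mul_sum]
    have h3 : ∑ w ∈ ball p R, (if tnorm (w - p) ≤ R / 2 then
        ε / (2 * K0 * (1 + R / 2) ^ 2) else 0) ≤ ε / 2 := by
      calc ∑ w ∈ ball p R, (if tnorm (w - p) ≤ R / 2 then
            ε / (2 * K0 * (1 + R / 2) ^ 2) else 0)
          ≤ ∑ w, (if tnorm (w - p) ≤ R / 2 then ε / (2 * K0 * (1 + R / 2) ^ 2) else 0) := by
            refine Finset.sum_le_univ_sum_of_nonneg fun w => ?_
            split_ifs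
            · positivity
            · exact le_rfl
        _ = ((Finset.univ.filter fun z : Tor L => tnorm (z - p) ≤ R / 2).card : ℝ) *
            (ε / (2 * K0 * (1 + R / 2) ^ 2)) := by
            rw [← Finset.sum_filter, Finset.sum_const, nsmul_eq_mul]
        _ ≤ K0 * (1 + R / 2) ^ 2 * (ε / (2 * K0 * (1 + R / 2) ^ 2)) :=
            mul_le_mul_of_nonneg_right (hK L p (R / 2) (by positivity)) (by positivity)
        _ = ε / 2 := by field_simp
    have h4 : m * ∑ w ∈ ball p R, ∑ w' ∈ (ball p R)ᶜ, 2 * (c (w, w') + c (w', w)) ≤ ε / 2 := by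
      refine (mul_le_mul hmn hj (Finset.sum_nonneg fun w _ => Finset.sum_nonneg fun w' _ =>
        hg w w') (hm0.trans hmn)).trans (le_trans (le_of_eq ?_) hP)
      ring
    linarith
  · rw [hk]
    simp only
    split_ifs
    · exact Finset.sum_nonneg fun v _ => hg v w
    · exact Finset.sum_le_sum fun v _ => mul_le_of_le_one_right (hg v w) (hf1 v)
  · rw [hksum]
    have h1 := corJ_exit hN0 hc0 i p y R m hR0 hy hm0 (fun η => by
      rw [hm]
      exact hInf (R / 4) (by linarith) (by linarith) p η i)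
    rw [hf]
    exact h1

end Pool.Agent.H338.PL
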