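import Pool.Agent.H992.PL.Defs2

/-!
# Project PL (helper992), part PLe: S_Sum2, S_Pow2, S_Exp2 from S_Renew
-/

set_option autoImplicit false

noncomputable section

namespace Pool.Agent.H553.PL

open Finset

/-! ### the abstract renewal argument -/

section abs

variable {V : Type} [Fintype V] [Nonempty V]

/-- the data on a finite set -/
structure Ren (d G : V → V → ℝ) (c : V × V → ℝ) (ρ K1 ε : ℝ) : Prop where
  d0 : ∀ x y, 0 ≤ d x y
  sy : ∀ x y, d x y = d y x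
  tri : ∀ x y z, d x z ≤ d x y + d y z
  G0 : ∀ x y, 0 ≤ G x y
  G1 : ∀ x y, G x y ≤ 1
  Gs : ∀ x y, G x y = G y x
  c0 : ∀ e, 0 ≤ c e
  ρ0 : 0 ≤ ρ
  ε0 : 0 ≤ ε
  card : ∀ p (R : ℝ), R ≤ ρ → ((univ.filter fun v => d p v ≤ R).card : ℝ) ≤ K1
  ren : ∀ p, ∃ R : ℝ, R ≤ ρ ∧ ∃ k : V → ℝ, (∀ w, 0 ≤ k w) ∧ ∑ w, k w ≤ ε ∧
    (∀ w, k w ≤ ∑ v ∈ univ.filter (fun v => d p v ≤ R), 2 * (c (v, w) + c (w, v))) ∧
    ∀ y, R < d p y → G p y ≤ ∑ w, k w * G w y

variable {d G : V → V → ℝ} {c : V × V → ℝ} {ρ K1 ε : ℝ}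

set_option linter.unusedSectionVars false

theorem Ren.K1_nonneg (h : Ren d G c ρ K1 ε) : 0 ≤ K1 := by
  obtain ⟨p⟩ := ‹Nonempty V›
  exact le_trans (Nat.cast_nonneg _) (h.card p ρ le_rfl)

/-- one step -/
theorem Ren.split (h : Ren d G c ρ K1 ε) {p : V} {R : ℝ} (hR : R ≤ ρ) {k : V → ℝ}
    (hk : ∀ w, 0 ≤ k w) (hG : ∀ y, R < d p y → G p y ≤ ∑ w, k w * G w y) (W : V → ℝ)
    (hW : ∀ y, 0 ≤ W y) {B : ℝ} (hB0 : 0 ≤ B) (hB : ∀ y, d p y ≤ ρ → W y ≤ B) :
    ∑ y, G p y * W y ≤ K1 * B + ∑ w, k w * ∑ y, G w y * W y := by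
  have h1 : ∀ y, G p y * W y ≤ (if d p y ≤ R then B else 0) + ∑ w, k w * (G w y * W y) := by
    intro y
    have h2 : 0 ≤ ∑ w, k w * (G w y * W y) :=
      Finset.sum_nonneg fun w _ => mul_nonneg (hk w) (mul_nonneg (h.G0 w y) (hW y))
    split_ifs with hy
    · have h3 := hB y (hy.trans hR)
      have h4 : G p y * W y ≤ 1 * B := mul_le_mul (h.G1 p y) h3 (hW y) zero_le_one
      linarith
    · have h3 := mul_le_mul_of_nonneg_right (hG y (not_le.mp hy)) (hW y)
      rw [Finset.sum_mul] at h3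
      have h4 : ∑ w, k w * G w y * W y = ∑ w, k w * (G w y * W y) :=
        Finset.sum_congr rfl fun w _ => by ring
      rw [h4] at h3
      linarith
  calc ∑ y, G p y * W y ≤ ∑ y, ((if d p y ≤ R then B else 0) + ∑ w, k w * (G w y * W y)) :=
        Finset.sum_le_sum fun y _ => h1 y
    _ = ((univ.filter fun v => d p v ≤ R).card : ℝ) * B + ∑ w, k w * ∑ y, G w y * W y := by
        rw [Finset.sum_add_distrib, Finset.sum_comm]
        congr 1
        · rw [← Finset.sum_filter, Finset.sum_const, nsmul_eq_mul]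
        · exact Finset.sum_congr rfl fun w _ => by rw [Finset.mul_sum]
    _ ≤ _ := by
        have := mul_le_mul_of_nonneg_right (h.card p R hR) hB0
        linarith

/-- the total mass -/
theorem Ren.chi0 (h : Ren d G c ρ K1 ε) (hε : ε ≤ 1 / 2) (x : V) : ∑ y, G x y ≤ 2 * K1 := by
  obtain ⟨p, hp⟩ := Finite.exists_max fun x => ∑ y, G x y
  obtain ⟨R, hR, k, hk0, hk, -, hG⟩ := h.ren p
  have h1 := h.split hR hk0 hG (fun _ => 1) (fun _ => zero_le_one) zero_le_one (fun _ _ => le_rfl)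
  simp only [mul_one] at h1
  have h2 : ∑ w, k w * ∑ y, G w y ≤ ∑ w, k w * ∑ y, G p y :=
    Finset.sum_le_sum fun w _ => mul_le_mul_of_nonneg_left (hp w) (hk0 w)
  rw [← Finset.sum_mul] at h2
  have h0 : 0 ≤ ∑ y, G p y := Finset.sum_nonneg fun y _ => h.G0 p y
  have h3 := mul_le_mul_of_nonneg_right (hk.trans hε) h0
  have h4 := hp x
  linarith

/-- moments of the kernel -/
theorem Ren.ksum (h : Ren d G c ρ K1 ε) {p : V} {R : ℝ} (hR : R ≤ ρ) {k : V → ℝ}
    (hkc : ∀ w, k w ≤ ∑ v ∈ univ.filter (fun v => d p v ≤ R), 2 * (c (v, w) + c (w, v)))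
    (W : V → V → ℝ) (hW : ∀ x y, 0 ≤ W x y) (hsub : ∀ x y z, W x z ≤ W x y * W y z) {B A : ℝ}
    (hB0 : 0 ≤ B) (hA : 0 ≤ A) (hB : ∀ v, d p v ≤ ρ → W p v ≤ B)
    (hc : ∀ v, ∑ w, (c (v, w) + c (w, v)) * W v w ≤ A) :
    ∑ w, k w * W p w ≤ 2 * K1 * B * A := by
  have h1 : ∀ w, k w * W p w ≤ ∑ v ∈ univ.filter (fun v => d p v ≤ R),
      2 * B * ((c (v, w) + c (w, v)) * W v w) := by
    intro w
    refine (mul_le_mul_of_nonneg_right (hkc w) (hW p w)).trans ?_
    rw [Finset.sum_mul]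
    refine Finset.sum_le_sum fun v hv => ?_
    have hv' : d p v ≤ ρ := ((Finset.mem_filter.mp hv).2).trans hR
    have h2 : W p w ≤ B * W v w :=
      (hsub p v w).trans (mul_le_mul_of_nonneg_right (hB v hv') (hW v w))
    have h3 : 0 ≤ 2 * (c (v, w) + c (w, v)) := by
      have := h.c0 (v, w)
      have := h.c0 (w, v)
      linarith
    calc 2 * (c (v, w) + c (w, v)) * W p w ≤ 2 * (c (v, w) + c (w, v)) * (B * W v w) :=
          mul_le_mul_of_nonneg_left h2 h3
      _ = _ := by ring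
  calc ∑ w, k w * W p w ≤ ∑ w, ∑ v ∈ univ.filter (fun v => d p v ≤ R),
        2 * B * ((c (v, w) + c (w, v)) * W v w) := Finset.sum_le_sum fun w _ => h1 w
    _ = ∑ v ∈ univ.filter (fun v => d p v ≤ R), 2 * B * ∑ w, (c (v, w) + c (w, v)) * W v w := by
        rw [Finset.sum_comm]
        exact Finset.sum_congr rfl fun v _ => by rw [Finset.mul_sum]
    _ ≤ ∑ v ∈ univ.filter (fun v => d p v ≤ R), 2 * B * A :=
        Finset.sum_le_sum fun v _ => mul_le_mul_of_nonneg_left (hc v) (by positivity)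
    _ = ((univ.filter fun v => d p v ≤ R).card : ℝ) * (2 * B * A) := by
        rw [Finset.sum_const, nsmul_eq_mul]
    _ ≤ K1 * (2 * B * A) := mul_le_mul_of_nonneg_right (h.card p R hR) (by positivity)
    _ = _ := by ring

/-- moments of order `q` -/
theorem Ren.sum (h : Ren d G c ρ K1 ε) {q A : ℝ} (hq : 0 ≤ q) (hA : 0 ≤ A)
    (hε1 : ε ≤ 1 / 2) (hε : 2 ^ q * ε ≤ 1 / 2)
    (hc : ∀ v, ∑ w, (c (v, w) + c (w, v)) * (1 + d v w) ^ q ≤ A) (x : V) :
    ∑ y, G x y * (1 + d x y) ^ q ≤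
      2 * (K1 * (1 + ρ) ^ q + 2 ^ q * (2 * K1 * (2 * K1 * (1 + ρ) ^ q * A))) := by
  have hρ := h.ρ0
  have hK1 := h.K1_nonneg
  have h1d : ∀ x y, 0 ≤ 1 + d x y := fun x y => by have := h.d0 x y; linarith
  have hW : ∀ x y, 0 ≤ (1 + d x y) ^ q := fun x y => Real.rpow_nonneg (h1d x y) q
  have hsub : ∀ x y z, (1 + d x z) ^ q ≤ (1 + d x y) ^ q * (1 + d y z) ^ q := by
    intro x y z
    rw [← Real.mul_rpow (h1d x y) (h1d y z)]
    apply Real.rpow_le_rpow (h1d x z) _ hq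
    have := h.tri x y z
    have := mul_nonneg (h.d0 x y) (h.d0 y z)
    nlinarith
  have hB0 : 0 ≤ (1 + ρ) ^ q := Real.rpow_nonneg (by linarith) q
  have hB : ∀ p v, d p v ≤ ρ → (1 + d p v) ^ q ≤ (1 + ρ) ^ q := fun p v hv =>
    Real.rpow_le_rpow (h1d p v) (by linarith) hq
  have hadd : ∀ x y z, (1 + d x z) ^ q ≤ 2 ^ q * ((1 + d y z) ^ q + (1 + d x y) ^ q) := by
    intro x y z
    have h3 := h.tri x y z
    rcases le_total (1 + d x y) (1 + d y z) with h4 | h4
    · calc (1 + d x z) ^ q ≤ (2 * (1 + d y z)) ^ q :=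
            Real.rpow_le_rpow (h1d x z) (by linarith) hq
        _ = 2 ^ q * (1 + d y z) ^ q := Real.mul_rpow (by norm_num) (h1d y z)
        _ ≤ _ := mul_le_mul_of_nonneg_left (by linarith [hW x y]) (by positivity)
    · calc (1 + d x z) ^ q ≤ (2 * (1 + d x y)) ^ q :=
            Real.rpow_le_rpow (h1d x z) (by linarith) hq
        _ = 2 ^ q * (1 + d x y) ^ q := Real.mul_rpow (by norm_num) (h1d x y)
        _ ≤ _ := mul_le_mul_of_nonneg_left (by linarith [hW y z]) (by positivity)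
  obtain ⟨p, hp⟩ := Finite.exists_max fun x => ∑ y, G x y * (1 + d x y) ^ q
  obtain ⟨R, hR, k, hk0, hk, hkc, hG⟩ := h.ren p
  have h1 := h.split hR hk0 hG (fun y => (1 + d p y) ^ q) (fun y => hW p y) hB0 (fun y hy => hB p y hy)
  have h2 := h.ksum hR hkc (fun x y => (1 + d x y) ^ q) hW hsub hB0 hA (fun v hv => hB p v hv) hc
  have hch := h.chi0 hε1
  set χ := ∑ y, G p y * (1 + d p y) ^ q with hχ
  have hχ0 : 0 ≤ χ := Finset.sum_nonneg fun y _ => mul_nonneg (h.G0 p y) (hW p y)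
  clear_value χ
  have h3 : ∀ w, ∑ y, G w y * (1 + d p y) ^ q ≤ 2 ^ q * (χ + (1 + d p w) ^ q * (2 * K1)) := by
    intro w
    calc ∑ y, G w y * (1 + d p y) ^ q ≤
          ∑ y, 2 ^ q * (G w y * (1 + d w y) ^ q + (1 + d p w) ^ q * G w y) := by
          refine Finset.sum_le_sum fun y _ => ?_
          calc G w y * (1 + d p y) ^ q ≤ G w y * (2 ^ q * ((1 + d w y) ^ q + (1 + d p w) ^ q)) :=
                mul_le_mul_of_nonneg_left (hadd p w y) (h.G0 w y)
            _ = _ := by ring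
      _ = 2 ^ q * (∑ y, G w y * (1 + d w y) ^ q + (1 + d p w) ^ q * ∑ y, G w y) := by
          rw [← Finset.mul_sum, Finset.sum_add_distrib, Finset.mul_sum]
      _ ≤ _ := by
          apply mul_le_mul_of_nonneg_left _ (by positivity)
          have e1 := hp w
          have e2 := mul_le_mul_of_nonneg_left (hch w) (hW p w)
          linarith
  have h4 : ∑ w, k w * ∑ y, G w y * (1 + d p y) ^ q ≤
      2 ^ q * ε * χ + 2 ^ q * (2 * K1 * (2 * K1 * (1 + ρ) ^ q * A)) := by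
    calc ∑ w, k w * ∑ y, G w y * (1 + d p y) ^ q ≤
          ∑ w, k w * (2 ^ q * (χ + (1 + d p w) ^ q * (2 * K1))) :=
          Finset.sum_le_sum fun w _ => mul_le_mul_of_nonneg_left (h3 w) (hk0 w)
      _ = ∑ w, (2 ^ q * χ * k w + 2 ^ q * (2 * K1) * (k w * (1 + d p w) ^ q)) :=
          Finset.sum_congr rfl fun w _ => by ring
      _ = 2 ^ q * χ * ∑ w, k w + 2 ^ q * (2 * K1) * ∑ w, k w * (1 + d p w) ^ q := by
          rw [Finset.sum_add_distrib, Finset.mul_sum, Finset.mul_sum]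
      _ ≤ 2 ^ q * χ * ε + 2 ^ q * (2 * K1) * (2 * K1 * (1 + ρ) ^ q * A) := by
          gcongr
      _ = _ := by ring
  have h5 := mul_le_mul_of_nonneg_right hε hχ0
  have h6 := hp x
  linarith

/-- exponential moments -/
theorem Ren.expo (h : Ren d G c ρ K1 ε) {a t A : ℝ} (ha : 0 ≤ a) (ht0 : 0 ≤ t) (ht1 : t ≤ 1)
    (hA : 0 ≤ A) (hε : ε ≤ 1 / 4) (ht : t * (2 * K1 * Real.exp (a * ρ) * A) ≤ 1 / 4)
    (hc : ∀ v, ∑ w, (c (v, w) + c (w, v)) * Real.exp (a * d v w) ≤ A) (x : V) :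
    ∑ y, G x y * Real.exp (t * a * d x y) ≤ 2 * (K1 * Real.exp (a * ρ)) := by
  have hρ := h.ρ0
  have hK1 := h.K1_nonneg
  have hta : 0 ≤ t * a := mul_nonneg ht0 ha
  have hta' : t * a ≤ a := by nlinarith
  have hsub : ∀ (b : ℝ), 0 ≤ b → ∀ x y z, Real.exp (b * d x z) ≤
      Real.exp (b * d x y) * Real.exp (b * d y z) := by
    intro b hb x y z
    rw [← Real.exp_add]
    apply Real.exp_le_exp.mpr
    have := mul_le_mul_of_nonneg_left (h.tri x y z) hb
    linarith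
  have hB : ∀ (b : ℝ), 0 ≤ b → b ≤ a → ∀ p v, d p v ≤ ρ → Real.exp (b * d p v) ≤
      Real.exp (a * ρ) := by
    intro b hb hba p v hv
    exact Real.exp_le_exp.mpr (mul_le_mul hba hv (h.d0 p v) ha)
  obtain ⟨p, hp⟩ := Finite.exists_max fun x => ∑ y, G x y * Real.exp (t * a * d x y)
  obtain ⟨R, hR, k, hk0, hk, hkc, hG⟩ := h.ren p
  have h1 := h.split hR hk0 hG (fun y => Real.exp (t * a * d p y)) (fun y => (Real.exp_pos _).le)
    (Real.exp_pos (a * ρ)).le (fun y hy => hB _ hta hta' p y hy)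
  have h2 := h.ksum hR hkc (fun x y => Real.exp (a * d x y)) (fun x y => (Real.exp_pos _).le)
    (hsub a ha) (Real.exp_pos (a * ρ)).le hA (fun v hv => hB a ha le_rfl p v hv) hc
  set χ := ∑ y, G p y * Real.exp (t * a * d p y) with hχ
  have hχ0 : 0 ≤ χ := Finset.sum_nonneg fun y _ => mul_nonneg (h.G0 p y) (Real.exp_pos _).le
  clear_value χ
  have hint : ∀ w, Real.exp (t * a * d p w) ≤ t * Real.exp (a * d p w) + 1 := by
    intro w
    have e1 := convexOn_exp.2 (Set.mem_univ (a * d p w)) (Set.mem_univ 0) ht0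
      (sub_nonneg.mpr ht1) (by ring)
    simp only [smul_eq_mul, mul_zero, add_zero, Real.exp_zero, mul_one] at e1
    rw [mul_assoc]
    linarith
  have h3 : ∀ w, ∑ y, G w y * Real.exp (t * a * d p y) ≤ Real.exp (t * a * d p w) * χ := by
    intro w
    calc ∑ y, G w y * Real.exp (t * a * d p y) ≤
          ∑ y, Real.exp (t * a * d p w) * (G w y * Real.exp (t * a * d w y)) := by
          refine Finset.sum_le_sum fun y _ => ?_
          calc G w y * Real.exp (t * a * d p y) ≤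
                G w y * (Real.exp (t * a * d p w) * Real.exp (t * a * d w y)) :=
                mul_le_mul_of_nonneg_left (hsub _ hta p w y) (h.G0 w y)
            _ = _ := by ring
      _ = Real.exp (t * a * d p w) * ∑ y, G w y * Real.exp (t * a * d w y) := by
          rw [Finset.mul_sum]
      _ ≤ _ := mul_le_mul_of_nonneg_left (hp w) (Real.exp_pos _).le
  have h4 : ∑ w, k w * ∑ y, G w y * Real.exp (t * a * d p y) ≤
      (t * (2 * K1 * Real.exp (a * ρ) * A) + ε) * χ := by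
    calc ∑ w, k w * ∑ y, G w y * Real.exp (t * a * d p y) ≤
          ∑ w, k w * ((t * Real.exp (a * d p w) + 1) * χ) := by
          refine Finset.sum_le_sum fun w _ => mul_le_mul_of_nonneg_left ?_ (hk0 w)
          exact (h3 w).trans (mul_le_mul_of_nonneg_right (hint w) hχ0)
      _ = ∑ w, (t * (k w * Real.exp (a * d p w)) + k w) * χ :=
          Finset.sum_congr rfl fun w _ => by ring
      _ = (t * ∑ w, k w * Real.exp (a * d p w) + ∑ w, k w) * χ := by
          rw [← Finset.sum_mul, Finset.sum_add_distrib, Finset.mul_sum]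
      _ ≤ _ := by
          gcongr
  have h5 : (t * (2 * K1 * Real.exp (a * ρ) * A) + ε) * χ ≤ 1 / 2 * χ :=
    mul_le_mul_of_nonneg_right (by linarith) hχ0
  have h6 := hp x
  linarith

/-- pointwise bounds -/
theorem Ren.pow (h : Ren d G c ρ K1 ε) {s A : ℝ} (hs : 0 ≤ s) (hA : 0 ≤ A)
    (hε1 : ε ≤ 1 / 2) (hε : 2 ^ s * ε ≤ 1 / 2)
    (hc : ∀ x y, c (x, y) ≤ A * (1 + d x y) ^ (-s)) (x y : V) :
    G x y ≤ 2 * ((1 + ρ) ^ s + K1 * (4 * A * (2 * (1 + ρ)) ^ s) * (2 * K1)) *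
      (1 + d x y) ^ (-s) := by
  have hρ := h.ρ0
  have hK1 := h.K1_nonneg
  have h1d : ∀ x y, 0 < 1 + d x y := fun x y => by have := h.d0 x y; linarith
  have hW : ∀ x y, 0 ≤ (1 + d x y) ^ (-s) := fun x y => Real.rpow_nonneg (h1d x y).le _
  have hinv : ∀ x y, (1 + d x y) ^ s * (1 + d x y) ^ (-s) = 1 := fun x y => by
    rw [← Real.rpow_add (h1d x y), add_neg_cancel, Real.rpow_zero]
  -- the maximum
  obtain ⟨z, hz⟩ := Finite.exists_max fun z : V × V => G z.1 z.2 * (1 + d z.1 z.2) ^ s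
  obtain ⟨p, y₀⟩ := z
  set M := G p y₀ * (1 + d p y₀) ^ s with hM
  have hM0 : 0 ≤ M := mul_nonneg (h.G0 _ _) (Real.rpow_nonneg (h1d _ _).le _)
  have hmax : ∀ x y, G x y ≤ M * (1 + d x y) ^ (-s) := by
    intro x y
    have h1 := mul_le_mul_of_nonneg_right (hz (x, y)) (hW x y)
    simp only at h1
    rw [mul_assoc, hinv, mul_one] at h1
    exact h1
  have hch := h.chi0 hε1
  set C2 := K1 * (4 * A * (2 * (1 + ρ)) ^ s) with hC2
  have hC20 : 0 ≤ C2 := by positivity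
  have hMle : M ≤ 2 * ((1 + ρ) ^ s + C2 * (2 * K1)) := by
    obtain ⟨R, hR, k, hk0, hk, hkc, hG⟩ := h.ren p
    rcases le_or_gt (d p y₀) R with hy | hy
    · have h1 : M ≤ 1 * (1 + ρ) ^ s := by
        rw [hM]
        exact mul_le_mul (h.G1 _ _) (Real.rpow_le_rpow (h1d _ _).le (by linarith) hs)
          (Real.rpow_nonneg (h1d _ _).le _) zero_le_one
      have h2 : 0 ≤ C2 * (2 * K1) := by positivity
      have h3 : 0 ≤ (1 + ρ) ^ s := Real.rpow_nonneg (by linarith) _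
      linarith
    · -- the kernel
      have h1 := hG y₀ hy
      set D := 1 + d p y₀ with hD
      have hD0 : 0 < D := h1d p y₀
      have hkey : ∀ w, k w * G w y₀ ≤ 2 ^ s * M * D ^ (-s) * k w + C2 * D ^ (-s) * G w y₀ := by
        intro w
        have g0 := h.G0 w y₀
        have hDs : 0 ≤ D ^ (-s) := Real.rpow_nonneg hD0.le _
        rcases le_or_gt (d p w) (D / 2) with hw | hw
        · -- near
          have e1 : D / 2 ≤ 1 + d w y₀ := by
            have := h.tri p w y₀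
            linarith
          have e2 : (1 + d w y₀) ^ (-s) ≤ (D / 2) ^ (-s) :=
            Real.rpow_le_rpow_of_nonpos (by positivity) e1 (by linarith)
          have e3 : (D / 2) ^ (-s) = 2 ^ s * D ^ (-s) := by
            rw [Real.div_rpow hD0.le (by norm_num), Real.rpow_neg (by norm_num : (0 : ℝ) ≤ 2),
              div_inv_eq_mul, mul_comm]
          have e4 : G w y₀ ≤ M * (2 ^ s * D ^ (-s)) := by
            refine (hmax w y₀).trans ?_
            rw [← e3]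
            exact mul_le_mul_of_nonneg_left e2 hM0
          have e5 := mul_le_mul_of_nonneg_left e4 (hk0 w)
          have e6 : 0 ≤ C2 * D ^ (-s) * G w y₀ := by positivity
          calc k w * G w y₀ ≤ k w * (M * (2 ^ s * D ^ (-s))) := e5
            _ = 2 ^ s * M * D ^ (-s) * k w := by ring
            _ ≤ _ := by linarith
        · -- far
          have e1 : k w ≤ C2 * D ^ (-s) := by
            refine (hkc w).trans ?_
            have e2 : ∀ v ∈ univ.filter (fun v => d p v ≤ R), 2 * (c (v, w) + c (w, v)) ≤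
                4 * A * ((2 * (1 + ρ)) ^ s * D ^ (-s)) := by
              intro v hv
              have hv' : d p v ≤ ρ := ((Finset.mem_filter.mp hv).2).trans hR
              have f1 : D ≤ 2 * (1 + ρ) * (1 + d v w) := by
                have := h.tri p v w
                have := h.d0 v w
                nlinarith
              have f2 : D / (2 * (1 + ρ)) ≤ 1 + d v w := by
                rw [div_le_iff₀ (by positivity)]
                linarith
              have f3 : (1 + d v w) ^ (-s) ≤ (D / (2 * (1 + ρ))) ^ (-s) :=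
                Real.rpow_le_rpow_of_nonpos (by positivity) f2 (by linarith)
              have f4 : (D / (2 * (1 + ρ))) ^ (-s) = (2 * (1 + ρ)) ^ s * D ^ (-s) := by
                rw [Real.div_rpow hD0.le (by positivity),
                  Real.rpow_neg (by positivity : (0 : ℝ) ≤ 2 * (1 + ρ)), div_inv_eq_mul, mul_comm]
              rw [f4] at f3
              have f5 := hc v w
              have f6 := hc w v
              rw [h.sy w v] at f6
              have f7 := mul_le_mul_of_nonneg_left f3 hA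
              linarith
            calc ∑ v ∈ univ.filter (fun v => d p v ≤ R), 2 * (c (v, w) + c (w, v)) ≤
                  ∑ v ∈ univ.filter (fun v => d p v ≤ R), 4 * A * ((2 * (1 + ρ)) ^ s * D ^ (-s)) :=
                  Finset.sum_le_sum e2
              _ = ((univ.filter fun v => d p v ≤ R).card : ℝ) *
                    (4 * A * ((2 * (1 + ρ)) ^ s * D ^ (-s))) := by
                  rw [Finset.sum_const, nsmul_eq_mul]
              _ ≤ K1 * (4 * A * ((2 * (1 + ρ)) ^ s * D ^ (-s))) :=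
                  mul_le_mul_of_nonneg_right (h.card p R hR) (by positivity)
              _ = C2 * D ^ (-s) := by rw [hC2]; ring
          have e5 := mul_le_mul_of_nonneg_right e1 g0
          have e6 : 0 ≤ 2 ^ s * M * D ^ (-s) * k w := by
            have := hk0 w
            positivity
          linarith
      have h2 : G p y₀ ≤ (2 ^ s * ε * M + C2 * (2 * K1)) * D ^ (-s) := by
        have hDs : 0 ≤ D ^ (-s) := Real.rpow_nonneg hD0.le _
        calc G p y₀ ≤ ∑ w, k w * G w y₀ := h1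
          _ ≤ ∑ w, (2 ^ s * M * D ^ (-s) * k w + C2 * D ^ (-s) * G w y₀) :=
              Finset.sum_le_sum fun w _ => hkey w
          _ = 2 ^ s * M * D ^ (-s) * ∑ w, k w + C2 * D ^ (-s) * ∑ w, G w y₀ := by
              rw [Finset.sum_add_distrib, Finset.mul_sum, Finset.mul_sum]
          _ ≤ 2 ^ s * M * D ^ (-s) * ε + C2 * D ^ (-s) * (2 * K1) := by
              have f1 : ∑ w, G w y₀ ≤ 2 * K1 := by
                have := hch y₀
                rwa [Finset.sum_congr rfl fun w _ => h.Gs y₀ w] at this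
              gcongr
          _ = _ := by ring
      have h3 : M ≤ 2 ^ s * ε * M + C2 * (2 * K1) := by
        have e1 := mul_le_mul_of_nonneg_right h2 (Real.rpow_nonneg hD0.le s)
        have e2 : D ^ (-s) * D ^ s = 1 := by
          rw [mul_comm]
          exact hinv p y₀
        calc M = G p y₀ * D ^ s := hM
          _ ≤ (2 ^ s * ε * M + C2 * (2 * K1)) * D ^ (-s) * D ^ s := e1
          _ = _ := by rw [mul_assoc, e2, mul_one]
      have h4 := mul_le_mul_of_nonneg_right hε hM0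
      have h5 : 0 ≤ (1 + ρ) ^ s := Real.rpow_nonneg (by linarith) _
      linarith
  exact (hmax x y).trans (mul_le_mul_of_nonneg_right hMle (hW x y))

end abs

/-! ### application -/

open Pool.Agent.H5R2.ON Pool.Agent.H717R2.ON3 Pool.Agent.H983R2.ONJ Pool.Agent.H992.PL

theorem corJ_symm {N L : ℕ} [NeZero L] (c : Tor L × Tor L → ℝ) (i : Fin N) (x y : Tor L) :
    corJ c i x y = corJ c i y x := by
  unfold corJ
  congr 1
  congr 1
  funext S
  ring

/-- the distance -/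
def dT {L : ℕ} (x y : Tor L) : ℝ := tnorm (y - x)

theorem mkRen {N : ℕ} (hN : N ≠ 0) {K0 R₁ ε : ℝ} (hR₁ : 1 ≤ R₁) (hε : 0 ≤ ε)
    (hK : ∀ (L : ℕ) [NeZero L] (x : Tor L) (ρ : ℝ), 0 ≤ ρ →
      ((Finset.univ.filter fun z : Tor L => tnorm (z - x) ≤ ρ).card : ℝ) ≤ K0 * (1 + ρ) ^ 2)
    {L : ℕ} [NeZero L] {c : Tor L × Tor L → ℝ} (hc : ∀ e, 0 ≤ c e) (i : Fin N)
    (h : ∀ p : Tor L, ∃ R : ℝ, R₁ ≤ R ∧ R ≤ 2 * R₁ ∧ ∃ k : Tor L → ℝ,
          (∀ w, 0 ≤ k w) ∧ ∑ w, k w ≤ ε ∧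
          (∀ w, k w ≤ ∑ v ∈ ball p R, 2 * (c (v, w) + c (w, v))) ∧
          ∀ y, R < tnorm (y - p) → corJ c i p y ≤ ∑ w, k w * corJ c i w y) :
    Ren (dT (L := L)) (corJ c i) c (2 * R₁) (K0 * (1 + 2 * R₁) ^ 2) ε where
  d0 x y := tnorm_nonneg _
  sy x y := tnorm_sub_comm _ _
  tri x y z := by
    have := tnorm_add_le (y - x) (z - y)
    have e : y - x + (z - y) = z - x := by abel
    rw [e] at this
    exact this
  G0 x y := corJ_nonneg hN hc i x y
  G1 x y := corJ_le_one hN c i x y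
  Gs x y := corJ_symm c i x y
  c0 := hc
  ρ0 := by linarith
  ε0 := hε
  card p R hR := by
    refine le_trans ?_ (hK L p (2 * R₁) (by linarith))
    have hsub : (Finset.univ.filter fun v : Tor L => dT p v ≤ R) ⊆
        (Finset.univ.filter fun z : Tor L => tnorm (z - p) ≤ 2 * R₁) := by
      intro z hz
      rw [Finset.mem_filter] at hz ⊢
      exact ⟨hz.1, le_trans hz.2 hR⟩
    exact_mod_cast Finset.card_le_card hsub
  ren p := by
    obtain ⟨R, -, h2, k, h3, h4, h5, h6⟩ := h p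
    exact ⟨R, h2, k, h3, h4, h5, h6⟩

/-- small tori -/
theorem small {N : ℕ} (hN : N ≠ 0) {R₁ B : ℝ} (hR₁ : 1 ≤ R₁) {L : ℕ} [NeZero L]
    (hL : (L : ℝ) ≤ 8 * R₁) {c : Tor L × Tor L → ℝ} (hc : ∀ e, 0 ≤ c e) (i : Fin N)
    (x : Tor L) (W : Tor L → ℝ) (hW : ∀ y, 0 ≤ W y) (hB : ∀ y, W y ≤ B) :
    ∑ y, corJ c i x y * W y ≤ (8 * R₁) ^ 2 * B := by
  have hB0 : 0 ≤ B := (hW x).trans (hB x)
  calc ∑ y, corJ c i x y * W y ≤ ∑ _y : Tor L, B := by
        refine Finset.sum_le_sum fun y _ => ?_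
        calc corJ c i x y * W y ≤ 1 * B :=
              mul_le_mul (corJ_le_one hN c i x y) (hB y) (hW y) zero_le_one
          _ = B := one_mul B
    _ = (L : ℝ) ^ 2 * B := by
        rw [Finset.sum_const, nsmul_eq_mul, Finset.card_univ, Fintype.card_prod, ZMod.card]
        push_cast
        ring
    _ ≤ _ := by
        apply mul_le_mul_of_nonneg_right _ hB0
        exact pow_le_pow_left₀ (Nat.cast_nonneg L) hL 2

theorem sum2 (h : S_Renew) : S_Sum2 := by
  intro N hN A q C δ T hA hq hC hδ hT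
  have hN0 : N ≠ 0 := by omega
  obtain ⟨K0, hK0, hK⟩ := card_ball_le
  have h2q : (0 : ℝ) < 2 ^ q := Real.rpow_pos_of_pos (by norm_num) q
  have h2q1 : (1 : ℝ) ≤ 2 ^ q := Real.one_le_rpow (by norm_num) (by linarith)
  obtain ⟨ε, hε⟩ : ∃ ε : ℝ, ε = 1 / (2 * 2 ^ q) := ⟨_, rfl⟩
  have hε0 : 0 < ε := by rw [hε]; positivity
  have hε1 : ε ≤ 1 / 2 := by
    rw [hε]
    apply one_div_le_one_div_of_le (by norm_num)
    linarith
  have hε2 : 2 ^ q * ε ≤ 1 / 2 := by
    rw [hε]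
    apply le_of_eq
    field_simp
  obtain ⟨R₁, hR₁, hren⟩ := h N hN A ε C δ T hA hε0 hC hδ hT
  obtain ⟨K1, hK1⟩ : ∃ K1 : ℝ, K1 = K0 * (1 + 2 * R₁) ^ 2 := ⟨_, rfl⟩
  have hK10 : 0 ≤ K1 := by rw [hK1]; positivity
  have hB0 : 0 ≤ (1 + 2 * R₁) ^ q := Real.rpow_nonneg (by linarith) q
  have hS0 : 0 ≤ (8 * R₁) ^ 2 * (1 + 8 * R₁) ^ q :=
    mul_nonneg (sq_nonneg _) (Real.rpow_nonneg (by linarith) q)
  have hBig0 : 0 ≤ 2 * (K1 * (1 + 2 * R₁) ^ q +
      2 ^ q * (2 * K1 * (2 * K1 * (1 + 2 * R₁) ^ q * A))) := by positivity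
  refine ⟨2 * (K1 * (1 + 2 * R₁) ^ q + 2 ^ q * (2 * K1 * (2 * K1 * (1 + 2 * R₁) ^ q * A))) +
    (8 * R₁) ^ 2 * (1 + 8 * R₁) ^ q, by linarith, ?_⟩
  intro L _ c hM hTl hcq hI i x
  rcases le_or_gt (L : ℝ) (8 * R₁) with hL | hL
  · have h1 := small hN0 hR₁ hL hM.nonneg i x (fun y => (1 + tnorm (y - x)) ^ q)
      (fun y => Real.rpow_nonneg (by have := tnorm_nonneg (y - x); linarith) q)
      (B := (1 + 8 * R₁) ^ q) (fun y => by
        have e1 := tnorm_nonneg (y - x)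
        have e2 := AuxFin269.tnorm_le_L (y - x)
        exact Real.rpow_le_rpow (by linarith) (by linarith) (by linarith))
    linarith
  · have hr := mkRen hN0 hR₁ hε0.le hK hM.nonneg i (fun p => hren L hL c hM hTl hI i p)
    rw [← hK1] at hr
    have h1 := hr.sum (by linarith : (0 : ℝ) ≤ q) hA hε1 hε2 hcq x
    have h2 : ∑ y, corJ c i x y * (1 + tnorm (y - x)) ^ q =
      ∑ y, corJ c i x y * (1 + dT x y) ^ q := rfl
    rw [h2]
    linarith

theorem pow2 (h : S_Renew) : S_Pow2 := by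
  intro N hN A s C δ T hA hs hC hδ hT
  have hN0 : N ≠ 0 := by omega
  obtain ⟨K0, hK0, hK⟩ := card_ball_le
  have h2q : (0 : ℝ) < 2 ^ s := Real.rpow_pos_of_pos (by norm_num) s
  have h2q1 : (1 : ℝ) ≤ 2 ^ s := Real.one_le_rpow (by norm_num) (by linarith)
  obtain ⟨ε, hε⟩ : ∃ ε : ℝ, ε = 1 / (2 * 2 ^ s) := ⟨_, rfl⟩
  have hε0 : 0 < ε := by rw [hε]; positivity
  have hε1 : ε ≤ 1 / 2 := by
    rw [hε]
    apply one_div_le_one_div_of_le (by norm_num)
    linarith
  have hε2 : 2 ^ s * ε ≤ 1 / 2 := by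
    rw [hε]
    apply le_of_eq
    field_simp
  obtain ⟨R₁, hR₁, hren⟩ := h N hN A ε C δ T hA hε0 hC hδ hT
  obtain ⟨K1, hK1⟩ : ∃ K1 : ℝ, K1 = K0 * (1 + 2 * R₁) ^ 2 := ⟨_, rfl⟩
  have hK10 : 0 ≤ K1 := by rw [hK1]; positivity
  have hS0 : 0 ≤ (1 + 8 * R₁) ^ s := Real.rpow_nonneg (by linarith) s
  have hBig0 : 0 ≤ 2 * ((1 + 2 * R₁) ^ s + K1 * (4 * A * (2 * (1 + 2 * R₁)) ^ s) * (2 * K1)) := by
    positivity
  refine ⟨2 * ((1 + 2 * R₁) ^ s + K1 * (4 * A * (2 * (1 + 2 * R₁)) ^ s) * (2 * K1)) +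
    (1 + 8 * R₁) ^ s, by linarith, ?_⟩
  intro L _ c hM hTl hcs hI i x y
  have e1 := tnorm_nonneg (y - x)
  have hW0 : 0 < (1 + tnorm (y - x)) ^ (-s) := Real.rpow_pos_of_pos (by linarith) _
  rcases le_or_gt (L : ℝ) (8 * R₁) with hL | hL
  · have e2 := AuxFin269.tnorm_le_L (y - x)
    have e3 : (1 + tnorm (y - x)) ^ s ≤ (1 + 8 * R₁) ^ s :=
      Real.rpow_le_rpow (by linarith) (by linarith) (by linarith)
    have e4 : (1 + tnorm (y - x)) ^ s * (1 + tnorm (y - x)) ^ (-s) = 1 := by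
      rw [← Real.rpow_add (by linarith), add_neg_cancel, Real.rpow_zero]
    have e5 := mul_le_mul_of_nonneg_right e3 hW0.le
    rw [e4] at e5
    have e6 := corJ_le_one hN0 c i x y
    have e7 := mul_nonneg hBig0 hW0.le
    rw [add_mul]
    linarith
  · have hr := mkRen hN0 hR₁ hε0.le hK hM.nonneg i (fun p => hren L hL c hM hTl hI i p)
    rw [← hK1] at hr
    have h1 : corJ c i x y ≤
        2 * ((1 + 2 * R₁) ^ s + K1 * (4 * A * (2 * (1 + 2 * R₁)) ^ s) * (2 * K1)) *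
          (1 + tnorm (y - x)) ^ (-s) := hr.pow (by linarith : (0 : ℝ) ≤ s) hA hε1 hε2 hcs x y
    have e7 := mul_nonneg hS0 hW0.le
    rw [add_mul]
    linarith

theorem exp2 (h : S_Renew) : S_Exp2 := by
  intro N hN A a C δ T hA ha hC hδ hT
  have hN0 : N ≠ 0 := by omega
  obtain ⟨K0, hK0, hK⟩ := card_ball_le
  obtain ⟨R₁, hR₁, hren⟩ := h N hN A (1 / 4) C δ T hA (by norm_num) hC hδ hT
  obtain ⟨K1, hK1⟩ : ∃ K1 : ℝ, K1 = K0 * (1 + 2 * R₁) ^ 2 := ⟨_, rfl⟩
  have hK10 : 0 ≤ K1 := by rw [hK1]; positivity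
  obtain ⟨K3, hK3⟩ : ∃ K3 : ℝ, K3 = 2 * K1 * Real.exp (a * (2 * R₁)) * A := ⟨_, rfl⟩
  have hK30 : 0 ≤ K3 := by rw [hK3]; positivity
  obtain ⟨t, ht⟩ : ∃ t : ℝ, t = 1 / (4 * K3 + 4) := ⟨_, rfl⟩
  have ht0 : 0 < t := by rw [ht]; positivity
  have ht1 : t ≤ 1 := by
    rw [ht, div_le_one (by positivity)]
    linarith
  have ht2 : t * K3 ≤ 1 / 4 := by
    rw [ht, one_div, inv_mul_le_iff₀ (by positivity)]
    linarith
  rw [hK3] at ht2
  have hS0 : 0 ≤ (8 * R₁) ^ 2 * Real.exp (t * a * (8 * R₁)) := by positivity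
  have hBig0 : 0 ≤ 2 * (K1 * Real.exp (a * (2 * R₁))) := by positivity
  refine ⟨2 * (K1 * Real.exp (a * (2 * R₁))) + (8 * R₁) ^ 2 * Real.exp (t * a * (8 * R₁)), t * a,
    by linarith, by positivity, ?_⟩
  intro L _ c hM hTl hce hI i x
  rcases le_or_gt (L : ℝ) (8 * R₁) with hL | hL
  · have h1 := small hN0 hR₁ hL hM.nonneg i x (fun y => Real.exp (t * a * tnorm (y - x)))
      (fun y => (Real.exp_pos _).le)
      (B := Real.exp (t * a * (8 * R₁))) (fun y => by
        have e2 := AuxFin269.tnorm_le_L (y - x)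
        apply Real.exp_le_exp.mpr
        exact mul_le_mul_of_nonneg_left (by linarith) (by positivity))
    linarith
  · have hr := mkRen hN0 hR₁ (by norm_num : (0 : ℝ) ≤ 1 / 4) hK hM.nonneg i
      (fun p => hren L hL c hM hTl hI i p)
    rw [← hK1] at hr
    have h1 := hr.expo ha.le ht0.le ht1 hA le_rfl ht2 hce x
    have h2 : ∑ y, corJ c i x y * Real.exp (t * a * tnorm (y - x)) =
      ∑ y, corJ c i x y * Real.exp (t * a * dT x y) := rfl
    rw [h2]
    linarith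

end Pool.Agent.H553.PL
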