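import Pool.Agent.H992.PL.Decay2
import Pool.Agent.H992.PL.Limits
import Pool.Agent.H992.PL.PhiMain2
import Pool.Agent.H992.PL.Fin2
import Pool.Agent.H992.PL.Edge
import Pool.Agent.H992.PL.Rem
import Pool.Agent.H992.PL.Remove2
import Pool.Agent.H992.PL.Renew
import Pool.Agent.H992.PL.Sum2
import Pool.Agent.H992.PL.Low

/-! # Two-dimensional N-vector models with couplings of finite second moment: assembly -/

set_option autoImplicit false

noncomputable section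

namespace Pool.Agent.H992.PL

open MeasureTheory MvPolynomial Filter Pool.Agent.H5R2.ON Pool.Agent.H717R2.ON3
  Pool.Agent.H983R2.ONJ Pool.Agent.H894.PL

theorem decay_all : S_Decay2 :=
  decay2 (H328.PL.fin2 H591.PL.main2) (H404.PL.remove2 H671.PL.edge H643.PL.ball_sum)

theorem sum_all : S_Sum2 := H553.PL.sum2 H338.PL.renew

theorem pow_all : S_Pow2 := H553.PL.pow2 H338.PL.renew

theorem exp_all : S_Exp2 := H553.PL.exp2 H338.PL.renew

theorem low_all : S_Low := H120.PL.low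

/-- the influence of the boundary condition, for all `β ≤ B` -/
theorem influence (N : ℕ) (hN : 3 ≤ N) (J : ℤ × ℤ → ℝ) (hJ : ∀ m, m ≠ 0 → 0 ≤ J m)
    (h2 : Summable fun m => |J m| * (1 + znorm m) ^ 2) (B : ℝ) :
    ∃ C : ℝ, 0 ≤ C ∧ ∀ β : ℝ, 0 < β → β ≤ B → ∀ (L : ℕ) [NeZero L], ∀ R : ℝ, 1 ≤ R → 2 * R < L →
      Inf1 N (cJ L J β) R (C * (1 + R) ^ (-(3 / 2 : ℝ))) := by
  by_cases hB : 0 < B
  swap
  · exact ⟨0, le_rfl, fun β h1 h3 => absurd (h1.trans_le h3) hB⟩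
  have hA : 0 ≤ 2 * B * ∑' m, |J m| * (1 + znorm m) ^ 2 :=
    mul_nonneg (by linarith) (tsum_nonneg fun m => by positivity)
  obtain ⟨C, hC1, hC⟩ := decay_all N hN _ (3 / 2) (TJ J B) hA (by norm_num) (by norm_num)
    (TJ_tendsto h2 B)
  refine ⟨C, by linarith, ?_⟩
  intro β hβ hβB L _ R hR hRL
  exact hC L (cJ L J β) (cJ_mom2 hJ h2 hβ.le hβB L) (cJ_tail h2 hβ.le hβB L) R (by linarith) hRL
    _ (fun e => ⟨cJ_nonneg hJ hβ.le e, le_rfl⟩)

theorem cJ_momw {J : ℤ × ℤ → ℝ} {w : ℝ → ℝ} (hw : ∀ s t, s ≤ t → w s ≤ w t)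
    (hw0 : ∀ t, 0 ≤ w t) (hJs : Summable (fun m => |J m|))
    (hs : Summable (fun m => |J m| * w (znorm m))) {β B : ℝ} (hβ : 0 ≤ β) (hB : β ≤ B) (L : ℕ)
    [NeZero L] (x : Tor L) : ∑ y, (cJ L J β (x, y) + cJ L J β (y, x)) * w (tnorm (y - x)) ≤
      2 * B * ∑' m, |J m| * w (znorm m) := by
  refine (cJ_mom hw hw0 hJs hs hβ L x).trans ?_
  have h : 0 ≤ ∑' m, |J m| * w (znorm m) :=
    tsum_nonneg fun m => mul_nonneg (abs_nonneg _) (hw0 _)
  nlinarith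

/-- from the components to the two point function -/
theorem corr_sum_le {N : ℕ} (hN : N ≠ 0) {L : ℕ} [NeZero L] {J : ℤ × ℤ → ℝ} {β : ℝ}
    (hc : ∀ e, 0 ≤ cJ L J β e) {w : Tor L → ℝ} {x : Tor L} {C : ℝ}
    (h : ∀ i : Fin N, ∑ y, corJ (cJ L J β) i x y * w y ≤ C) :
    ∑ y, |corr N L J β x y| * w y ≤ N * C := by
  have h1 : ∀ y, |corr N L J β x y| * w y = ∑ i : Fin N, corJ (cJ L J β) i x y * w y := by
    intro y
    rw [corr_eq_sum N hN, abs_of_nonneg (Finset.sum_nonneg fun i _ => corJ_nonneg hN hc i _ _),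
      Finset.sum_mul]
  rw [Finset.sum_congr rfl fun y _ => h1 y, Finset.sum_comm]
  refine (Finset.sum_le_sum fun i _ => h i).trans ?_
  rw [Finset.sum_const, Finset.card_univ, Fintype.card_fin, nsmul_eq_mul]

theorem corr_pt_le {N : ℕ} (hN : N ≠ 0) {L : ℕ} [NeZero L] {J : ℤ × ℤ → ℝ} {β : ℝ}
    (hc : ∀ e, 0 ≤ cJ L J β e) {x y : Tor L} {C : ℝ}
    (h : ∀ i : Fin N, corJ (cJ L J β) i x y ≤ C) :
    |corr N L J β x y| ≤ N * C := by
  rw [corr_eq_sum N hN, abs_of_nonneg (Finset.sum_nonneg fun i _ => corJ_nonneg hN hc i _ _)]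
  refine (Finset.sum_le_sum fun i _ => h i).trans ?_
  rw [Finset.sum_const, Finset.card_univ, Fintype.card_fin, nsmul_eq_mul]

end Pool.Agent.H992.PL
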