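import Pool.Agent.H992.PL.Defs2
import Pool.Agent.H992.PL.PerLim
import Pool.Graph.R_seed8.H983R2.ONJ.Gib2

/-! # The couplings on the torus: moments, tails, pointwise bounds; infinite volume limits -/

set_option autoImplicit false

noncomputable section

namespace Pool.Agent.H992.PL

open MeasureTheory MvPolynomial Filter Pool.Agent.H5R2.ON Pool.Agent.H717R2.ON3
  Pool.Agent.H983R2.ONJ Pool.Agent.H894.PL

/-! ## The model as a model with couplings between different sites -/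

/-- the couplings between different sites -/
def cJ (L : ℕ) [NeZero L] (J : ℤ × ℤ → ℝ) (β : ℝ) (e : Tor L × Tor L) : ℝ :=
  if e.1 = e.2 then 0 else β * Jper L J (e.1 - e.2)

theorem inner_self_one {N : ℕ} (s : Sph N) : inner ℝ (s : EuclideanSpace ℝ (Fin N)) s = (1 : ℝ) := by
  rw [real_inner_self_eq_norm_sq]
  have : ‖(s : EuclideanSpace ℝ (Fin N))‖ = 1 := by simp
  rw [this, one_pow]

theorem en_eq {N : ℕ} (L : ℕ) [NeZero L] (J : ℤ × ℤ → ℝ) (β : ℝ) (S : Conf N L) :
    β * enJ L J S = pS (cJ L J β) S + ∑ _x : Tor L, β * Jper L J 0 := by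
  unfold enJ pS
  have hsp : ∑ e : Tor L × Tor L, cJ L J β e *
      inner ℝ (S e.1 : EuclideanSpace ℝ (Fin N)) (S e.2) = ∑ x : Tor L, ∑ y : Tor L,
        cJ L J β (x, y) * inner ℝ (S x : EuclideanSpace ℝ (Fin N)) (S y) :=
    Fintype.sum_prod_type _
  rw [hsp, Finset.mul_sum, ← Finset.sum_add_distrib]
  refine Finset.sum_congr rfl fun x _ => ?_
  have h : ∀ y : Tor L, β * (Jper L J (x - y) * inner ℝ (S x : EuclideanSpace ℝ (Fin N)) (S y))
      = cJ L J β (x, y) * inner ℝ (S x : EuclideanSpace ℝ (Fin N)) (S y)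
        + if x = y then β * Jper L J 0 else 0 := by
    intro y
    unfold cJ
    by_cases hxy : x = y
    · subst hxy
      simp only [if_true, zero_mul, zero_add, sub_self]
      rw [inner_self_one, mul_one]
    · simp only [if_neg hxy, add_zero]
      ring
  rw [Finset.mul_sum, Finset.sum_congr rfl fun y _ => h y, Finset.sum_add_distrib,
    Finset.sum_ite_eq]
  simp

theorem corr_eq (N L : ℕ) [NeZero L] (J : ℤ × ℤ → ℝ) (β : ℝ) (x y : Tor L) :
    corr N L J β x y =
      (∫ S : Conf N L, inner ℝ (S x : EuclideanSpace ℝ (Fin N)) (S y) *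
          Real.exp (pS (cJ L J β) S) ∂(prior N L)) /
        ∫ S : Conf N L, Real.exp (pS (cJ L J β) S) ∂(prior N L) := by
  unfold corr gibbs
  set κ : ℝ := ∑ _x : Tor L, β * Jper L J 0
  simp only [en_eq, Real.exp_add]
  have h1 : (fun S : Conf N L => inner ℝ (S x : EuclideanSpace ℝ (Fin N)) (S y) *
      (Real.exp (pS (cJ L J β) S) * Real.exp κ)) = fun S : Conf N L =>
      (inner ℝ (S x : EuclideanSpace ℝ (Fin N)) (S y) *
        Real.exp (pS (cJ L J β) S)) * Real.exp κ := by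
    funext S; ring
  rw [h1, integral_mul_const, integral_mul_const,
    mul_div_mul_right _ _ (Real.exp_pos _).ne']

/-- the two point function is the sum of the correlations of the components -/
theorem corr_eq_sum (N : ℕ) (hN : N ≠ 0) (L : ℕ) [NeZero L] (J : ℤ × ℤ → ℝ) (β : ℝ)
    (x y : Tor L) : corr N L J β x y = ∑ i : Fin N, corJ (cJ L J β) i x y := by
  rw [corr_eq]
  have hcont : ∀ (i : Fin N) (z : Tor L), Continuous fun S : Conf N L => cc i (S z) := by
    intro i z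
    unfold cc
    fun_prop
  have hint : ∀ i : Fin N, Integrable (fun S : Conf N L =>
      cc i (S x) * cc i (S y) * Real.exp (pS (cJ L J β) S)) (prior N L) := fun i =>
    integrable_prior N L (((hcont i x).mul (hcont i y)).mul
      (Real.continuous_exp.comp (continuous_pS _)))
  unfold corJ
  rw [← Finset.sum_div, ← integral_finsetSum _ fun i _ => hint i]
  congr 1
  refine integral_congr_ae (Filter.Eventually.of_forall fun S => ?_)
  simp only
  rw [← Finset.sum_mul, PiLp.inner_apply]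
  congr 1
  refine Finset.sum_congr rfl fun j _ => ?_
  unfold cc
  simp [mul_comm]

/-! ## Moments of the periodised coupling -/

theorem perw {J : ℤ × ℤ → ℝ} {w : ℝ → ℝ} (hw : ∀ s t, s ≤ t → w s ≤ w t)
    (hw0 : ∀ t, 0 ≤ w t) (hJs : Summable (fun m => |J m|))
    (hs : Summable (fun m => |J m| * w (znorm m))) (L : ℕ) [NeZero L] :
    ∑ x ∈ Finset.univ.filter (fun x : Tor L => x ≠ 0), Jper L J x * w (tnorm x) ≤
        ∑' m, |J m| * w (znorm m) := by
  set f : ℤ × ℤ → ℝ := fun m => |J m| * w (znorm m) with hf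
  have hf0 : ∀ m, 0 ≤ f m := fun m => mul_nonneg (abs_nonneg _) (hw0 _)
  have hcomp : Summable (f ∘ pt L) := hs.comp_injective (pt_inj L)
  have hk : ∀ x : Tor L, Function.Injective (fun k : ℤ × ℤ => (x, k)) := fun x a b h =>
    (Prod.mk.inj h).2
  have hfx : ∀ x : Tor L, Summable (fun k => f (pt L (x, k))) := fun x =>
    hcomp.comp_injective (hk x)
  have hJx : ∀ x : Tor L, Summable (fun k => |J (pt L (x, k))|) := fun x =>
    (hJs.comp_injective (pt_inj L)).comp_injective (hk x)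
  have h1 : ∀ x : Tor L, Jper L J x * w (tnorm x) ≤ ∑' k, f (pt L (x, k)) := by
    intro x
    have hwx : 0 ≤ w (tnorm x) := hw0 _
    unfold Jper
    rw [← tsum_mul_right]
    refine Summable.tsum_le_tsum (fun k => ?_) (((hJx x).of_abs).mul_right _) (hfx x)
    exact mul_le_mul (le_abs_self _) (hw _ _ (znorm_shift x k).1) hwx (abs_nonneg _)
  have h2 : ∀ x : Tor L, 0 ≤ ∑' k, f (pt L (x, k)) := fun x => tsum_nonneg fun k => hf0 _
  calc ∑ x ∈ Finset.univ.filter (fun x : Tor L => x ≠ 0), Jper L J x * w (tnorm x)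
      ≤ ∑ x ∈ Finset.univ.filter (fun x : Tor L => x ≠ 0), ∑' k, f (pt L (x, k)) :=
        Finset.sum_le_sum fun x _ => h1 x
    _ ≤ ∑ x : Tor L, ∑' k, f (pt L (x, k)) :=
        Finset.sum_le_sum_of_subset_of_nonneg (Finset.filter_subset _ _) fun x _ _ => h2 x
    _ = ∑' p : Tor L × (ℤ × ℤ), f (pt L p) := by
        have h3 : ∑' p : Tor L × (ℤ × ℤ), (f ∘ pt L) p = ∑' x, ∑' k, (f ∘ pt L) (x, k) :=
          Summable.tsum_prod' hcomp hfx
        have h4 : ∑' x : Tor L, ∑' k, (f ∘ pt L) (x, k) = ∑ x : Tor L, ∑' k, (f ∘ pt L) (x, k) :=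
          tsum_fintype _
        exact (h3.trans h4).symm
    _ ≤ ∑' m, f m := tsum_comp_le_tsum_of_inj hs hf0 (pt_inj L)

theorem cJ_nonneg {L : ℕ} [NeZero L] {J : ℤ × ℤ → ℝ} (hJ : ∀ m, m ≠ 0 → 0 ≤ J m) {β : ℝ}
    (hβ : 0 ≤ β) (e : Tor L × Tor L) : 0 ≤ cJ L J β e := by
  unfold cJ
  split_ifs with h
  · exact le_rfl
  · exact mul_nonneg hβ (Jper_nonneg hJ (sub_ne_zero.2 h))

theorem cJ_mono {L : ℕ} [NeZero L] {J : ℤ × ℤ → ℝ} (hJ : ∀ m, m ≠ 0 → 0 ≤ J m) {β B : ℝ}
    (hβ : β ≤ B) (e : Tor L × Tor L) : cJ L J β e ≤ cJ L J B e := by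
  unfold cJ
  split_ifs with h
  · exact le_rfl
  · exact mul_le_mul_of_nonneg_right hβ (Jper_nonneg hJ (sub_ne_zero.2 h))

theorem cJ_mom {J : ℤ × ℤ → ℝ} {w : ℝ → ℝ} (hw : ∀ s t, s ≤ t → w s ≤ w t)
    (hw0 : ∀ t, 0 ≤ w t) (hJs : Summable (fun m => |J m|))
    (hs : Summable (fun m => |J m| * w (znorm m))) {β : ℝ} (hβ : 0 ≤ β) (L : ℕ) [NeZero L]
    (x : Tor L) : ∑ y, (cJ L J β (x, y) + cJ L J β (y, x)) * w (tnorm (y - x)) ≤
      2 * β * ∑' m, |J m| * w (znorm m) := by
  have h0 := perw hw hw0 hJs hs L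
  have h1 : ∑ y, cJ L J β (x, y) * w (tnorm (y - x)) =
      β * ∑ z ∈ Finset.univ.filter (fun z : Tor L => z ≠ 0), Jper L J z * w (tnorm z) := by
    rw [Finset.sum_filter, Finset.mul_sum, ← (Equiv.subLeft x).sum_comp]
    refine Finset.sum_congr rfl fun z _ => ?_
    simp only [Equiv.subLeft_apply]
    unfold cJ
    by_cases hz : z = 0
    · subst hz
      simp
    · rw [if_neg (show ¬ (x, x - z).1 = (x, x - z).2 from fun h => hz (by
        have h' : x = x - z := h
        exact (sub_eq_self.1 h'.symm))), if_pos hz]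
      show β * Jper L J (x - (x - z)) * w (tnorm (x - z - x)) = _
      rw [sub_sub_cancel, tnorm_sub_comm, sub_sub_cancel]
      ring
  have h2 : ∑ y, cJ L J β (y, x) * w (tnorm (y - x)) =
      β * ∑ z ∈ Finset.univ.filter (fun z : Tor L => z ≠ 0), Jper L J z * w (tnorm z) := by
    rw [Finset.sum_filter, Finset.mul_sum, ← Equiv.sum_comp (Equiv.addRight x)]
    refine Finset.sum_congr rfl fun z _ => ?_
    simp only [Equiv.coe_addRight]
    unfold cJ
    by_cases hz : z = 0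
    · subst hz
      simp
    · rw [if_neg (show ¬ (z + x, x).1 = (z + x, x).2 from fun h => hz (by
        have h' : z + x = x := h
        exact (add_eq_right.1 h'))), if_pos hz]
      show β * Jper L J (z + x - x) * w (tnorm (z + x - x)) = _
      rw [add_sub_cancel_right]
      ring
  simp only [add_mul]
  rw [Finset.sum_add_distrib, h1, h2]
  nlinarith

/-- weight for the tails -/
def wt (ρ t : ℝ) : ℝ := if ρ < t then (1 + t) ^ 2 else 0

theorem wt_mono {ρ : ℝ} (hρ : 0 ≤ ρ) (s t : ℝ) (h : s ≤ t) : wt ρ s ≤ wt ρ t := by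
  unfold wt
  split_ifs with h1 h2 h2
  · exact pow_le_pow_left₀ (by linarith) (by linarith) 2
  · exact absurd (h1.trans_le h) h2
  · positivity
  · exact le_refl _

theorem wt_nonneg (ρ t : ℝ) : 0 ≤ wt ρ t := by
  unfold wt
  split_ifs
  · positivity
  · exact le_refl _

theorem wt_le (ρ t : ℝ) : wt ρ t ≤ (1 + t) ^ 2 := by
  unfold wt
  split_ifs
  · exact le_refl _
  · positivity

/-- tail function -/
def TJ (J : ℤ × ℤ → ℝ) (B ρ : ℝ) : ℝ := 2 * B * ∑' m, |J m| * wt ρ (znorm m)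

theorem TJ_tendsto {J : ℤ × ℤ → ℝ} (h : Summable fun m => |J m| * (1 + znorm m) ^ 2) (B : ℝ) :
    Tendsto (TJ J B) atTop (nhds 0) := by
  have h1 : Tendsto (fun ρ : ℝ => ∑' m, |J m| * wt ρ (znorm m)) atTop
      (nhds (∑' _ : ℤ × ℤ, (0 : ℝ))) := by
    refine tendsto_tsum_of_dominated_convergence (bound := fun m => |J m| * (1 + znorm m) ^ 2)
      h (fun m => ?_) (Eventually.of_forall fun ρ m => ?_)
    · refine tendsto_const_nhds.congr' ?_
      filter_upwards [eventually_ge_atTop (znorm m)] with ρ hρ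
      unfold wt
      rw [if_neg (not_lt.2 hρ), mul_zero]
    · rw [Real.norm_eq_abs, abs_of_nonneg (mul_nonneg (abs_nonneg _) (wt_nonneg _ _))]
      exact mul_le_mul_of_nonneg_left (wt_le _ _) (abs_nonneg _)
  rw [tsum_zero] at h1
  have h2 := h1.const_mul (2 * B)
  rw [mul_zero] at h2
  exact h2

theorem summable_abs_J {J : ℤ × ℤ → ℝ} (h : Summable fun m => |J m| * (1 + znorm m) ^ 2) :
    Summable (fun m => |J m|) := by
  refine Summable.of_nonneg_of_le (fun m => abs_nonneg _) (fun m => ?_) h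
  have h1 : 0 ≤ znorm m := Real.sqrt_nonneg _
  have h2 : (1:ℝ) ≤ (1 + znorm m) ^ 2 := one_le_pow₀ (by linarith)
  nlinarith [abs_nonneg (J m)]

theorem sqw_mono (s t : ℝ) (h : s ≤ t) : (1 + max s 0) ^ 2 ≤ (1 + max t 0) ^ 2 := by
  have h1 : max s 0 ≤ max t 0 := max_le_max h (le_refl 0)
  have h2 : 0 ≤ max s 0 := le_max_right _ _
  exact pow_le_pow_left₀ (by linarith) (by linarith) 2

theorem cJ_mom2 {J : ℤ × ℤ → ℝ} (hJ : ∀ m, m ≠ 0 → 0 ≤ J m)
    (h : Summable fun m => |J m| * (1 + znorm m) ^ 2) {β B : ℝ} (hβ : 0 ≤ β) (hB : β ≤ B)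
    (L : ℕ) [NeZero L] : Mom2 (2 * B * ∑' m, |J m| * (1 + znorm m) ^ 2) (cJ L J β) := by
  refine ⟨fun e => cJ_nonneg hJ hβ e, fun x => ?_⟩
  have hz : ∀ m : ℤ × ℤ, max (znorm m) 0 = znorm m := fun m =>
    max_eq_left (Real.sqrt_nonneg _)
  have ht : ∀ z : Tor L, max (tnorm z) 0 = tnorm z := fun z => max_eq_left (tnorm_nonneg z)
  have h1 := cJ_mom (w := fun t => (1 + max t 0) ^ 2) sqw_mono (fun t => by positivity)
    (summable_abs_J h) (by simpa only [hz] using h) hβ L x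
  simp only [hz, ht] at h1
  refine h1.trans ?_
  have h2 : 0 ≤ ∑' m, |J m| * (1 + znorm m) ^ 2 := tsum_nonneg fun m => by positivity
  nlinarith

theorem cJ_tail {J : ℤ × ℤ → ℝ} (h : Summable fun m => |J m| * (1 + znorm m) ^ 2)
    {β B : ℝ} (hβ : 0 ≤ β) (hB : β ≤ B) (L : ℕ) [NeZero L] :
    Tail (TJ J B) (cJ L J β) := by
  intro x ρ hρ
  have hs : Summable fun m => |J m| * wt ρ (znorm m) :=
    Summable.of_nonneg_of_le (fun m => mul_nonneg (abs_nonneg _) (wt_nonneg _ _))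
      (fun m => mul_le_mul_of_nonneg_left (wt_le _ _) (abs_nonneg _)) h
  have h1 := cJ_mom (wt_mono hρ) (wt_nonneg ρ) (summable_abs_J h) hs hβ L x
  have h2 : ∑ y, (if ρ < tnorm (y - x) then (cJ L J β (x, y) + cJ L J β (y, x)) *
      (1 + tnorm (y - x)) ^ 2 else 0) =
      ∑ y, (cJ L J β (x, y) + cJ L J β (y, x)) * wt ρ (tnorm (y - x)) := by
    refine Finset.sum_congr rfl fun y _ => ?_
    unfold wt
    split_ifs
    · rfl
    · rw [mul_zero]
  rw [h2]
  refine h1.trans ?_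
  unfold TJ
  have h3 : 0 ≤ ∑' m, |J m| * wt ρ (znorm m) :=
    tsum_nonneg fun m => mul_nonneg (abs_nonneg _) (wt_nonneg _ _)
  nlinarith

end Pool.Agent.H992.PL
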